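import Mathlib

/-!
# MP_b5021c_nt, all `θ`, K ODD, (O4), cycles of length `≥ 4`: the UF forms, one variable

`g = 1 + F`, `|F_k| ≤ 1`, `F_0 = 0`, `p = c (j + sg F)`, `x = 1/(j+1)`, `y = 1/j`.
-/

namespace Pool.Agent.B5.O4U

open Polynomial

/-- A polynomial with coefficients `0, 1, -1` on `[0, 1)`. -/
theorem abs_aeval_le {G : ℤ[X]} (h : ∀ k, |G.coeff k| ≤ 1) {x : ℝ} (hx0 : 0 ≤ x) (hx1 : x < 1) :
    |(aeval x G : ℝ)| ≤ (1 - x)⁻¹ := by
  rw [aeval_eq_sum_range]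
  refine (Finset.abs_sum_le_sum_abs _ _).trans ?_
  have h1 : ∀ i ∈ Finset.range (G.natDegree + 1), |G.coeff i • x ^ i| ≤ x ^ i := by
    intro i _
    rw [zsmul_eq_mul, abs_mul, abs_of_nonneg (pow_nonneg hx0 i)]
    have h2 : |((G.coeff i : ℤ) : ℝ)| ≤ 1 := by exact_mod_cast h i
    nlinarith [pow_nonneg hx0 i]
  refine (Finset.sum_le_sum h1).trans ?_
  rw [← tsum_geometric_of_lt_one hx0 hx1]
  exact (summable_geometric_of_lt_one hx0 hx1).sum_le_tsum _ (fun i _ => pow_nonneg hx0 i)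

/-- `F(x) = F_1 x + O(x²/(1-x))`. -/
theorem tail_one {F : ℤ[X]} (F0 : F.coeff 0 = 0) (Fk : ∀ k, |F.coeff k| ≤ 1) {x : ℝ}
    (hx0 : 0 < x) (hx1 : x < 1) :
    |(1 - x) * ((aeval x F : ℝ) - F.coeff 1 * x)| ≤ x ^ 2 := by
  have h1 : F = X * (X * F.divX.divX + C (F.coeff 1)) := by
    have e1 : F = X * F.divX + C (F.coeff 0) := (X_mul_divX_add F).symm
    have e2 : F.divX = X * F.divX.divX + C (F.divX.coeff 0) := (X_mul_divX_add F.divX).symm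
    rw [coeff_divX] at e2
    rw [F0, map_zero, add_zero] at e1
    rw [e2] at e1
    exact e1
  have h2 : (aeval x F : ℝ) = x * (x * aeval x F.divX.divX + F.coeff 1) := by
    conv_lhs => rw [h1]
    rw [map_mul, map_add, map_mul, aeval_X, aeval_C]
    simp
  have h3 := abs_aeval_le (G := F.divX.divX) (fun k => by
    rw [coeff_divX, coeff_divX]; exact Fk _) hx0.le hx1
  have h4 : (1 - x) * ((aeval x F : ℝ) - F.coeff 1 * x) =
      x ^ 2 * ((1 - x) * aeval x F.divX.divX) := by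
    rw [h2]
    ring
  have h5 : 0 < 1 - x := by linarith
  rw [h4, abs_mul, abs_of_nonneg (by positivity : (0 : ℝ) ≤ x ^ 2), abs_mul, abs_of_pos h5]
  have h6 : (1 - x) * |(aeval x F.divX.divX : ℝ)| ≤ 1 := by
    calc (1 - x) * |(aeval x F.divX.divX : ℝ)| ≤ (1 - x) * (1 - x)⁻¹ :=
          mul_le_mul_of_nonneg_left h3 h5.le
      _ = 1 := mul_inv_cancel₀ h5.ne'
  nlinarith [sq_nonneg x]

theorem coeff_cases {F : ℤ[X]} (Fk : ∀ k, |F.coeff k| ≤ 1) :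
    F.coeff 1 = 1 ∨ F.coeff 1 ≤ 0 := by
  have := abs_le.mp (Fk 1)
  omega

/-- Upper bound if `F_1 ≤ 0`. -/
theorem up_neg {F : ℤ[X]} (F0 : F.coeff 0 = 0) (Fk : ∀ k, |F.coeff k| ≤ 1) {x : ℝ}
    (hx0 : 0 < x) (hx1 : x < 1) (h : F.coeff 1 ≤ 0) : (1 - x) * (aeval x F : ℝ) ≤ x ^ 2 := by
  have h1 := (abs_le.mp (tail_one F0 Fk hx0 hx1)).2
  have h2 : ((F.coeff 1 : ℤ) : ℝ) ≤ 0 := by exact_mod_cast h
  nlinarith [mul_nonneg hx0.le (by linarith : (0 : ℝ) ≤ 1 - x), mul_nonneg (mul_nonneg hx0.le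
    (by linarith : (0 : ℝ) ≤ 1 - x)) (by linarith : (0 : ℝ) ≤ -((F.coeff 1 : ℤ) : ℝ))]

/-- Lower bound if `F_1 = 1`. -/
theorem lo_one {F : ℤ[X]} (F0 : F.coeff 0 = 0) (Fk : ∀ k, |F.coeff k| ≤ 1) {x : ℝ}
    (hx0 : 0 < x) (hx1 : x < 1) (h : F.coeff 1 = 1) :
    x * (1 - 2 * x) ≤ (1 - x) * (aeval x F : ℝ) := by
  have h1 := (abs_le.mp (tail_one F0 Fk hx0 hx1)).1
  rw [h] at h1
  push_cast at h1
  nlinarith

/-- (UBR1) THE PURE BRANCH `f = c (1 + F)`: the two points leave only `j = 3`, `sg = 1`. -/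
theorem ubr1 {c f p F : ℤ[X]} {j sg : ℕ} {x y : ℝ} (hj : 3 ≤ j) (hs1 : 1 ≤ sg) (hs2 : sg + 2 ≤ j)
    (F0 : F.coeff 0 = 0) (Fk : ∀ k, |F.coeff k| ≤ 1)
    (hp : p = c * (C (j : ℤ) + C (sg : ℤ) * F)) (hf : f = c * (1 + F))
    (hcx : 0 < (aeval x c : ℝ)) (hcy : 0 < (aeval y c : ℝ)) (hx : x * ((j : ℝ) + 1) = 1)
    (hy : y * (j : ℝ) = 1)
    (hq : 0 < (1 - x - x ^ 2) * (aeval x f : ℝ) - x * aeval x p)
    (hW : (1 - y ^ 2) * (aeval y f : ℝ) - y * aeval y p ≤ 0) : j = 3 ∧ sg = 1 := by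
  have hj' : (3 : ℝ) ≤ j := by exact_mod_cast hj
  have hs1' : (1 : ℝ) ≤ sg := by exact_mod_cast hs1
  have hs2' : (sg : ℝ) + 2 ≤ j := by exact_mod_cast hs2
  have hx0 : 0 < x := by
    by_contra hcon
    push Not at hcon
    nlinarith
  have hy0 : 0 < y := by
    by_contra hcon
    push Not at hcon
    nlinarith
  have hx4 : x ≤ 1 / 4 := by nlinarith
  have hy3 : y ≤ 1 / 3 := by nlinarith
  have aC : ∀ (t : ℝ) (n : ℤ), (aeval t (C n) : ℝ) = n := fun t n => by simp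
  rw [hp, hf] at hq hW
  simp only [map_mul, map_add, map_one, aC, Int.cast_natCast] at hq hW
  set Fx : ℝ := aeval x F with hFx
  set Fy : ℝ := aeval y F with hFy
  set cx : ℝ := aeval x c with hcx'
  set cy : ℝ := aeval y c with hcy'
  have hq1 : 0 < (1 - x - x ^ 2) * (1 + Fx) - x * (j + sg * Fx) := by
    have : 0 < cx * ((1 - x - x ^ 2) * (1 + Fx) - x * (j + sg * Fx)) := by linarith
    exact (mul_pos_iff_of_pos_left hcx).mp this
  have hW1 : (1 - y ^ 2) * (1 + Fy) - y * (j + sg * Fy) ≤ 0 := by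
    have h1 : cy * ((1 - y ^ 2) * (1 + Fy) - y * (j + sg * Fy)) ≤ 0 := by linarith
    by_contra hcon
    push Not at hcon
    linarith [mul_pos hcy hcon]
  -- `F_1 = 1`
  have hsx : (sg : ℝ) * x ≤ 1 - 3 * x := by nlinarith
  have hq2 : x ^ 2 < Fx * (1 - x - x ^ 2 - sg * x) := by nlinarith
  have hF1 : F.coeff 1 = 1 := by
    rcases coeff_cases Fk with h | h
    · exact h
    · exfalso
      have h1 := up_neg F0 Fk hx0 (by linarith) h
      rw [← hFx] at h1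
      have h2 : 0 < 1 - x - x ^ 2 - sg * x := by nlinarith
      have h3 : 1 - x - x ^ 2 - sg * x ≤ 1 - 2 * x := by nlinarith
      have h4 : (1 - x) * (Fx * (1 - x - x ^ 2 - sg * x)) ≤ x ^ 2 * (1 - x - x ^ 2 - sg * x) := by
        nlinarith
      nlinarith [mul_pos hx0 hx0]
  have h1 := lo_one F0 Fk hy0 (by linarith) hF1
  rw [← hFy] at h1
  have hsy : (sg : ℝ) * y ≤ 1 - 2 * y := by nlinarith
  have hW2 : Fy * (1 - y ^ 2 - sg * y) ≤ y ^ 2 := by nlinarith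
  have h2 : 2 * y - y ^ 2 ≤ 1 - y ^ 2 - sg * y := by linarith
  have h3 : 0 < 2 * y - y ^ 2 := by nlinarith
  -- `(1 - 2y)(2 - y) ≤ 1 - y`
  have h4 : y * (1 - 2 * y) * (1 - y ^ 2 - sg * y) ≤ (1 - y) * y ^ 2 := by
    have h5 : y * (1 - 2 * y) * (1 - y ^ 2 - sg * y) ≤
        (1 - y) * Fy * (1 - y ^ 2 - sg * y) := by
      apply mul_le_mul_of_nonneg_right h1 (by linarith)
    nlinarith
  have h6 : y * (1 - 2 * y) * (2 * y - y ^ 2) ≤ (1 - y) * y ^ 2 := by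
    refine le_trans ?_ h4
    apply mul_le_mul_of_nonneg_left h2
    nlinarith
  have h7 : (1 - 2 * y) * (2 - y) ≤ 1 - y := by
    have h8 : y ^ 2 * ((1 - 2 * y) * (2 - y)) ≤ y ^ 2 * (1 - y) := by nlinarith
    exact le_of_mul_le_mul_left h8 (by positivity)
  have hj3 : j = 3 := by
    by_contra hcon
    have h9 : 4 ≤ j := by omega
    have h10 : (4 : ℝ) ≤ j := by exact_mod_cast h9
    have h11 : y ≤ 1 / 4 := by nlinarith
    nlinarith
  exact ⟨hj3, by omega⟩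

end Pool.Agent.B5.O4U
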