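import Pool.Agent.Lib.MP_b5021c_nt.KO.H07.R7b
import Pool.Agent.Lib.MP_b5021c_nt.KO.H40.Aln
import Pool.Agent.Lib.MP_b5021c_nt.KO.H71.Cv2
import Pool.Agent.Lib.MP_b5021c_nt.KO.H62.Oal

/-!
# MP_b5021c_nt, all `θ`, K ODD, (O4), l = 3, ALPHA, row R7 (helper7): `gR` of order one is impossible
-/

set_option linter.unusedSectionVars false

namespace Pool.Agent.B5.R7

open scoped LaurentPolynomial
open Polynomial
open Pool.Agent.B5.KE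
open Pool.Agent.B5.Nr.Sch
open Pool.Agent.B5.Nr (TrezS)
open Pool.Agent.B5.H61 (CuspS)
open Pool.Agent.B5.KO.H96 (Alp)

/-- A unit constant times a polynomial with constant coefficient one has order zero. -/
theorem ord_one {s s' : ℤˣ} {g g' : ℤ[X]} (hg' : g'.coeff 0 = 1)
    (h : (LaurentPolynomial.C (s : ℤ) * LaurentPolynomial.T 1 * toLaurent g : RO ℤ) =
      LaurentPolynomial.C (s' : ℤ) * toLaurent g') : False := by
  have h1 : (toLaurent (X * (C (s : ℤ) * g)) : RO ℤ) = toLaurent (C (s' : ℤ) * g') := by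
    rw [map_mul, map_mul, map_mul, toLaurent_X, toLaurent_C, toLaurent_C, ← h]
    ring
  have h2 := congrArg (fun p : ℤ[X] => p.coeff 0) (toLaurent_injective h1)
  simp only [coeff_X_mul_zero, coeff_C_mul, hg', mul_one] at h2
  exact s'.ne_zero h2.symm

/-- ROW R7. -/
theorem m1a (hFcm : FcmS) (hEvR : EvRS) (hLs : LsmS)
    (hEv1 : BdV ℤ 1 1) (hRn : RnkS) (hO5 : H67.O5aS)
    (hG1 : G1pS) (hR : ResWDS) (hRS : ResStS) (hEv : EvS) (hEvm : EvmS)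
    (hFcl : FclS) (hCno : Cno.CnoS) (hMp : MpaS) (hVZ : VZS) (hU : UnitRS)
    (hQst : QstS) (hQra : QraS) (hMin : MinS) (hB5 : B5aS) (hQc : Qc3S) (hDv : Dv3S)
    (hLMN : LMNS) (hUS : RkUSS) (hD2 : D2S) (hSm : SmallS) (hEvz : EvzS) (hKvx : KvxS)
    (hUA : UnitAS)
    (hM1 : M1S) (hMm : MmulS) (hMV : MVS) (hE1 : E1S) (hE2 : E2S) (hPc : PCZS)
    (hClp : ClpS) (hC0 : Coeff0S) (hG0 : G0S) (hI1 : Inj1S) (hRk : RkS) (hFD : FDS)
    (hWW : WWfS) (hRF : RayFacS) (hMug : MugS) (hMco : McoS) (hCu : H61.CuspS) (hSf : SfzS)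
    (hTr : Nr.TrezS) (hTsa : TsaS) (hI3 : Io3S) (hMfc : MfcS) (hCa : Ca5S) (hGlc : GlcS)
    (hFou : FouS) (hDti : DtiS) (hNbr : NbrS) (hF1 : F1S) (hF2 : F2S) (hKm : KmuS)
    (hFsp : FspS) (hVco : VcoS) (hRy : RaySpanS) (hVf : KvfS) (hVv : KvvS) (hT : TsgS)
    (hNd : Nd3vS) (hNr : Nr3S) (hB : BpS) : KO62.M1AS := by
  intro P L _ _ _ _ _ phi D q f f' a j eta k Z mu Z' mu' hk A hdis hj i hdf l s g hg hgR
  have hD := A.w.ko.min.fp.dd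
  have e2 : (LaurentPolynomial.T 2 : RO ℤ) = LaurentPolynomial.T 1 * LaurentPolynomial.T 1 := by
    rw [← LaurentPolynomial.T_add]
    norm_num
  have hT1 : (LaurentPolynomial.T 1 : RO ℤ) ≠ 0 := (LaurentPolynomial.isUnit_T 1).ne_zero
  -- the value at `Z' 0`
  have hgR0 : KO29.gR D eta f' (Z i) (Z' 0) =
      LaurentPolynomial.C (s : ℤ) * LaurentPolynomial.T 1 * toLaurent g := by
    rw [← hgR]
    apply mul_left_cancel₀ hT1
    rw [← KO.H40.alG_gR, ← KO.H40.alG_gR, KO.H40.alH_all hF1 A hdis i i 0 l]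
  -- the order in `V''`
  have hG : KO.H40.alG f' (KO.H40.alH D eta (Z i) (Z' l)) =
      LaurentPolynomial.T 2 * toLaurent (C (s : ℤ) * g) := by
    rw [KO.H40.alG_gR, hgR, e2, map_mul, toLaurent_C]
    ring
  obtain ⟨⟨m, g1, hU1, hg1⟩, -⟩ := KO.H40.alp_m1 hM1 hMm hMV hE1 hE2 hPc hClp hC0 hG0 hI1 hRk hFD
    hWW hRF hMug hMco hCu hSf hTr hTsa hI3 hMfc hCa hGlc hFou hDti hNbr hF1 hF2 hKm hFsp hVco hRy
    hVf hVv hT hNd hNr hB A hdis hG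
  obtain ⟨-, -, -, ⟨Y⟩⟩ := hMco ℤ P L phi D (Z i) (Z (i + 1)) (eta (Z i)) (eta (Z (i + 1))) hD.inj
    hD.bin (A.c.mtl i)
  obtain ⟨c, H, E, hE, hE0, hc, hdc, hDH, hVH, hH0, hfr⟩ := alp_one hFcm hEvR hLs hG1 hEvz hEv1 hFcl
    hR hRS hMV hMm hE1 hE2 hPc hClp hC0 hG0 hI1 hRk hFD hWW hRF hMug hMco hCu hSf hTr hTsa hI3 hMfc
    hCa hGlc hFou hDti hRn hO5 hF1 hRy A hdis i l hdf hU1 hg1 (by omega) Y
  obtain ⟨-, -, -, s', g', hg', hR', -⟩ := KO.H71.r4v hG1 hR hRS hEv hEvm hFcl hCno hMp hVZ hU hQst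
    hQra hMin hB5 hQc hDv hLMN hUS hD2 hSm hEvz hKvx hUA hM1 hMm hMV hE1 hE2 hPc hClp hC0 hG0 hI1
    hRk hFD hWW hRF hMug hMco hCu hSf hTr hTsa hI3 hMfc hCa hGlc hFou hDti hNbr hF1 hF2 hKm hFsp
    hVco hRy hVf hVv hT hNd hNr hB A hdis hj i Y hE0 hc hdc hDH hVH hH0 hfr
    (Or.inr ⟨s, 1, g, hg, hgR0⟩)
  rw [hR'] at hgR0
  exact ord_one hg' hgR0.symm

end Pool.Agent.B5.R7
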