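import Pool.Agent.Lib.MP_b5021c_nt.KO.H07.Ubc
import Pool.Agent.Lib.MP_b5021c_nt.KO.H13.L4p

/-!
# MP_b5021c_nt, all `θ`, K ODD, (O4), two overlapping 4-cycles: the contents are one
-/

namespace Pool.Agent.B5.O4C

open Polynomial
open Pool.Agent.B5
open Pool.Agent.B5.O4X (Tp L4p aC)

theorem root_i {z : ℂ} (h : z ^ 2 = -1) : z = Complex.I ∨ z = -Complex.I := by
  have h1 : (z - Complex.I) * (z + Complex.I) = 0 := by
    have : (z - Complex.I) * (z + Complex.I) = z ^ 2 - Complex.I ^ 2 := by ring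
    rw [this, h, Complex.I_sq]
    ring
  rcases mul_eq_zero.mp h1 with h2 | h2
  · exact Or.inl (by linear_combination h2)
  · exact Or.inr (by linear_combination h2)

/-- An integer polynomial with a root `±i` is divisible by `1 + X^2`. -/
theorem dvd_i {c : ℤ[X]} {z : ℂ} (hz : z ^ 2 = -1) (h : (aeval z c : ℂ) = 0) :
    ∃ Q : ℤ[X], c = (1 + X ^ 2) * Q := by
  have hm : (X ^ 2 + C 1 : ℤ[X]).Monic := monic_X_pow_add_C 1 (by norm_num)
  have e1 := modByMonic_add_div c (X ^ 2 + C 1)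
  have hd : (c %ₘ (X ^ 2 + C 1)).natDegree < 2 := by
    have := natDegree_modByMonic_lt c hm (by
      intro h0
      have := congrArg natDegree h0
      rw [natDegree_X_pow_add_C, natDegree_one] at this
      omega)
    rwa [natDegree_X_pow_add_C] at this
  obtain ⟨R, hR⟩ : ∃ R, R = c %ₘ (X ^ 2 + C 1) := ⟨_, rfl⟩
  rw [← hR] at e1 hd
  have e2 : R = C (R.coeff 1) * X + C (R.coeff 0) :=
    eq_X_add_C_of_natDegree_le_one (by omega)
  have e3 : (aeval z R : ℂ) = 0 := by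
    have h3 := congrArg (fun Q => (aeval z Q : ℂ)) e1
    simp only [map_add, map_mul, map_pow, aeval_X, map_one, hz] at h3
    rw [h] at h3
    rw [← h3]
    ring
  rw [e2] at e3
  simp only [map_add, map_mul, aeval_X, eq_intCast] at e3
  simp only [map_intCast] at e3
  have h0 : R = 0 := by
    rcases root_i hz with rfl | rfl
    · have h4 := congrArg Complex.re e3
      have h5 := congrArg Complex.im e3
      simp at h4 h5
      rw [e2, h4, h5]
      simp
    · have h4 := congrArg Complex.re e3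
      have h5 := congrArg Complex.im e3
      simp at h4 h5
      rw [e2, h4, h5]
      simp
  obtain ⟨W, hW⟩ : ∃ W, W = c /ₘ (X ^ 2 + C 1) := ⟨_, rfl⟩
  refine ⟨W, ?_⟩
  rw [h0, zero_add, ← hW] at e1
  rw [← e1, map_one]
  ring

/-- A polynomial with the roots `±i` only. -/
theorem con_of {n : ℕ} : ∀ {c : ℤ[X]}, c.natDegree ≤ n → c.coeff 0 = 1 →
    (∀ z : ℂ, (aeval z c : ℂ) = 0 → z ^ 2 = -1) → ∃ d : ℕ, c = (1 + X ^ 2) ^ d := by
  induction n using Nat.strong_induction_on with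
  | _ n ih =>
    intro c hn c0 cr
    by_cases hd : c.natDegree = 0
    · refine ⟨0, ?_⟩
      rw [eq_C_of_natDegree_eq_zero hd, c0, pow_zero, map_one]
    · have h1 : (c.map (algebraMap ℤ ℂ)).degree ≠ 0 := by
        intro h2
        apply hd
        have h3 := natDegree_eq_of_degree_eq_some h2
        rwa [natDegree_map_eq_of_injective (algebraMap ℤ ℂ).injective_int] at h3
      obtain ⟨z, hz⟩ := IsAlgClosed.exists_root _ h1
      have h2 : (aeval z c : ℂ) = 0 := by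
        rw [IsRoot.def, eval_map_algebraMap] at hz
        exact hz
      have h3 := cr z h2
      obtain ⟨Q, hQ⟩ := dvd_i h3 h2
      have hQ0 : Q ≠ 0 := by
        rintro rfl
        rw [hQ, mul_zero, coeff_zero] at c0
        omega
      have e0 : (1 + X ^ 2 : ℤ[X]) = (1 + X ^ 2) ^ 1 := (pow_one _).symm
      have hdeg : c.natDegree = 2 + Q.natDegree := by
        rw [hQ, natDegree_mul (by rw [e0]; exact (monic_c 1).ne_zero) hQ0, e0, deg_c]
      obtain ⟨d, hd'⟩ := ih Q.natDegree (by omega) le_rfl (by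
        rw [hQ, mul_coeff_zero] at c0
        simpa using c0) (fun w hw => cr w (by rw [hQ, map_mul, hw, mul_zero]))
      exact ⟨d + 1, by rw [hQ, hd']; ring⟩

/-- A `k`-th root. -/
theorem exists_root' {k : ℕ} (hk : 1 ≤ k) (w : ℂ) : ∃ z : ℂ, z ^ k = w :=
  IsAlgClosed.exists_pow_nat_eq w (by omega)

theorem norm_le_of_pow {k : ℕ} (hk : 1 ≤ k) {z w : ℂ} (h : z ^ k = w) (hw : ‖w‖ ≤ 1) :
    ‖z‖ ≤ 1 := by
  by_contra hcon
  push Not at hcon
  have h1 : 1 < ‖z‖ ^ k := one_lt_pow₀ hcon (by omega)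
  rw [← norm_pow, h] at h1
  linarith

theorem norm_eq_of_pow {k : ℕ} (hk : 1 ≤ k) {z w : ℂ} (h : z ^ k = w) (hw : ‖w‖ = 1) :
    ‖z‖ = 1 := by
  have h1 : ‖z‖ ^ k = 1 := by rw [← norm_pow, h, hw]
  exact (pow_eq_one_iff_of_nonneg (norm_nonneg z) (by omega)).mp h1

/-- The conditions on the binomials. -/
theorem bin_cond {j k : ℕ} {t r : ℤ} (hk : 1 ≤ k) (hj : 1 ≤ j)
    (zP : ∀ z : ℂ, ‖z‖ ≤ 1 → (aeval z (C (j : ℤ) + C t * X ^ k : ℤ[X]) : ℂ) ≠ 0)
    (le : ∀ z : ℂ, ‖z‖ = 1 → ‖(aeval z (1 + C r * X ^ k : ℤ[X]) : ℂ)‖ ≤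
      ‖(aeval z (C (j : ℤ) + C t * X ^ k : ℤ[X]) : ℂ)‖) :
    |t| + 1 ≤ j ∧ |1 + r| ≤ j + t ∧ |1 - r| ≤ j - t := by
  have eP : ∀ z : ℂ, (aeval z (C (j : ℤ) + C t * X ^ k : ℤ[X]) : ℂ) = j + t * z ^ k := by
    intro z
    simp [map_add, map_mul, map_pow, aeval_X]
  have eg : ∀ z : ℂ, (aeval z (1 + C r * X ^ k : ℤ[X]) : ℂ) = 1 + r * z ^ k := by
    intro z
    simp [map_add, map_mul, map_pow, aeval_X]
  have h1 : |t| + 1 ≤ j := by
    by_contra hcon
    have h2 : (j : ℤ) ≤ |t| := by omega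
    have ht : t ≠ 0 := by
      rintro rfl
      simp at h2
      omega
    have ht' : (t : ℂ) ≠ 0 := by exact_mod_cast ht
    obtain ⟨z, hz⟩ := exists_root' hk (-(j : ℂ) / t)
    have h3 : ‖(-(j : ℂ) / t)‖ ≤ 1 := by
      rw [norm_div, norm_neg, Complex.norm_natCast, Complex.norm_intCast,
        div_le_one (by exact_mod_cast abs_pos.mpr ht)]
      exact_mod_cast h2
    apply zP z (norm_le_of_pow hk hz h3)
    rw [eP, hz]
    field_simp
    ring
  have h4 := abs_le.mp (by omega : |t| ≤ (j : ℤ) - 1)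
  refine ⟨h1, ?_, ?_⟩
  · have h5 := le 1 (by simp)
    rw [eP, eg] at h5
    simp only [one_pow, mul_one] at h5
    have h6 : ((1 : ℂ) + r) = ((1 + r : ℤ) : ℂ) := by push_cast; ring
    have h7 : ((j : ℂ) + t) = ((j + t : ℤ) : ℂ) := by push_cast; ring
    rw [h6, h7, Complex.norm_intCast, Complex.norm_intCast] at h5
    have h8 : |1 + r| ≤ |(j : ℤ) + t| := by exact_mod_cast h5
    rwa [abs_of_nonneg (by omega : 0 ≤ (j : ℤ) + t)] at h8
  · obtain ⟨z, hz⟩ := exists_root' hk (-1 : ℂ)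
    have h5 := le z (norm_eq_of_pow hk hz (by simp))
    rw [eP, eg, hz] at h5
    have h6 : ((1 : ℂ) + r * -1) = ((1 - r : ℤ) : ℂ) := by push_cast; ring
    have h7 : ((j : ℂ) + t * -1) = ((j - t : ℤ) : ℂ) := by push_cast; ring
    rw [h6, h7, Complex.norm_intCast, Complex.norm_intCast] at h5
    have h8 : |1 - r| ≤ |(j : ℤ) - t| := by exact_mod_cast h5
    rwa [abs_of_nonneg (by omega : 0 ≤ (j : ℤ) - t)] at h8

variable {j : ℕ} {q f f' p p' c c' P P' g g' : ℤ[X]} {x y : ℝ}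

/-- THEOREM B' in the form `Ty`. -/
theorem ty_of_l4p (h : L4p j q f f' p c P g) (hj : 2 ≤ j) : Ty j P g := by
  have hc : ∀ (k : ℕ) (t r : ℤ), 1 ≤ k → P = C (j : ℤ) + C t * X ^ k → g = 1 + C r * X ^ k →
      |t| + 1 ≤ j ∧ |1 + r| ≤ j + t ∧ |1 - r| ≤ j - t := by
    intro k t r hk hP hg
    have h1 := h.zP
    have h2 := h.le
    rw [hP] at h1 h2
    rw [hg] at h2
    exact bin_cond hk (by omega) h1 h2
  refine ty_of_bpx ⟨fun hg => ?_, h.bq⟩ hc
  rcases h.bd hg with h1 | h1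
  · exact Or.inl h1
  · have e : j = (j - 1) + 1 := by omega
    rw [e]
    exact bpx_succ h1

theorem con_l4p (h : L4p j q f f' p c P g) : ∃ d : ℕ, c = (1 + X ^ 2) ^ d :=
  con_of le_rfl h.c0 h.cr

/-- (CONTENT) both contents are one. -/
theorem l4_unit (hL : L4p j q f f' p c P g) (hL' : L4p j q f' f p' c' P' g')
    (h : Tp j q f x y) (h' : Tp j q f' x y) (hq : (aeval Complex.I q : ℂ) ≠ 0) :
    c = 1 ∧ c' = 1 := by
  obtain ⟨d, hd⟩ := con_l4p hL
  obtain ⟨d', hd'⟩ := con_l4p hL'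
  have ci : ∀ n : ℕ, 1 ≤ n → (aeval Complex.I ((1 + X ^ 2 : ℤ[X]) ^ n) : ℂ) = 0 := by
    intro n hn
    simp only [map_pow, map_add, map_one, aeval_X, Complex.I_sq]
    rw [add_neg_cancel, zero_pow (by omega)]
  have key : ∀ {q f f' p p' c c' P P' g g' : ℤ[X]} {d : ℕ}, L4p j q f f' p c P g →
      L4p j q f' f p' c' P' g' → Tp j q f x y → Tp j q f' x y → c = (1 + X ^ 2) ^ d →
      c' = 1 → d = 0 := by
    intro q f f' p p' c c' P P' g g' d hL hL' h h' hd hc'
    by_contra hne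
    have e1 := hL'.cp
    have e2 := hL'.cg
    rw [hc', one_mul] at e1 e2
    have h1 := ty_of_l4p hL' h.j2
    rw [← e1, ← e2] at h1
    exact ubc (d := d) (by omega) h h' hL.hX hL'.hX (by rw [← hd]; exact hL.cp)
      (by rw [← hd]; exact hL.cg) (ty_of_l4p hL h.j2) h1
  rcases Nat.eq_zero_or_pos d with h1 | h1
  · rw [h1, pow_zero] at hd
    have h2 := key hL' hL h' h hd' hd
    rw [h2, pow_zero] at hd'
    exact ⟨hd, hd'⟩
  · rcases Nat.eq_zero_or_pos d' with h2 | h2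
    · rw [h2, pow_zero] at hd'
      have h3 := key hL hL' h h' hd hd'
      omega
    · exfalso
      apply hq
      have e1 : (aeval Complex.I p : ℂ) = 0 := by
        rw [hL.cp, map_mul, hd, ci d h1, zero_mul]
      have e2 : (aeval Complex.I f : ℂ) = 0 := by
        rw [hL'.cg, map_mul, hd', ci d' h2, zero_mul]
      have e3 : q = (1 - X - X ^ 2) * f - X * p := by rw [hL.hX]; ring
      rw [e3, map_sub, map_mul, map_mul, e1, e2, mul_zero, mul_zero, sub_zero]

end Pool.Agent.B5.O4C
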