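import Pool.Agent.Lib.MP_b5021c_nt.KO.H07.BeZ1
import Pool.Agent.Lib.MP_b5021c_nt.KE.H96.Ray
import Pool.Agent.Lib.MP_b5021c_nt.IfaceBE

/-!
# MP_b5021c_nt, PURE BETA, LEMMA Z (row BE_Z)

The drop at the bad load of an outside ray is exactly two.  `chi` is a functional which kills
`US (lam i) (T i) D`; `K = {a | m ∣ chi a}` with `m = 2 chi (S 0)` or `m = 3 chi (S 0)`; the number
of `l` with `chi (T l) ≠ 0` is minimal (induction), so the exponents in `K` are of full rank.
-/

set_option linter.unusedSectionVars false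

namespace Pool.Agent.B5.BeZ

open scoped LaurentPolynomial
open Polynomial
open Pool.Agent.B5
open Pool.Agent.B5.H42.Irr (exists_port)

/-! ### Functionals -/

section Coord

variable {L : Type} [AddCommGroup L] {s : ℕ} {S : Fin 3 → L} {T : Fin s → L}

/-- A functional with given values on the basis. -/
theorem exists_fn (h : Function.Bijective fun c : (Fin 3 → ℤ) × (Fin s → ℤ) =>
    ∑ i, c.1 i • S i + ∑ i, c.2 i • T i) (sv : Fin 3 → ℤ) (tv : Fin s → ℤ) :
    ∃ f : L →+ ℤ, (∀ k, f (S k) = sv k) ∧ ∀ l, f (T l) = tv l := by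
  classical
  let lin : ((Fin 3 → ℤ) × (Fin s → ℤ)) →+ L :=
    { toFun := fun c => ∑ i, c.1 i • S i + ∑ i, c.2 i • T i
      map_zero' := by simp
      map_add' := by
        intro a b
        simp only [Prod.fst_add, Prod.snd_add, Pi.add_apply, add_smul, Finset.sum_add_distrib]
        abel }
  let e := AddEquiv.ofBijective lin h
  let g : ((Fin 3 → ℤ) × (Fin s → ℤ)) →+ ℤ :=
    { toFun := fun c => ∑ i, c.1 i * sv i + ∑ i, c.2 i * tv i
      map_zero' := by simp
      map_add' := by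
        intro a b
        simp only [Prod.fst_add, Prod.snd_add, Pi.add_apply, add_mul, Finset.sum_add_distrib]
        abel }
  refine ⟨g.comp e.symm.toAddMonoidHom, fun k => ?_, fun l => ?_⟩
  · have h1 : e (Pi.single k 1, 0) = S k := by
      change ∑ i, (Pi.single k 1 : Fin 3 → ℤ) i • S i + ∑ i, (0 : Fin s → ℤ) i • T i = S k
      simp [Pi.single_apply]
    have h2 : e.symm (S k) = (Pi.single k 1, 0) := (e.symm_apply_eq).2 h1.symm
    change g (e.symm (S k)) = sv k
    rw [h2]
    change ∑ i, (Pi.single k 1 : Fin 3 → ℤ) i * sv i + ∑ i, (0 : Fin s → ℤ) i * tv i = sv k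
    simp [Pi.single_apply]
  · have h1 : e (0, Pi.single l 1) = T l := by
      change ∑ i, (0 : Fin 3 → ℤ) i • S i + ∑ i, (Pi.single l 1 : Fin s → ℤ) i • T i = T l
      simp [Pi.single_apply]
    have h2 : e.symm (T l) = (0, Pi.single l 1) := (e.symm_apply_eq).2 h1.symm
    change g (e.symm (T l)) = tv l
    rw [h2]
    change ∑ i, (0 : Fin 3 → ℤ) i * sv i + ∑ i, (Pi.single l 1 : Fin s → ℤ) i * tv i = tv l
    simp [Pi.single_apply]

theorem fn_ext (h : Function.Bijective fun c : (Fin 3 → ℤ) × (Fin s → ℤ) =>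
    ∑ i, c.1 i • S i + ∑ i, c.2 i • T i) {f g : L →+ ℤ} (hS : ∀ k, f (S k) = g (S k))
    (hT : ∀ l, f (T l) = g (T l)) : f = g := by
  ext x
  obtain ⟨c, rfl⟩ := h.2 x
  simp only [map_add, map_sum, map_zsmul, hS, hT]

theorem fn_sST (f : L →+ ℤ) (A : Finset (Fin 3)) (B : Finset (Fin s)) :
    f (sST S T A B) = ∑ i ∈ A, f (S i) + ∑ i ∈ B, f (T i) := by
  unfold sST
  rw [map_add, map_sum, map_sum]

/-- The lattice `m ∣ chi`. -/
def chiM (chi : L →+ ℤ) (m : ℤ) : Submodule ℤ L where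
  carrier := {a | m ∣ chi a}
  zero_mem' := by
    change m ∣ chi 0
    rw [map_zero]
    exact dvd_zero m
  add_mem' := by
    intro a b ha hb
    change m ∣ chi (a + b)
    rw [map_add]
    exact dvd_add ha hb
  smul_mem' := by
    intro c a ha
    change m ∣ chi (c • a)
    rw [map_zsmul, smul_eq_mul]
    exact Dvd.dvd.mul_left ha c

theorem mem_chiM {chi : L →+ ℤ} {m : ℤ} {a : L} : a ∈ chiM chi m ↔ m ∣ chi a := Iff.rfl

end Coord

/-! ### The structure -/

section

variable {P : Type} [Fintype P] [DecidableEq P] {L : Type} [AddCommGroup L] [Module.Free ℤ L]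
  [Module.Finite ℤ L] {phi : L →+ (P → ℤ)} {D : AO ℤ L} {q f : ℤ[X]} {a : ℝ} {j s : ℕ}
  {S : Fin 3 → L} {es : Fin 3 → (RO ℤ)ˣ} {T : Fin s → L} {lam : Fin s → (RO ℤ)ˣ}

theorem v0_ne (be : Be phi D q f a j s S es T lam) (i : Fin s) :
    D.coeff 0 + (lam i : RO ℤ) * D.coeff (T i) ≠ 0 := by
  obtain ⟨-, g, e, hR, h | ⟨h, -, -⟩⟩ := be.tT i
  · rw [h]
    exact KE.V0_ne hR (k := 1) le_rfl
  · rw [h]
    exact KE.V0_ne_A hR

theorem port_S (be : Be phi D q f a j s S es T lam) {k : Fin 3} {p : P} (hp : phi (S k) p = 1)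
    (A : Finset (Fin 3)) (B : Finset (Fin s)) : phi (sST S T A B) p = if k ∈ A then 1 else 0 := by
  have h0 : phi (sST S T A B) p = ∑ i ∈ A, phi (S i) p + ∑ i ∈ B, phi (T i) p := by
    unfold sST
    rw [map_add, map_sum, map_sum, Pi.add_apply, Finset.sum_apply, Finset.sum_apply]
  have h1 : ∑ i ∈ B, phi (T i) p = 0 := Finset.sum_eq_zero fun i _ =>
    (be.dST k i p).resolve_left (by rw [hp]; exact one_ne_zero)
  have h2 : ∑ i ∈ A, phi (S i) p = ∑ i ∈ A, if i = k then 1 else 0 := by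
    refine Finset.sum_congr rfl fun i _ => ?_
    by_cases h : i = k
    · rw [if_pos h, h, hp]
    · rw [if_neg h]
      exact (be.dSS i k h p).resolve_right (by rw [hp]; exact one_ne_zero)
  rw [h0, h1, h2, add_zero, Finset.sum_ite_eq']

theorem port_T (be : Be phi D q f a j s S es T lam) {k : Fin s} {p : P} (hp : phi (T k) p = 1)
    (A : Finset (Fin 3)) (B : Finset (Fin s)) : phi (sST S T A B) p = if k ∈ B then 1 else 0 := by
  have h0 : phi (sST S T A B) p = ∑ i ∈ A, phi (S i) p + ∑ i ∈ B, phi (T i) p := by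
    unfold sST
    rw [map_add, map_sum, map_sum, Pi.add_apply, Finset.sum_apply, Finset.sum_apply]
  have h1 : ∑ i ∈ A, phi (S i) p = 0 := Finset.sum_eq_zero fun i _ =>
    (be.dST i k p).resolve_right (by rw [hp]; exact one_ne_zero)
  have h2 : ∑ i ∈ B, phi (T i) p = ∑ i ∈ B, if i = k then 1 else 0 := by
    refine Finset.sum_congr rfl fun i _ => ?_
    by_cases h : i = k
    · rw [if_pos h, h, hp]
    · rw [if_neg h]
      exact (be.dTT i k h p).resolve_right (by rw [hp]; exact one_ne_zero)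
  rw [h0, h1, h2, zero_add, Finset.sum_ite_eq']

theorem ex_S (be : Be phi D q f a j s S es T lam) (k : Fin 3) : ∃ p, phi (S k) p = 1 :=
  exists_port phi be.ko.min.fp.dd.inj (be.rS k).2.1 (be.ko.min.fp.dd.bin _ (be.rS k).1)

theorem ex_T (be : Be phi D q f a j s S es T lam) (k : Fin s) : ∃ p, phi (T k) p = 1 :=
  exists_port phi be.ko.min.fp.dd.inj (be.rT k).2.1 (be.ko.min.fp.dd.bin _ (be.rT k).1)

theorem sub_of (be : Be phi D q f a j s S es T lam) {b x : L} {A A' : Finset (Fin 3)}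
    {B B' : Finset (Fin s)} (hb : b = sST S T A B) (hx : x = sST S T A' B')
    (hle : ∀ p, phi b p = 1 → phi x p = 1 → ∀ i, phi b i = 1 → phi x i = 1)
    (hm : (∃ k, k ∈ A ∧ k ∈ A') ∨ ∃ l, l ∈ B ∧ l ∈ B') : A ⊆ A' ∧ B ⊆ B' := by
  have h0 : ∃ p, phi b p = 1 ∧ phi x p = 1 := by
    rcases hm with ⟨k, h1, h2⟩ | ⟨l, h1, h2⟩
    · obtain ⟨p, hp⟩ := ex_S be k
      refine ⟨p, ?_, ?_⟩
      · rw [hb, port_S be hp, if_pos h1]
      · rw [hx, port_S be hp, if_pos h2]
    · obtain ⟨p, hp⟩ := ex_T be l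
      refine ⟨p, ?_, ?_⟩
      · rw [hb, port_T be hp, if_pos h1]
      · rw [hx, port_T be hp, if_pos h2]
  obtain ⟨p, h1, h2⟩ := h0
  constructor
  · intro k hk
    obtain ⟨i, hi⟩ := ex_S be k
    have h3 := hle p h1 h2 i (by rw [hb, port_S be hi, if_pos hk])
    rw [hx, port_S be hi] at h3
    by_contra hne
    rw [if_neg hne] at h3
    exact zero_ne_one h3
  · intro k hk
    obtain ⟨i, hi⟩ := ex_T be k
    have h3 := hle p h1 h2 i (by rw [hb, port_T be hi, if_pos hk])
    rw [hx, port_T be hi] at h3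
    by_contra hne
    rw [if_neg hne] at h3
    exact zero_ne_one h3

theorem co_ne (be : Be phi D q f a j s S es T lam) {A : Finset (Fin 3)} (B : Finset (Fin s))
    (h0 : A ≠ ∅) (h1 : A ≠ Finset.univ) : D.coeff (sST S T A B) ≠ 0 := by
  intro h
  have h2 := be.psi A B h0 h1
  rw [h, mul_zero] at h2
  have h3 : (toLaurent (X * f) : RO ℤ) ≠ 0 := by
    rw [toLaurent_ne_zero]
    refine mul_ne_zero X_ne_zero ?_
    intro h4
    have h5 := be.f0
    rw [h4, coeff_zero] at h5
    exact zero_ne_one h5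
  have h4 : ((-1 : RO ℤ) ^ (A.card + B.card) * toLaurent (X * f)) ≠ 0 :=
    mul_ne_zero (pow_ne_zero _ (neg_ne_zero.mpr one_ne_zero)) h3
  exact h4 (neg_eq_zero.mp h2.symm)

theorem sST_ins {A : Finset (Fin 3)} {B : Finset (Fin s)} {k : Fin s} (hk : k ∉ B) :
    sST S T A (insert k B) = sST S T A B + T k := by
  classical
  unfold sST
  rw [Finset.sum_insert hk]
  abel

theorem flip_T (be : Be phi D q f a j s S es T lam) {A : Finset (Fin 3)} {B : Finset (Fin s)}
    (h0 : A ≠ ∅) (h1 : A ≠ Finset.univ) {k : Fin s} (hk : k ∉ B) :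
    D.coeff (sST S T A B) + (lam k : RO ℤ) * D.coeff (sST S T A B + T k) = 0 := by
  classical
  have h2 := be.psi A B h0 h1
  have h3 := be.psi A (insert k B) h0 h1
  rw [Finset.prod_insert hk, Finset.card_insert_of_notMem hk, ← add_assoc, pow_succ,
    sST_ins hk] at h3
  have h4 : (∏ i ∈ A, (ld (es i) 1 : RO ℤ)) * (∏ i ∈ B, (lam i : RO ℤ)) ≠ 0 :=
    mul_ne_zero (Finset.prod_ne_zero_iff.mpr fun i _ => Units.ne_zero _)
      (Finset.prod_ne_zero_iff.mpr fun i _ => Units.ne_zero _)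
  refine (mul_eq_zero.mp (?_ : (∏ i ∈ A, (ld (es i) 1 : RO ℤ)) * (∏ i ∈ B, (lam i : RO ℤ)) *
    (D.coeff (sST S T A B) + (lam k : RO ℤ) * D.coeff (sST S T A B + T k)) = 0)).resolve_left h4
  linear_combination h2 + h3

/-- The exponents of the closing are killed by the functionals of the cycle. -/
theorem kill_US (hVco : VcoS) (be : Be phi D q f a j s S es T lam) (i : Fin s) {nu : L →+ ℤ}
    (hT : ∀ l, nu (T l) = 0) (hS : nu (S 0) + nu (S 1) + nu (S 2) = 0) :
    ∀ x ∈ US (lam i) (T i) D, nu x = 0 := by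
  classical
  have hD := be.ko.min.fp.dd
  have hTi := be.rT i
  obtain ⟨v1, v2, v3, -, -⟩ := hVco ℤ P L phi D (T i) (lam i) hD.inj hD.bin
    (hD.bin _ hTi.1) hTi.2.1
  have h1 : Submodule.span ℤ (insert (T i) {x : L | vco (lam i) (T i) D x ≠ 0}) ≤
      LinearMap.ker nu.toIntLinearMap := by
    rw [Submodule.span_le]
    rintro x (rfl | hx)
    · exact hT i
    · change nu x = 0
      obtain ⟨k, hk⟩ := v2 x hx
      obtain ⟨A, B, hAB⟩ := be.sup _ hk
      have h2 : nu (x + k • T i) = nu x := by rw [map_add, map_zsmul, hT, smul_zero, add_zero]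
      have h3 : nu (sST S T A B) = ∑ i ∈ A, nu (S i) := by
        rw [fn_sST, Finset.sum_eq_zero (s := B) (fun l _ => hT l), add_zero]
      rw [← h2, hAB, h3]
      by_cases hA0 : A = ∅
      · rw [hA0, Finset.sum_empty]
      by_cases hA1 : A = Finset.univ
      · rw [hA1, Fin.sum_univ_three]
        exact hS
      exfalso
      have h4 : vco (lam i) (T i) D (sST S T A B) ≠ 0 := by
        rw [← hAB, v1]
        exact mul_ne_zero (Units.ne_zero _) hx
      have h5 : vco (lam i) (T i) D (sST S T A (B.erase i)) ≠ 0 := by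
        by_cases hiB : i ∈ B
        · have h6 : sST S T A B = sST S T A (B.erase i) + (1 : ℤ) • T i := by
            rw [one_smul, ← sST_ins (Finset.notMem_erase i B), Finset.insert_erase hiB]
          rw [h6, v1] at h4
          exact right_ne_zero_of_mul h4
        · rwa [Finset.erase_eq_of_notMem hiB]
      have h6 := v3 (sST S T A (B.erase i)) (by
        intro p
        rcases hD.bin _ hTi.1 p with h7 | h7
        · exact Or.inr h7
        · left
          rw [port_T be h7, if_neg (Finset.notMem_erase i B)])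
      rw [h6, flip_T be hA0 hA1 (Finset.notMem_erase i B)] at h5
      exact h5 rfl
  rintro x ⟨n, hn, hx⟩
  have h2 : nu (n • x) = 0 := h1 hx
  rw [map_zsmul, smul_eq_mul] at h2
  exact (mul_eq_zero.mp h2).resolve_left hn

/-- A functional which vanishes on the exponents in `K ⊇ LamS` kills `US`. -/
theorem kill_of (hVco : VcoS) (be : Be phi D q f a j s S es T lam) (i : Fin s) {nu : L →+ ℤ}
    {K : Submodule ℤ L} (hLK : LamS (lam i) (T i) D ≤ K)
    (h : ∀ x, D.coeff x ≠ 0 → x ∈ K → nu x = 0) : ∀ x ∈ US (lam i) (T i) D, nu x = 0 := by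
  have hD := be.ko.min.fp.dd
  have hTi := be.rT i
  have hTK : T i ∈ K := hLK (Submodule.subset_span (Set.mem_insert _ _))
  have hnT : nu (T i) = 0 := h _ hTi.1 hTK
  obtain ⟨-, v2, -, -, -⟩ := hVco ℤ P L phi D (T i) (lam i) hD.inj hD.bin
    (hD.bin _ hTi.1) hTi.2.1
  have h1 : Submodule.span ℤ (insert (T i) {x : L | vco (lam i) (T i) D x ≠ 0}) ≤
      LinearMap.ker nu.toIntLinearMap := by
    rw [Submodule.span_le]
    rintro x (rfl | hx)
    · exact hnT
    · change nu x = 0
      obtain ⟨k, hk⟩ := v2 x hx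
      have h2 := h _ hk (K.add_mem (hLK (Submodule.subset_span (Set.mem_insert_of_mem _ hx)))
        (K.smul_mem k hTK))
      rwa [map_add, map_zsmul, hnT, smul_zero, add_zero] at h2
  rintro x ⟨n, hn, hx⟩
  have h2 : nu (n • x) = 0 := h1 hx
  rw [map_zsmul, smul_eq_mul] at h2
  exact (mul_eq_zero.mp h2).resolve_left hn

/-! ### No factor with two exponents -/

/-- The exponent of the factor is a sum of `T`s. -/
theorem ns_T (hWWf : WWfS) (hVco : VcoS) (hFD : FDS) (hSm : SmallS) (hI : Inj1S) (hG0 : G0S)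
    (hU : UnitAS) (hMin : MinS) (hC1 : C1bS) (hMm : MmulS) (hSf : BeSfS)
    (be : Be phi D q f a j s S es T lam) (i : Fin s) (K : Submodule ℤ L)
    (hLK : LamS (lam i) (T i) D ≤ K) (g H : AO ℤ K) (b : K) (hgH : res K D = g * H)
    (hH0 : H.coeff 0 ≠ 0) (hb : b ≠ 0) (hs : supp g = {0, b}) (hu0 : IsUnit (g.coeff 0))
    (hub : IsUnit (g.coeff b)) {B : Finset (Fin s)} (hbB : (b : L) = sST S T ∅ B)
    (hiB : i ∈ B → B = {i})
    (hw : ∀ k, B = {k} → ∃ (A' : Finset (Fin 3)) (B' : Finset (Fin s)), A' ≠ ∅ ∧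
      A' ≠ Finset.univ ∧ k ∉ B' ∧ sST S T A' B' ∈ K) : False := by
  classical
  have hD := be.ko.min.fp.dd
  obtain ⟨hbin, hD0, -, hfl⟩ := fac hWWf hD K g H b hgH hH0 hb hs
  have hbL : (b : L) ≠ 0 := fun hh => hb (Subtype.ext hh)
  by_cases hone : ∃ k, B = {k}
  · obtain ⟨k, hk⟩ := hone
    obtain ⟨A', B', hA0, hA1, hkB, hK⟩ := hw k hk
    have hbk : (b : L) = T k := by
      rw [hbB, hk]
      unfold sST
      rw [Finset.sum_empty, Finset.sum_singleton, zero_add]
    have e1 := hfl (sST S T A' B') hK (fun p hp => by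
      rw [hbk] at hp
      rw [port_T be hp, if_neg hkB])
    have e2 := hfl 0 K.zero_mem (fun p _ => by rw [map_zero, Pi.zero_apply])
    rw [hbk] at e1 e2
    rw [zero_add] at e2
    have e3 := flip_T be hA0 hA1 hkB
    have e4 : D.coeff (sST S T A' B' + T k) ≠ 0 := by
      intro h0
      rw [h0, mul_zero, add_zero] at e3
      exact co_ne be B' hA0 hA1 e3
    have e5 : g.coeff 0 + (lam k : RO ℤ) * g.coeff b = 0 := by
      refine (mul_eq_zero.mp (?_ : (g.coeff 0 + (lam k : RO ℤ) * g.coeff b) *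
        D.coeff (sST S T A' B' + T k) = 0)).resolve_right e4
      linear_combination e1 + g.coeff b * e3
    have e6 : g.coeff 0 * (D.coeff 0 + (lam k : RO ℤ) * D.coeff (T k)) = 0 := by
      linear_combination (lam k : RO ℤ) * e2 + D.coeff 0 * e5
    exact v0_ne be k ((mul_eq_zero.mp e6).resolve_left hu0.ne_zero)
  · have hiB' : i ∉ B := fun h => hone ⟨i, hiB h⟩
    obtain ⟨i0, hi0⟩ := ex_T be i
    have hi : co phi i0 (T i) = 1 := hi0
    have hb0 : co phi i0 (b : L) = 0 := by
      change phi (b : L) i0 = 0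
      rw [hbB, port_T be hi0, if_neg hiB']
    obtain ⟨b', e', hbb, hdv⟩ := bin_cl hVco hD (be.rT i) hi K hLK g H b hgH hb hs hu0 hub hb0
    have hb' : b' ≠ 0 := by
      intro h0
      rw [h0] at hbb
      exact hbL hbb.symm
    have h2 : 2 ≤ Module.finrank ℤ L := by
      have := be.ko.rk
      have := be.ko.j2
      omega
    have cc : CC phi D (T i) i0 (lam i) := ⟨hD, h2, be.rT i, hi, v0_ne be i⟩
    obtain ⟨c, n, G, fd⟩ := hFD ℤ P L phi D (T i) i0 (lam i) hi cc
    obtain ⟨l, hl, hdl⟩ := bin_factor hG0 hU hMin hC1 hMm fd hb' hdv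
    have himm : ∀ x : Ker (co phi i0), (∀ p, phi (T i) p = 0 → phi (x : L) p = 0) → x = 0 := by
      intro x hx
      obtain ⟨k, hk⟩ := (hI ℤ P L phi D be.ko.min.fp (T i) (be.rT i)).1 (x : L) hx
      have h3 : co phi i0 (x : L) = 0 := x.2
      rw [hk, map_zsmul, hi, smul_eq_mul, mul_one] at h3
      apply Subtype.ext
      rw [hk, h3, zero_smul]
      rfl
    have hnp : ¬ Pure phi (T i) i0 (G l) := by
      intro hp
      obtain ⟨x, hx, y, hy, hxy⟩ := fd.wd l
      apply hxy
      rw [himm x fun p hp' => hp x hx p (by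
          unfold OO
          exact Finset.mem_filter.mpr ⟨Finset.mem_univ _, hp'⟩),
        himm y fun p hp' => hp y hy p (by
          unfold OO
          exact Finset.mem_filter.mpr ⟨Finset.mem_univ _, hp'⟩)]
    obtain ⟨b2, jj, e2, spt⟩ := (hSm ℤ P L phi D (T i) i0 (lam i) hi c n G fd l hl).2.2 hnp
    have hb2 : b2 ≠ 0 := by
      intro h0
      have h3 := spt.bj
      rw [h0] at h3
      change phi (0 : L) jj = 1 at h3
      rw [map_zero, Pi.zero_apply] at h3
      exact zero_ne_one h3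
    have hco : (G l).coeff b2 = (G l).coeff 0 * (0 - ((e2⁻¹ : (RO ℤ)ˣ) : RO ℤ)) := by
      conv_lhs => rw [spt.eq]
      rw [H78.cstm, Uf.bin_coeff, if_neg hb2, if_pos rfl]
    have m0 : (0 : Ker (co phi i0)) ∈ supp (G l) := spt.u0.ne_zero
    have m2 : b2 ∈ supp (G l) := by
      change (G l).coeff b2 ≠ 0
      rw [hco, zero_sub]
      exact mul_ne_zero spt.u0.ne_zero (neg_ne_zero.mpr (Units.ne_zero _))
    have key : ∀ F : L →+ ℤ, F (b : L) = 0 → F (b2 : L) = 0 := by
      intro F hF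
      have h3 := dvd_width hMin hb' hdl (F.comp (incl (Ker (co phi i0)))) (by
        change F (b' : L) = 0
        rw [hbb, hF]) _ m2 _ m0
      have h4 : F (b2 : L) = F (0 : L) := h3
      rw [h4, map_zero]
    have hbs : ∀ F : L →+ ℤ, F (b : L) = ∑ l ∈ B, F (T l) := by
      intro F
      rw [hbB, fn_sST, Finset.sum_empty, zero_add]
    rcases hSf P L phi D q f a j s S es T lam i i0 hi c n G l b2 jj e2 be fd spt with
      ⟨k, -, hk, -⟩ | ⟨B2, -, hB2, -⟩
    · by_cases hkB : k ∈ B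
      · obtain ⟨k1, hk1, hkk⟩ : ∃ k1 ∈ B, k1 ≠ k := by
          by_contra hcon
          push Not at hcon
          exact hone ⟨k, Finset.eq_singleton_iff_unique_mem.mpr ⟨hkB, hcon⟩⟩
        obtain ⟨F, -, hF⟩ := exists_fn be.bas 0 (fun l => (if l = k then 1 else 0) -
          if l = k1 then 1 else 0)
        have h3 := key F (by
          rw [hbs]
          simp only [hF, Finset.sum_sub_distrib, Finset.sum_ite_eq', if_pos hkB, if_pos hk1,
            sub_self])
        rw [hk, hF, if_pos rfl, if_neg (Ne.symm hkk)] at h3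
        norm_num at h3
      · obtain ⟨F, -, hF⟩ := exists_fn be.bas 0 (fun l => if l = k then 1 else 0)
        have h3 := key F (by
          rw [hbs]
          simp only [hF, Finset.sum_ite_eq', if_neg hkB])
        rw [hk, hF, if_pos rfl] at h3
        exact one_ne_zero h3
    · obtain ⟨F, hF, hF'⟩ := exists_fn be.bas (fun k => if k = 0 then 1 else 0) 0
      have h3 := key F (by
        rw [hbs]
        exact Finset.sum_eq_zero fun l _ => by rw [hF']; rfl)
      rw [hB2, map_add, map_add, map_add, hF, hF, hF, map_sum,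
        Finset.sum_eq_zero (s := B2) (fun l _ => by rw [hF']; rfl), if_pos rfl,
        if_neg (by decide), if_neg (by decide)] at h3
      norm_num at h3

/-- `b` contains `T i`: `b = T i`. -/
theorem only_i (be : Be phi D q f a j s S es T lam) {i : Fin s} {b : L} {A : Finset (Fin 3)}
    {B : Finset (Fin s)} (hb : b = sST S T A B)
    (hle : ∀ p, phi b p = 1 → phi (T i) p = 1 → ∀ k, phi b k = 1 → phi (T i) k = 1)
    (hi : i ∈ B) : A = ∅ ∧ B = {i} := by
  have h1 : T i = sST S T ∅ {i} := by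
    unfold sST
    rw [Finset.sum_empty, Finset.sum_singleton, zero_add]
  obtain ⟨h2, h3⟩ := sub_of be hb h1 hle (Or.inr ⟨i, hi, Finset.mem_singleton_self i⟩)
  exact ⟨Finset.subset_empty.mp h2,
    Finset.Subset.antisymm h3 (Finset.singleton_subset_iff.mpr hi)⟩

end

end Pool.Agent.B5.BeZ
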