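import Pool.Agent.Lib.MP_b5021c_nt.KO.H40.Kil
import Pool.Agent.Lib.MP_b5021c_nt.UF.H83.Ns

/-!
# MP_b5021c_nt, PURE BETA, LEMMA Z (row BE_Z): the general part

`irr_gen`: the restriction of `D` to a lattice of finite index which contains `LamS` is in `DD` if it
has no factor with two exponents.  `min_false`: with minimal support this is impossible as soon as
an exponent is lost and the remaining exponents are of full rank.  `bin_factor`: a binomial divisor
of a closing gives a small factor which divides the binomial.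
-/

set_option linter.unusedSectionVars false

namespace Pool.Agent.B5.BeZ

open scoped LaurentPolynomial
open AddMonoidAlgebra
open Pool.Agent.B5
open Pool.Agent.B5.H71 (em em_single em_coeff em_coeff_not em_res)
open Pool.Agent.B5.H42.Irr
open Pool.Agent.B5.KO.H40

section

variable {O : Type} [CommRing O] [IsDomain O] [IsPrincipalIdealRing O] [Coef O] {P : Type}
  [Fintype P] [DecidableEq P] {L : Type} [AddCommGroup L] [Module.Free ℤ L] [Module.Finite ℤ L]

/-- Irreducibility of a restriction without factors with two exponents. -/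
theorem irr_gen (hRes : ResKS) (hFact : FactS) (hC0 : Coeff0S) (hE1 : E1S) (hMV : MVS)
    (hM1 : M1S) (hC4 : C4S) (hE2 : E2S) (hThin : ThinS) (hWWf : WWfS) {phi : L →+ (P → ℤ)}
    {D : AO O L} (hD : DD phi D) (h2 : 2 ≤ Module.finrank ℤ L) {θ : ℝ}
    (hP : ClassP θ (D.coeff 0)) {T : L} (hT : Ray D T) {e : (RO O)ˣ}
    (hV0 : D.coeff 0 + (e : RO O) * D.coeff T ≠ 0) (K : Submodule ℤ L) (hLK : LamS e T D ≤ K)
    (hidx : ∀ a : L, ∃ n : ℤ, n ≠ 0 ∧ n • a ∈ K)
    (hns : ∀ (g H : AO O K) (b : K), res K D = g * H → H.coeff 0 ≠ 0 → b ≠ 0 →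
      supp g = {0, b} → IsUnit (g.coeff 0) → IsUnit (g.coeff b) → False)
    (hspn : rk (supp (res K D)) = Module.finrank ℤ K) :
    DD (phi.comp (incl K)) (res K D) := by
  classical
  have hTK : T ∈ K := hLK (Submodule.subset_span (Set.mem_insert _ _))
  obtain ⟨hst, hun⟩ := hRes O P L phi D T e K hD h2 hT hV0 hLK hidx
  have hinj : Function.Injective (phi.comp (incl K)) := by
    intro a b hab
    exact Subtype.ext (hD.inj hab)
  have hbin : ∀ a ∈ supp (res K D), Bin (phi.comp (incl K)) a := fun a ha => hD.bin (a : L) ha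
  refine ⟨hinj, hbin, hst, hun, ?_, hspn⟩
  -- irreducibility
  obtain ⟨c, n, G, hc0, heq, hG⟩ := hFact O K (res K D) hst hun
  obtain ⟨hW0, lam, hpos, -⟩ := id hst
  have hfull : ∀ i, FullAt lam (G i) := fun i => ((hG i).2.2.2.2 lam).2 hpos
  have hGpos : ∀ i, Pos lam (G i) := fun i => (hfull i).2.1
  have hG0 : ∀ i, (G i).coeff 0 ≠ 0 := fun i => (hfull i).1
  have key : ∀ s : Finset (Fin n),
      (cst c * ∏ i ∈ s, G i).coeff 0 = c * ∏ i ∈ s, (G i).coeff 0 := by
    intro s
    obtain ⟨e1, p1⟩ := H29.prod_coeff_zero hC0 G lam hGpos s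
    rw [(hC0 O _ (cst c) (∏ i ∈ s, G i) lam (H29.pos_cst lam c) p1).1, H29.cst_coeff_zero, e1]
  have hD0 : D.coeff 0 = c * ∏ i, (G i).coeff 0 := by
    rw [← key, ← heq]
    rfl
  have hsplit : ∀ i, res K D = G i * (cst c * ∏ j ∈ Finset.univ.erase i, G j) := by
    intro i
    rw [heq, ← Finset.mul_prod_erase Finset.univ G (Finset.mem_univ i)]
    ring
  have hnot : ∀ i, M ((G i).coeff 0) ≠ 1 := by
    intro i hM
    have hH0 : (cst c * ∏ j ∈ Finset.univ.erase i, G j).coeff 0 ≠ 0 := by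
      rw [key]
      exact mul_ne_zero hc0 (Finset.prod_ne_zero_iff.mpr fun j _ => hG0 j)
    have hWW : ∀ a ∈ supp (G i * (cst c * ∏ j ∈ Finset.univ.erase i, G j)),
        WW (phi.comp (incl K)) ∅ Finset.univ a := by
      intro a ha
      rw [← hsplit i] at ha
      refine ⟨fun j _ => hbin a ha j, Or.inl (fun j hj => absurd hj (Finset.notMem_empty j)),
        fun j _ hj => absurd (Finset.mem_univ j) hj⟩
    have hGW := (hWWf O P K (phi.comp (incl K)) ∅ Finset.univ (G i) _ hWW (hG0 i) hH0).1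
    have hth := hThin P K (phi.comp (incl K)) ∅ Finset.univ (supp (G i)) hinj hGW
    obtain ⟨hu0, b, hb0, hub, hsb⟩ :=
      hC4 O K (G i) (hG i).1 (hG i).2.2.1 (hG i).2.1 hth hM
    exact hns (G i) _ b (hsplit i) hH0 hb0 hsb hu0 hub
  rw [hD0] at hP
  rcases count hE1 hMV c (fun i => (G i).coeff 0) hP hnot with hn | ⟨hn, hMc⟩
  · exfalso
    subst hn
    have h3 : (res K D).coeff ⟨T, hTK⟩ ≠ 0 := hT.1
    apply h3
    rw [heq, Finset.univ_eq_empty, Finset.prod_empty, mul_one, cst, coeff_single,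
      Finsupp.single_apply, if_neg]
    intro h4
    exact hT.2.1 (congrArg (fun x : K => (x : L)) h4).symm
  · subst hn
    have hcu : IsUnit c := by
      refine hM1 O c hc0 hMc (fun z hz => ?_)
      apply (hE2 O P L phi D hD h2).1 z
      rw [hD0, map_mul, hz, zero_mul]
    have hcu2 : IsUnit (cst c : AO O K) :=
      hcu.map (AddMonoidAlgebra.singleZeroRingHom : RO O →+* AO O K)
    rw [heq, Fin.prod_univ_one]
    obtain ⟨w, hw⟩ := hcu2
    rw [← hw]
    exact (irreducible_units_mul w).2 (hG 0).1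

/-- Minimal support: a restriction of full rank which loses an exponent has a factor with two
exponents. -/
theorem min_false (hRes : ResKS) (hFact : FactS) (hC0 : Coeff0S) (hE1 : E1S) (hMV : MVS)
    (hM1 : M1S) (hC4 : C4S) (hE2 : E2S) (hThin : ThinS) (hWWf : WWfS) {phi : L →+ (P → ℤ)}
    {D : AO O L} {θ : ℝ} (hM : MinD θ phi D) (h2 : 2 ≤ Module.finrank ℤ L) {T : L} (hT : Ray D T)
    {e : (RO O)ˣ} (hV0 : D.coeff 0 + (e : RO O) * D.coeff T ≠ 0) (K : Submodule ℤ L)
    (hLK : LamS e T D ≤ K) (hidx : ∀ a : L, ∃ n : ℤ, n ≠ 0 ∧ n • a ∈ K)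
    (hns : ∀ (g H : AO O K) (b : K), res K D = g * H → H.coeff 0 ≠ 0 → b ≠ 0 →
      supp g = {0, b} → IsUnit (g.coeff 0) → IsUnit (g.coeff b) → False)
    {x : L} (hx : D.coeff x ≠ 0) (hxK : x ∉ K)
    (hnu : ∀ nu : L →+ ℤ, (∀ a, D.coeff a ≠ 0 → a ∈ K → nu a = 0) → nu = 0) : False := by
  classical
  set W : Submodule ℤ L := satur (Submodule.span ℤ {a | a ∈ supp D ∧ a ∈ K}) with hW
  have htop : W = ⊤ := by
    by_contra hne0
    obtain ⟨d, hd⟩ : ∃ d, d ∉ W := by
      by_contra hne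
      push Not at hne
      exact hne0 (eq_top_iff.mpr fun x _ => hne x)
    obtain ⟨nu, h3, h4⟩ := H56.exists_sep L W (H63.satur_sat _) d hd
    have h5 := hnu nu fun a ha haK => h3 a ⟨1, one_ne_zero, by
      rw [one_smul]
      exact Submodule.subset_span ⟨ha, haK⟩⟩
    rw [h5] at h4
    exact h4 rfl
  have hsat : satur (Submodule.span ℤ (supp (res K D))) = ⊤ := by
    rw [eq_top_iff]
    intro x _
    have hx : (x : L) ∈ W := by rw [htop]; trivial
    obtain ⟨n, hn, hnx⟩ := hx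
    refine ⟨n, hn, ?_⟩
    have h3 : Submodule.span ℤ {a | a ∈ supp D ∧ a ∈ K} ≤
        (Submodule.span ℤ (supp (res K D))).map K.subtype := by
      rw [Submodule.span_le]
      rintro a ⟨ha, haK⟩
      exact ⟨⟨a, haK⟩, Submodule.subset_span ha, rfl⟩
    obtain ⟨y, hy, hxy⟩ := h3 hnx
    have : y = n • x := Subtype.ext hxy
    rw [← this]
    exact hy
  have hspn : rk (supp (res K D)) = Module.finrank ℤ K := by
    unfold rk
    rw [← H07.finrank_satur, hsat]
    exact finrank_top ℤ K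
  have hfin : Module.finrank ℤ K = Module.finrank ℤ L := by
    rw [← H07.finrank_satur, show satur K = ⊤ from ?_]
    · exact finrank_top ℤ L
    · rw [eq_top_iff]
      intro a _
      obtain ⟨n, hn, hna⟩ := hidx a
      exact ⟨n, hn, hna⟩
  have hDD := irr_gen hRes hFact hC0 hE1 hMV hM1 hC4 hE2 hThin hWWf hM.fp.dd h2 hM.cls hT hV0 K
    hLK hidx hns hspn
  have h4 := hM.min P K (phi.comp (incl K)) (res K D) hDD hfin hM.cls
  have h5 : (supp (res K D)).ncard < (supp D).ncard := by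
    rw [← Set.ncard_image_of_injective (supp (res K D)) (Subtype.coe_injective : Function.Injective
      (fun x : K => (x : L)))]
    apply Set.ncard_lt_ncard
    · refine ⟨?_, ?_⟩
      · rintro _ ⟨x, hx, rfl⟩
        exact hx
      · intro hsub
        obtain ⟨y, -, hy⟩ := hsub hx
        have h6 := y.2
        change (y : L) = x at hy
        rw [hy] at h6
        exact hxK h6
    · exact (D.coeff.support.finite_toSet).subset (by
        intro a ha
        exact Finsupp.mem_support_iff.mpr ha)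
  omega

/-- The ports and the coefficients of a factor with two exponents. -/
theorem fac (hWWf : WWfS) {phi : L →+ (P → ℤ)} {D : AO O L} (hD : DD phi D) (K : Submodule ℤ L)
    (g H : AO O K) (b : K) (hgH : res K D = g * H) (hH0 : H.coeff 0 ≠ 0) (hb : b ≠ 0)
    (hs : supp g = {0, b}) :
    Bin phi (b : L) ∧ D.coeff 0 = g.coeff 0 * H.coeff 0 ∧
    (∀ a : L, a ∈ K → D.coeff a ≠ 0 → ∀ p, phi (b : L) p = 1 → phi a p = 1 →
      ∀ j, phi (b : L) j = 1 → phi a j = 1) ∧
    ∀ a : L, a ∈ K → (∀ p, phi (b : L) p = 1 → phi a p = 0) →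
      g.coeff 0 * D.coeff (a + b) = g.coeff b * D.coeff a := by
  classical
  have hg0 : g.coeff 0 ≠ 0 := by
    have : (0 : K) ∈ supp g := by rw [hs]; exact Or.inl rfl
    exact this
  have hbin : ∀ a ∈ supp (g * H), WW (phi.comp (incl K)) ∅ Finset.univ a := by
    intro a ha
    rw [← hgH] at ha
    refine ⟨fun j _ => hD.bin (a : L) ha j, Or.inl (fun j hj => absurd hj (Finset.notMem_empty j)),
      fun j _ hj => absurd (Finset.mem_univ j) hj⟩
  obtain ⟨hGW, hsep⟩ := hWWf O P K (phi.comp (incl K)) ∅ Finset.univ g H hbin hg0 hH0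
  have hbs : b ∈ supp g := by rw [hs]; exact Or.inr rfl
  have hbB : Bin phi (b : L) := fun j => (hGW b hbs).1 j (Finset.mem_univ j)
  have hHp : ∀ j, phi (b : L) j ≠ 0 → ∀ a ∈ supp H, phi (a : L) j = 0 := by
    intro j hj a ha
    rcases hsep j (Finset.mem_univ j) with h1 | h1
    · exact absurd (h1 b hbs) hj
    · exact h1 a ha
  have hbL : (b : L) ≠ 0 := fun hh => hb (Subtype.ext hh)
  obtain ⟨p1, hp1⟩ := exists_port phi hD.inj hbL hbB
  have hco : ∀ a : L, (ha : a ∈ K) → D.coeff a =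
      g.coeff 0 * H.coeff ⟨a, ha⟩ + g.coeff b * H.coeff (⟨a, ha⟩ - b) := by
    intro a ha
    have h1 : D.coeff a = (res K D).coeff ⟨a, ha⟩ := rfl
    rw [h1, hgH]
    conv_lhs => rw [binom g b hb hs]
    rw [two_mul_coeff]
  have hcp : ∀ a : L, (ha : a ∈ K) → ∀ j, phi (((⟨a, ha⟩ - b : K)) : L) j =
      phi a j - phi (b : L) j := by
    intro a ha j
    change phi (a - (b : L)) j = _
    rw [map_sub]
    rfl
  have hz : ∀ x : K, (∃ p, phi (b : L) p = 1 ∧ phi (x : L) p ≠ 0) → H.coeff x = 0 := by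
    rintro x ⟨p, h1, h2⟩
    by_contra hne
    exact h2 (hHp p (by rw [h1]; exact one_ne_zero) x hne)
  refine ⟨hbB, ?_, ?_, ?_⟩
  · rw [hco 0 K.zero_mem]
    have h1 : H.coeff (⟨0, K.zero_mem⟩ - b) = 0 := hz _ ⟨p1, hp1, by
      rw [hcp, hp1, map_zero, Pi.zero_apply]
      norm_num⟩
    rw [h1, mul_zero, add_zero]
    rfl
  · intro a haK ha p hp1 hp2 j hj
    have h1 := ha
    rw [hco a haK, hz ⟨a, haK⟩ ⟨p, hp1, by
      change phi a p ≠ 0
      rw [hp2]
      exact one_ne_zero⟩, mul_zero, zero_add] at h1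
    have h3 : H.coeff (⟨a, haK⟩ - b) ≠ 0 := right_ne_zero_of_mul h1
    have h4 := hHp j (by rw [hj]; exact one_ne_zero) _ h3
    rw [hcp] at h4
    omega
  · intro a haK ha
    have hab : a + (b : L) ∈ K := K.add_mem haK b.2
    have e1 : D.coeff a = g.coeff 0 * H.coeff ⟨a, haK⟩ := by
      rw [hco a haK, hz (⟨a, haK⟩ - b) ⟨p1, hp1, by
        rw [hcp, hp1, ha p1 hp1]
        norm_num⟩, mul_zero, add_zero]
    have e2 : D.coeff (a + (b : L)) = g.coeff b * H.coeff ⟨a, haK⟩ := by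
      rw [hco _ hab, hz ⟨a + (b : L), hab⟩ ⟨p1, hp1, by
        change phi (a + (b : L)) p1 ≠ 0
        rw [map_add, Pi.add_apply, hp1, ha p1 hp1]
        norm_num⟩, mul_zero, zero_add]
      congr 2
      apply Subtype.ext
      change a + (b : L) - (b : L) = a
      rw [add_sub_cancel_right]
    rw [e1, e2]
    ring

/-- A binomial divisor of the restriction gives a binomial divisor of the closing. -/
theorem bin_cl (hVco : VcoS) {phi : L →+ (P → ℤ)} {D : AO O L} (hD : DD phi D) {T : L}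
    (hT : Ray D T) {e : (RO O)ˣ} {i0 : P} (hi : co phi i0 T = 1) (K : Submodule ℤ L)
    (hLK : LamS e T D ≤ K) (g H : AO O K) (b : K) (hgH : res K D = g * H) (hb : b ≠ 0)
    (hs : supp g = {0, b}) (hu0 : IsUnit (g.coeff 0)) (hub : IsUnit (g.coeff b))
    (hb0 : co phi i0 (b : L) = 0) :
    ∃ (b' : Ker (co phi i0)) (e' : (RO O)ˣ), (b' : L) = b ∧
      (1 - single b' (e' : RO O)) ∣ cl (co phi i0) T hi e D := by
  classical
  have hTB : Bin phi T := hD.bin T hT.1
  have hTK : T ∈ K := hLK (Submodule.subset_span (Set.mem_insert _ _))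
  have hKc : ∀ a : Ker (co phi i0), (cl (co phi i0) T hi e D).coeff a ≠ 0 → (a : L) ∈ K := by
    intro a ha
    rw [(hVco O P L phi D T e hD.inj hD.bin hTB hT.2.1).2.2.2.2 i0 hi a] at ha
    exact hLK (Submodule.subset_span (Set.mem_insert_of_mem _ ha))
  have hcl := cl_em_res (co phi i0) T hi e K hTK D hKc
  rw [hgH, map_mul, map_mul] at hcl
  have hg := cl_binom (co phi i0) T hi e K g b hb hs
  obtain ⟨v0, hv0⟩ := hu0
  obtain ⟨vb, hvb⟩ := hub
  refine ⟨prj (co phi i0) T hi (b : L), -(vb * v0⁻¹), ?_, ?_⟩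
  · rw [prj_coe, hb0, zero_smul, sub_zero]
  · rw [← hcl, hg, hb0, zpow_zero, Units.val_one, mul_one, ← hv0, ← hvb]
    refine dvd_mul_of_dvd_left ⟨single 0 (v0 : RO O), ?_⟩ _
    rw [sub_mul, one_mul, AddMonoidAlgebra.single_mul_single, add_zero, Units.val_neg,
      Units.val_mul, neg_mul, mul_assoc, Units.inv_mul, mul_one, sub_eq_add_neg,
      AddMonoidAlgebra.single_neg, neg_neg]

end

section

variable {P : Type} [Fintype P] [DecidableEq P] {L : Type} [AddCommGroup L] [Module.Free ℤ L]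
  [Module.Finite ℤ L]

/-- A binomial divisor of a closing: a small factor divides the binomial. -/
theorem bin_factor (hG0 : G0S) (hU : UnitAS) (hMin : MinS) (hC1 : C1bS) (hMm : MmulS)
    {phi : L →+ (P → ℤ)} {E : AO ℤ L} {S : L} {i0 : P} {h : co phi i0 S = 1} {eta : (RO ℤ)ˣ}
    {c : RO ℤ} {n : ℕ} {G : Fin n → AO ℤ (Ker (co phi i0))} (fd : FD phi E S i0 eta h c n G)
    {b : Ker (co phi i0)} (hb : b ≠ 0) {e : (RO ℤ)ˣ}
    (hd : (1 - AddMonoidAlgebra.single b (e : RO ℤ)) ∣ cl (co phi i0) S h eta E) :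
    ∃ j, ¬ 1 < M ((G j).coeff 0) ∧ G j ∣ 1 - AddMonoidAlgebra.single b (e : RO ℤ) := by
  classical
  have : UniqueFactorizationMonoid (AO ℤ (Ker (co phi i0))) :=
    H25.Bch.ufdL ℤ (Ker (co phi i0))
  obtain ⟨lam, hlam, hlb⟩ := Uf.exists_lam hG0 (h := h) fd.cc b hb
  set x : AO ℤ (Ker (co phi i0)) := 1 - AddMonoidAlgebra.single b (e : RO ℤ) with hx
  have hx1 : x.coeff 0 = 1 := by
    rw [hx, Uf.bin_coeff, if_pos rfl, if_neg (Ne.symm hb), sub_zero]
  have hx0 : x ≠ 0 := by
    intro h0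
    rw [h0] at hx1
    exact zero_ne_one hx1
  have hxp : Prim x := by
    intro a ha
    have h1 := (H96.cst_dvd_iff a x).mp ha 0
    rw [hx1] at h1
    exact isUnit_of_dvd_one h1
  have hxu : ¬ IsUnit x := by
    intro hu
    obtain ⟨a, d, -, hxa⟩ := (hU ℤ _ x).1 hu
    have h2 : x.coeff b = -(e : RO ℤ) := by
      rw [hx, Uf.bin_coeff, if_neg hb, if_pos rfl, zero_sub]
    have h1 := hx1
    rw [hxa, AddMonoidAlgebra.coeff_single, Finsupp.single_apply] at h1 h2
    by_cases h3 : a = 0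
    · rw [if_neg (by rw [h3]; exact Ne.symm hb)] at h2
      exact neg_ne_zero.2 e.ne_zero h2.symm
    · rw [if_neg h3] at h1
      exact zero_ne_one h1
  rw [fd.eq] at hd
  have hd2 := hC1 ℤ _ _ _ _ hxp fd.c0 hd
  obtain ⟨y, hyi, hyx⟩ := WfDvdMonoid.exists_irreducible_factor hxu hx0
  have hyp : Prime y := UniqueFactorizationMonoid.irreducible_iff_prime.1 hyi
  obtain ⟨j, -, hj⟩ := (hyp.dvd_finsetProd_iff _).1 (hyx.trans hd2)
  have haj : Associated y (G j) := hyi.associated_of_dvd (fd.irr j) hj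
  obtain ⟨H, hH⟩ : G j ∣ x := (haj.symm.dvd).trans hyx
  have hfull := fd.full j lam hlam
  refine ⟨j, ?_, ⟨H, hH⟩⟩
  intro hbig
  have hnu : ¬ IsUnit ((G j).coeff 0) := by
    intro hu
    rw [(hMm ℤ).2.2 _ hu] at hbig
    exact lt_irrefl _ hbig
  rcases lt_or_gt_of_ne hlb with hneg | hpos
  · apply hnu
    have h1 : 0 < lam (-b) := by
      rw [map_neg]
      omega
    refine Uf.low_unit hMin hfull.2.1 hfull.1 h1 (H := -(AddMonoidAlgebra.single (-b)
      ((e⁻¹ : (RO ℤ)ˣ) : RO ℤ)) * H) (e := ((e⁻¹ : (RO ℤ)ˣ) : RO ℤ)) ?_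
    have h2 : -(AddMonoidAlgebra.single (-b) ((e⁻¹ : (RO ℤ)ˣ) : RO ℤ)) * H * G j =
        -(AddMonoidAlgebra.single (-b) ((e⁻¹ : (RO ℤ)ˣ) : RO ℤ)) * x := by
      rw [hH]
      ring
    have h3 : (AddMonoidAlgebra.single (-b) ((e⁻¹ : (RO ℤ)ˣ) : RO ℤ) : AO ℤ (Ker (co phi i0))) *
        AddMonoidAlgebra.single b (e : RO ℤ) = 1 := by
      rw [AddMonoidAlgebra.single_mul_single, neg_add_cancel, Units.inv_mul,
        ← AddMonoidAlgebra.one_def]
    rw [h2, hx]
    linear_combination h3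
  · apply hnu
    refine Uf.low_unit hMin hfull.2.1 hfull.1 hpos (H := H) (e := (e : RO ℤ)) ?_
    rw [← hx, hH]
    ring

/-- The functionals which vanish at the exponent of a binomial vanish on the exponents of its
divisors. -/
theorem dvd_width (hMin : MinS) {O : Type} [CommRing O] [IsDomain O] [IsPrincipalIdealRing O]
    [Coef O] {F : AO O L} {b : L} (hb : b ≠ 0) {e : (RO O)ˣ}
    (hd : F ∣ 1 - AddMonoidAlgebra.single b (e : RO O)) (f : L →+ ℤ) (hf : f b = 0) :
    ∀ x ∈ supp F, ∀ y ∈ supp F, f x = f y := by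
  classical
  obtain ⟨H, hH⟩ := hd
  have hco : ∀ a : L, (1 - AddMonoidAlgebra.single b (e : RO O) : AO O L).coeff a ≠ 0 →
      a = 0 ∨ a = b := by
    intro a ha
    by_contra hcon
    push Not at hcon
    apply ha
    rw [AddMonoidAlgebra.coeff_sub, Finsupp.sub_apply, AddMonoidAlgebra.one_def,
      AddMonoidAlgebra.coeff_single, AddMonoidAlgebra.coeff_single, Finsupp.single_apply,
      Finsupp.single_apply, if_neg (Ne.symm hcon.1), if_neg (Ne.symm hcon.2), sub_zero]
  have h0 : F * H ≠ 0 := by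
    rw [← hH]
    intro h1
    have h2 : (1 - AddMonoidAlgebra.single b (e : RO O) : AO O L).coeff 0 = 1 := by
      rw [AddMonoidAlgebra.coeff_sub, Finsupp.sub_apply, AddMonoidAlgebra.one_def,
        AddMonoidAlgebra.coeff_single, AddMonoidAlgebra.coeff_single, Finsupp.single_eq_same,
        Finsupp.single_apply, if_neg hb, sub_zero]
    rw [h1] at h2
    exact zero_ne_one h2
  refine width_zero hMin f h0 ?_
  intro a ha
  rw [← hH] at ha
  rcases hco a ha with h1 | h1
  · rw [h1, map_zero]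
  · rw [h1, hf]

end

end Pool.Agent.B5.BeZ
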