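import Pool.Agent.Lib.MP_b5021c_nt.KO.H07.BeZ

/-!
# MP_b5021c_nt, PURE BETA, LEMMA Z (row BE_Z): the two cases and the rank
-/

set_option linter.unusedSectionVars false

namespace Pool.Agent.B5.BeZ

open scoped LaurentPolynomial
open Polynomial
open Pool.Agent.B5

section

variable {P : Type} [Fintype P] [DecidableEq P] {L : Type} [AddCommGroup L] [Module.Free ℤ L]
  [Module.Finite ℤ L] {phi : L →+ (P → ℤ)} {D : AO ℤ L} {q f : ℤ[X]} {a : ℝ} {j s : ℕ}
  {S : Fin 3 → L} {es : Fin 3 → (RO ℤ)ˣ} {T : Fin s → L} {lam : Fin s → (RO ℤ)ˣ}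

theorem lam_le {i : Fin s} {chi : L →+ ℤ} (m : ℤ)
    (hchi : ∀ x ∈ US (lam i) (T i) D, chi x = 0) : LamS (lam i) (T i) D ≤ chiM chi m := by
  intro x hx
  rw [mem_chiM, hchi x ⟨1, one_ne_zero, by rw [one_smul]; exact hx⟩]
  exact dvd_zero m

theorem f3 : ∀ k : Fin 3, k + 1 ≠ k ∧ k + 2 ≠ k ∧ k + 1 ≠ k + 2 := by decide

theorem pair_ne {k m : Fin 3} (h : m ≠ k) : ({k, m} : Finset (Fin 3)) ≠ ∅ ∧
    ({k, m} : Finset (Fin 3)) ≠ Finset.univ := by
  refine ⟨Finset.insert_ne_empty _ _, fun h1 => ?_⟩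
  have h2 := congrArg Finset.card h1
  rw [Finset.card_pair (Ne.symm h), Finset.card_univ, Fintype.card_fin] at h2
  omega

theorem sing_ne (k : Fin 3) : ({k} : Finset (Fin 3)) ≠ ∅ ∧
    ({k} : Finset (Fin 3)) ≠ Finset.univ := by
  refine ⟨Finset.singleton_ne_empty k, fun h1 => ?_⟩
  have h2 := congrArg Finset.card h1
  rw [Finset.card_singleton, Finset.card_univ, Fintype.card_fin] at h2
  omega

/-- Case 1: no factor with two exponents. -/
theorem ns_one (hWWf : WWfS) (hVco : VcoS) (hFD : FDS) (hSm : SmallS) (hI : Inj1S) (hG0 : G0S)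
    (hU : UnitAS) (hMin : MinS) (hC1 : C1bS) (hMm : MmulS) (hSf : BeSfS)
    (be : Be phi D q f a j s S es T lam) (i : Fin s) {chi : L →+ ℤ}
    (hchi : ∀ x ∈ US (lam i) (T i) D, chi x = 0) (hS : ∀ k, chi (S k) = chi (S 0))
    (h0 : chi (S 0) ≠ 0) :
    ∀ (g H : AO ℤ (chiM chi (2 * chi (S 0)))) (b : chiM chi (2 * chi (S 0))),
      res (chiM chi (2 * chi (S 0))) D = g * H → H.coeff 0 ≠ 0 → b ≠ 0 → supp g = {0, b} →
      IsUnit (g.coeff 0) → IsUnit (g.coeff b) → False := by
  classical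
  intro g H b hgH hH0 hb hs hu0 hub
  have hD := be.ko.min.fp.dd
  have hLK := lam_le (2 * chi (S 0)) hchi
  obtain ⟨hbin, hD0, hle, hfl⟩ := fac hWWf hD _ g H b hgH hH0 hb hs
  have e2 := hfl 0 (Submodule.zero_mem _) (fun p _ => by rw [map_zero, Pi.zero_apply])
  rw [zero_add] at e2
  have hDb : D.coeff (b : L) ≠ 0 := by
    intro h1
    rw [h1, mul_zero] at e2
    exact mul_ne_zero hub.ne_zero hD.st.1 e2.symm
  obtain ⟨A, B, hAB⟩ := be.sup _ hDb
  have hTK : T i ∈ chiM chi (2 * chi (S 0)) :=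
    hLK (Submodule.subset_span (Set.mem_insert _ _))
  have hpK : ∀ k m : Fin 3, m ≠ k → sST S T {k, m} ∅ ∈ chiM chi (2 * chi (S 0)) := by
    intro k m hm
    rw [mem_chiM, fn_sST, Finset.sum_empty, add_zero, Finset.sum_pair (Ne.symm hm), hS k, hS m]
    exact ⟨1, by ring⟩
  rcases A.eq_empty_or_nonempty with hA | ⟨k, hk⟩
  · rw [hA] at hAB
    refine ns_T hWWf hVco hFD hSm hI hG0 hU hMin hC1 hMm hSf be i _ hLK g H b hgH hH0 hb hs hu0
      hub hAB ?_ ?_
    · intro hi
      exact (only_i be hAB (hle (T i) hTK (be.rT i).1) hi).2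
    · intro k _
      exact ⟨{0, 1}, ∅, (pair_ne (by decide)).1, (pair_ne (by decide)).2,
        Finset.notMem_empty k, hpK 0 1 (by decide)⟩
  · have hp : ∀ m : Fin 3, m ≠ k → A ⊆ {k, m} ∧ B ⊆ ∅ := by
      intro m hm
      exact sub_of be hAB rfl (hle _ (hpK k m hm) (co_ne be ∅ (pair_ne hm).1 (pair_ne hm).2))
        (Or.inl ⟨k, hk, Finset.mem_insert_self k {m}⟩)
    obtain ⟨n1, n2, n3⟩ := f3 k
    have hAk : A = {k} := by
      refine Finset.Subset.antisymm (fun x hx => ?_) (Finset.singleton_subset_iff.mpr hk)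
      have h3 := (hp _ n1).1 hx
      have h4 := (hp _ n2).1 hx
      rw [Finset.mem_insert, Finset.mem_singleton] at h3 h4
      rw [Finset.mem_singleton]
      rcases h3 with h3 | h3
      · exact h3
      · rcases h4 with h4 | h4
        · exact h4
        · exact absurd (h3.symm.trans h4) n3
    have hB0 : B = ∅ := Finset.subset_empty.mp (hp _ n1).2
    have hbK : 2 * chi (S 0) ∣ chi (b : L) := b.2
    rw [hAB, hAk, hB0, fn_sST, Finset.sum_singleton, Finset.sum_empty, add_zero, hS k] at hbK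
    obtain ⟨t, ht⟩ := hbK
    have h5 : chi (S 0) * (1 - 2 * t) = 0 := by linear_combination ht
    rcases mul_eq_zero.mp h5 with h6 | h6
    · exact h0 h6
    · omega

/-- Case 2: no factor with two exponents. -/
theorem ns_two (hWWf : WWfS) (hVco : VcoS) (hFD : FDS) (hSm : SmallS) (hI : Inj1S) (hG0 : G0S)
    (hU : UnitAS) (hMin : MinS) (hC1 : C1bS) (hMm : MmulS) (hSf : BeSfS)
    (be : Be phi D q f a j s S es T lam) (i : Fin s) {chi : L →+ ℤ}
    (hchi : ∀ x ∈ US (lam i) (T i) D, chi x = 0) {N : ℤ} (h0 : N ≠ 0) {l : Fin s}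
    (hS0 : chi (S 0) = N) (hS1 : chi (S 1) = N) (hS2 : chi (S 2) = -2 * N)
    (hTl : chi (T l) = -N) :
    ∀ (g H : AO ℤ (chiM chi (3 * N))) (b : chiM chi (3 * N)),
      res (chiM chi (3 * N)) D = g * H → H.coeff 0 ≠ 0 → b ≠ 0 → supp g = {0, b} →
      IsUnit (g.coeff 0) → IsUnit (g.coeff b) → False := by
  classical
  intro g H b hgH hH0 hb hs hu0 hub
  have hD := be.ko.min.fp.dd
  have hLK := lam_le (3 * N) hchi
  obtain ⟨hbin, hD0, hle, hfl⟩ := fac hWWf hD _ g H b hgH hH0 hb hs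
  have e2 := hfl 0 (Submodule.zero_mem _) (fun p _ => by rw [map_zero, Pi.zero_apply])
  rw [zero_add] at e2
  have hDb : D.coeff (b : L) ≠ 0 := by
    intro h1
    rw [h1, mul_zero] at e2
    exact mul_ne_zero hub.ne_zero hD.st.1 e2.symm
  obtain ⟨A, B, hAB⟩ := be.sup _ hDb
  have hTK : T i ∈ chiM chi (3 * N) := hLK (Submodule.subset_span (Set.mem_insert _ _))
  have hpK : ∀ k : Fin 3, sST S T {k} {l} ∈ chiM chi (3 * N) := by
    intro k
    rw [mem_chiM, fn_sST, Finset.sum_singleton, Finset.sum_singleton, hTl]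
    fin_cases k
    · change 3 * N ∣ chi (S 0) + -N
      rw [hS0]
      exact ⟨0, by ring⟩
    · change 3 * N ∣ chi (S 1) + -N
      rw [hS1]
      exact ⟨0, by ring⟩
    · change 3 * N ∣ chi (S 2) + -N
      rw [hS2]
      exact ⟨-1, by ring⟩
  have hdv : ∀ c : ℤ, 3 * N ∣ c * N → 3 ∣ c := by
    rintro c ⟨t, ht⟩
    have h5 : N * (c - 3 * t) = 0 := by linear_combination ht
    rcases mul_eq_zero.mp h5 with h6 | h6
    · exact absurd h6 h0
    · exact ⟨t, by omega⟩
  have hSK : ∀ k : Fin 3, ¬ 3 * N ∣ chi (S k) := by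
    intro k hk
    fin_cases k
    · change 3 * N ∣ chi (S 0) at hk
      rw [hS0, ← one_mul N, ← mul_assoc] at hk
      have := hdv 1 (by simpa using hk)
      omega
    · change 3 * N ∣ chi (S 1) at hk
      rw [hS1, ← one_mul N, ← mul_assoc] at hk
      have := hdv 1 (by simpa using hk)
      omega
    · change 3 * N ∣ chi (S 2) at hk
      rw [hS2] at hk
      have := hdv (-2) hk
      omega
  rcases A.eq_empty_or_nonempty with hA | ⟨k, hk⟩
  · rw [hA] at hAB
    refine ns_T hWWf hVco hFD hSm hI hG0 hU hMin hC1 hMm hSf be i _ hLK g H b hgH hH0 hb hs hu0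
      hub hAB ?_ ?_
    · intro hi
      exact (only_i be hAB (hle (T i) hTK (be.rT i).1) hi).2
    · intro k hBk
      refine ⟨{0}, {l}, (sing_ne 0).1, (sing_ne 0).2, ?_, hpK 0⟩
      intro hkl
      rw [Finset.mem_singleton] at hkl
      have hbK : 3 * N ∣ chi (b : L) := b.2
      rw [hAB, hBk, hkl, fn_sST, Finset.sum_singleton, Finset.sum_empty, zero_add, hTl] at hbK
      have := hdv (-1) (by simpa using hbK)
      omega
  · obtain ⟨h3, h4⟩ := sub_of be hAB rfl
      (hle _ (hpK k) (co_ne be {l} (sing_ne k).1 (sing_ne k).2))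
      (Or.inl ⟨k, hk, Finset.mem_singleton_self k⟩)
    have hAk : A = {k} := Finset.Subset.antisymm h3 (Finset.singleton_subset_iff.mpr hk)
    have n1 : k + 1 ≠ k := (f3 k).1
    have hB0 : B = ∅ := by
      rcases B.eq_empty_or_nonempty with hB | ⟨m, hm⟩
      · exact hB
      · exfalso
        have hml := h4 hm
        obtain ⟨h5, -⟩ := sub_of be hAB rfl
          (hle _ (hpK (k + 1)) (co_ne be {l} (sing_ne _).1 (sing_ne _).2))
          (Or.inr ⟨m, hm, hml⟩)
        have h6 := h5 hk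
        rw [Finset.mem_singleton] at h6
        exact n1 h6.symm
    have hbK : 3 * N ∣ chi (b : L) := b.2
    rw [hAB, hAk, hB0, fn_sST, Finset.sum_singleton, Finset.sum_empty, add_zero] at hbK
    exact hSK k hbK

/-- The exponents in the lattice are not of full rank, so there is one more functional. -/
theorem more (hRes : ResKS) (hFact : FactS) (hC0 : Coeff0S) (hE1 : E1S) (hMV : MVS)
    (hM1 : M1S) (hC4 : C4S) (hE2 : E2S) (hThin : ThinS) (hWWf : WWfS) (hVco : VcoS)
    (be : Be phi D q f a j s S es T lam) (i : Fin s) {chi : L →+ ℤ} {m : ℤ} (hm : m ≠ 0)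
    (hchi : ∀ x ∈ US (lam i) (T i) D, chi x = 0)
    (hns : ∀ (g H : AO ℤ (chiM chi m)) (b : chiM chi m), res (chiM chi m) D = g * H →
      H.coeff 0 ≠ 0 → b ≠ 0 → supp g = {0, b} → IsUnit (g.coeff 0) → IsUnit (g.coeff b) → False)
    (hS0 : S 0 ∉ chiM chi m)
    (hSn : ∀ nu : L →+ ℤ, (∀ x, D.coeff x ≠ 0 → x ∈ chiM chi m → nu x = 0) →
      (∀ x ∈ US (lam i) (T i) D, nu x = 0) → ∀ k, nu (S k) = 0) :
    ∃ (nu : L →+ ℤ) (r : Fin s), (∀ x ∈ US (lam i) (T i) D, nu x = 0) ∧ (∀ k, nu (S k) = 0) ∧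
      nu (T r) ≠ 0 ∧ chi (T r) ≠ 0 ∧ (∀ l, chi (T l) = 0 → nu (T l) = 0) ∧
      ∀ x, D.coeff x ≠ 0 → x ∈ chiM chi m → nu x = 0 := by
  by_contra hcon
  push Not at hcon
  have h2 : 2 ≤ Module.finrank ℤ L := by
    have := be.ko.rk
    have := be.ko.j2
    omega
  refine min_false hRes hFact hC0 hE1 hMV hM1 hC4 hE2 hThin hWWf be.ko.min h2 (be.rT i)
    (v0_ne be i) (chiM chi m) (lam_le m hchi) ?_ hns (be.rS 0).1 hS0 ?_
  · intro x
    refine ⟨m, hm, ?_⟩
    rw [mem_chiM, map_zsmul, smul_eq_mul]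
    exact dvd_mul_right m _
  · intro nu hnu
    have hkill := kill_of hVco be i (lam_le m hchi) hnu
    have hSz := hSn nu hnu hkill
    have hz : ∀ l, chi (T l) = 0 → nu (T l) = 0 := fun l hl =>
      hnu _ (be.rT l).1 (by rw [mem_chiM, hl]; exact dvd_zero m)
    refine fn_ext be.bas (fun k => ?_) (fun l => ?_)
    · rw [hSz]
      rfl
    · by_contra hne
      have hne' : nu (T l) ≠ 0 := hne
      obtain ⟨x, hx, hxK, hxn⟩ := hcon nu l hkill hSz hne' (fun h => hne' (hz l h)) hz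
      exact hxn (hnu x hx hxK)

/-- The combination with one zero more. -/
theorem comb (chi nu : L →+ ℤ) (c d : ℤ) : ∃ ch : L →+ ℤ, ∀ x, ch x = c * chi x - d * nu x :=
  ⟨(AddMonoidHom.mulLeft c).comp chi - (AddMonoidHom.mulLeft d).comp nu, fun _ => rfl⟩

open Classical in
theorem comb_card {chi nu ch : L →+ ℤ} {r : Fin s} (hc : chi (T r) ≠ 0)
    (hz : ∀ l, chi (T l) = 0 → nu (T l) = 0)
    (hch : ∀ x, ch x = nu (T r) * chi x - chi (T r) * nu x) :
    (Finset.univ.filter fun l => ch (T l) ≠ 0).card <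
      (Finset.univ.filter fun l => chi (T l) ≠ 0).card := by
  apply Finset.card_lt_card
  refine ⟨fun l hl => ?_, fun hsub => ?_⟩
  · rw [Finset.mem_filter] at hl ⊢
    refine ⟨hl.1, fun h => hl.2 ?_⟩
    rw [hch, h, hz l h]
    ring
  · have h1 : r ∈ Finset.univ.filter fun l => chi (T l) ≠ 0 :=
      Finset.mem_filter.mpr ⟨Finset.mem_univ r, hc⟩
    have h2 := (Finset.mem_filter.mp (hsub h1)).2
    apply h2
    rw [hch]
    ring

/-- Case 1. -/
theorem case_one (hRes : ResKS) (hFact : FactS) (hC0 : Coeff0S) (hE1 : E1S) (hMV : MVS)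
    (hM1 : M1S) (hC4 : C4S) (hE2 : E2S) (hThin : ThinS) (hWWf : WWfS) (hVco : VcoS) (hFD : FDS)
    (hSm : SmallS) (hI : Inj1S) (hG0 : G0S) (hU : UnitAS) (hMin : MinS) (hC1 : C1bS)
    (hMm : MmulS) (hSf : BeSfS) (be : Be phi D q f a j s S es T lam) (i : Fin s) :
    ∀ (n : ℕ) (chi : L →+ ℤ), (∀ x ∈ US (lam i) (T i) D, chi x = 0) →
      (∀ k, chi (S k) = chi (S 0)) → chi (S 0) ≠ 0 →
      (Finset.univ.filter fun l => chi (T l) ≠ 0).card = n → False := by
  classical
  intro n
  induction n using Nat.strong_induction_on with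
  | _ n ih =>
    intro chi hchi hS h0 hn
    have hm : 2 * chi (S 0) ≠ 0 := mul_ne_zero two_ne_zero h0
    obtain ⟨nu, r, n1, n2, n3, n4, n5, -⟩ := more hRes hFact hC0 hE1 hMV hM1 hC4 hE2 hThin hWWf
      hVco be i hm hchi (ns_one hWWf hVco hFD hSm hI hG0 hU hMin hC1 hMm hSf be i hchi hS h0)
      (by
        rw [mem_chiM]
        rintro ⟨t, ht⟩
        have h5 : chi (S 0) * (1 - 2 * t) = 0 := by linear_combination ht
        rcases mul_eq_zero.mp h5 with h6 | h6
        · exact h0 h6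
        · omega)
      (by
        intro nu hnu _ k
        have hp : ∀ k m : Fin 3, m ≠ k → nu (S k) + nu (S m) = 0 := by
          intro k m hmk
          have h3 := hnu (sST S T {k, m} ∅) (co_ne be ∅ (pair_ne hmk).1 (pair_ne hmk).2) (by
            rw [mem_chiM, fn_sST, Finset.sum_empty, add_zero, Finset.sum_pair (Ne.symm hmk), hS k,
              hS m]
            exact ⟨1, by ring⟩)
          rwa [fn_sST, Finset.sum_empty, add_zero, Finset.sum_pair (Ne.symm hmk)] at h3
        obtain ⟨m1, m2, m3⟩ := f3 k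
        have e1 := hp k (k + 1) m1
        have e2 := hp k (k + 2) m2
        have e3 := hp (k + 1) (k + 2) (Ne.symm m3)
        omega)
    obtain ⟨ch, hch⟩ := comb chi nu (nu (T r)) (chi (T r))
    refine ih _ ?_ ch ?_ ?_ ?_ rfl
    · rw [← hn]
      exact comb_card n4 n5 hch
    · intro x hx
      rw [hch, hchi x hx, n1 x hx]
      ring
    · intro k
      rw [hch, hch, n2, n2, hS k]
    · rw [hch, n2, mul_zero, sub_zero]
      exact mul_ne_zero n3 h0

/-- Case 2. -/
theorem case_two (hRes : ResKS) (hFact : FactS) (hC0 : Coeff0S) (hE1 : E1S) (hMV : MVS)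
    (hM1 : M1S) (hC4 : C4S) (hE2 : E2S) (hThin : ThinS) (hWWf : WWfS) (hVco : VcoS) (hFD : FDS)
    (hSm : SmallS) (hI : Inj1S) (hG0 : G0S) (hU : UnitAS) (hMin : MinS) (hC1 : C1bS)
    (hMm : MmulS) (hSf : BeSfS) (be : Be phi D q f a j s S es T lam) (i l : Fin s)
    (hX : ∀ nu : L →+ ℤ, (∀ x ∈ US (lam i) (T i) D, nu x = 0) →
      nu (S 0) + nu (S 1) + nu (S 2) = 0) :
    ∀ (n : ℕ) (chi : L →+ ℤ) (N : ℤ), (∀ x ∈ US (lam i) (T i) D, chi x = 0) → N ≠ 0 →
      chi (S 0) = N → chi (S 1) = N → chi (S 2) = -2 * N → chi (T l) = -N →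
      (Finset.univ.filter fun l => chi (T l) ≠ 0).card = n → False := by
  classical
  intro n
  induction n using Nat.strong_induction_on with
  | _ n ih =>
    intro chi N hchi h0 hS0 hS1 hS2 hTl hn
    have hm : 3 * N ≠ 0 := mul_ne_zero three_ne_zero h0
    have hpK : ∀ k : Fin 3, sST S T {k} {l} ∈ chiM chi (3 * N) := by
      intro k
      rw [mem_chiM, fn_sST, Finset.sum_singleton, Finset.sum_singleton, hTl]
      fin_cases k
      · change 3 * N ∣ chi (S 0) + -N
        rw [hS0]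
        exact ⟨0, by ring⟩
      · change 3 * N ∣ chi (S 1) + -N
        rw [hS1]
        exact ⟨0, by ring⟩
      · change 3 * N ∣ chi (S 2) + -N
        rw [hS2]
        exact ⟨-1, by ring⟩
    have hval : ∀ nu : L →+ ℤ, (∀ x, D.coeff x ≠ 0 → x ∈ chiM chi (3 * N) → nu x = 0) →
        (∀ x ∈ US (lam i) (T i) D, nu x = 0) → (∀ k, nu (S k) = 0) ∧ nu (T l) = 0 := by
      intro nu hnu hk
      have hp : ∀ k : Fin 3, nu (S k) + nu (T l) = 0 := by
        intro k
        have h3 := hnu (sST S T {k} {l}) (co_ne be {l} (sing_ne k).1 (sing_ne k).2) (hpK k)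
        rwa [fn_sST, Finset.sum_singleton, Finset.sum_singleton] at h3
      have e0 := hp 0
      have e1 := hp 1
      have e2 := hp 2
      have e3 := hX nu hk
      refine ⟨fun k => ?_, by omega⟩
      have e4 := hp k
      omega
    obtain ⟨nu, r, n1, n2, n3, n4, n5, n6⟩ := more hRes hFact hC0 hE1 hMV hM1 hC4 hE2 hThin hWWf
      hVco be i hm hchi (ns_two hWWf hVco hFD hSm hI hG0 hU hMin hC1 hMm hSf be i hchi h0 hS0 hS1
        hS2 hTl)
      (by
        rw [mem_chiM, hS0]
        rintro ⟨t, ht⟩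
        have h5 : N * (1 - 3 * t) = 0 := by linear_combination ht
        rcases mul_eq_zero.mp h5 with h6 | h6
        · exact h0 h6
        · omega)
      (fun nu hnu hk => (hval nu hnu hk).1)
    have n7 := (hval nu n6 n1).2
    obtain ⟨ch, hch⟩ := comb chi nu (nu (T r)) (chi (T r))
    refine ih _ ?_ ch (nu (T r) * N) ?_ (mul_ne_zero n3 h0) ?_ ?_ ?_ ?_ rfl
    · rw [← hn]
      exact comb_card n4 n5 hch
    · intro x hx
      rw [hch, hchi x hx, n1 x hx]
      ring
    · rw [hch, n2, hS0]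
      ring
    · rw [hch, n2, hS1]
      ring
    · rw [hch, n2, hS2]
      ring
    · rw [hch, n7, hTl]
      ring

end

/-- (BE_Z) LEMMA Z. -/
theorem beZ (hRes : ResKS) (hFact : FactS) (hC0 : Coeff0S) (hE1 : E1S) (hMV : MVS) (hM1 : M1S)
    (hC4 : C4S) (hE2 : E2S) (hThin : ThinS) (hWWf : WWfS) (hVco : VcoS) (hFD : FDS)
    (hSm : SmallS) (hI : Inj1S) (hG0 : G0S) (hU : UnitAS) (hMin : MinS) (hC1 : C1bS)
    (hMm : MmulS) (hSf : BeSfS) : BeZS := by
  classical
  intro P L _ _ _ _ _ phi D q f a j s S es T lam be i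
  let g : (ℤ × (Fin s → ℤ)) →ₗ[ℤ] L :=
    { toFun := fun c => c.1 • (S 0 + S 1 + S 2) + ∑ l, c.2 l • T l
      map_add' := by
        intro x y
        simp only [Prod.fst_add, Prod.snd_add, Pi.add_apply, add_smul, Finset.sum_add_distrib]
        abel
      map_smul' := by
        intro c x
        simp only [Prod.smul_fst, Prod.smul_snd, Pi.smul_apply, smul_eq_mul, mul_smul,
          RingHom.id_apply, smul_add, Finset.smul_sum] }
  have hg : ∀ c, g c = ∑ i, (fun _ : Fin 3 => c.1) i • S i + ∑ l, c.2 l • T l := by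
    intro c
    change c.1 • (S 0 + S 1 + S 2) + ∑ l, c.2 l • T l = _
    rw [Fin.sum_univ_three, smul_add, smul_add]
  have hinj : Function.Injective g := by
    intro x y hxy
    rw [hg, hg] at hxy
    have h1 := be.bas.1 (a₁ := ((fun _ => x.1, x.2) : (Fin 3 → ℤ) × (Fin s → ℤ)))
      (a₂ := ((fun _ => y.1, y.2) : (Fin 3 → ℤ) × (Fin s → ℤ))) hxy
    have h2 := congrArg Prod.fst h1
    have h3 := congrArg Prod.snd h1
    exact Prod.ext (congrFun h2 0) h3
  have hrange : LinearMap.range g = US (lam i) (T i) D := by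
    apply le_antisymm
    · by_contra hcon
      obtain ⟨x, hxr, hx⟩ := Set.not_subset.mp hcon
      obtain ⟨nu, hnu, hnx⟩ := H56.exists_sep L (US (lam i) (T i) D) (H63.satur_sat _) x hx
      obtain ⟨c, rfl⟩ := hxr
      by_cases hX : ∀ nu : L →+ ℤ, (∀ x ∈ US (lam i) (T i) D, nu x = 0) →
          nu (S 0) + nu (S 1) + nu (S 2) = 0
      · -- case 2
        obtain ⟨l, hl⟩ : ∃ l, nu (T l) ≠ 0 := by
          by_contra hc
          push Not at hc
          apply hnx
          change nu (c.1 • (S 0 + S 1 + S 2) + ∑ l, c.2 l • T l) = 0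
          rw [map_add, map_zsmul, map_add, map_add, hX nu hnu, smul_zero, zero_add, map_sum]
          exact Finset.sum_eq_zero fun l _ => by rw [map_zsmul, hc l, smul_zero]
        have hXn := hX nu hnu
        obtain ⟨ka, k1, k2⟩ := exists_fn be.bas
          (fun k => if k = 2 then 2 * nu (T l) - nu (S k) else -nu (T l) - nu (S k)) 0
        have v0 : ka (S 0) = -nu (T l) - nu (S 0) := by rw [k1, if_neg (by decide)]
        have v1 : ka (S 1) = -nu (T l) - nu (S 1) := by rw [k1, if_neg (by decide)]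
        have v2 : ka (S 2) = 2 * nu (T l) - nu (S 2) := by rw [k1, if_pos rfl]
        have v3 : ka (T l) = 0 := k2 l
        refine case_two hRes hFact hC0 hE1 hMV hM1 hC4 hE2 hThin hWWf hVco hFD hSm hI hG0 hU hMin
          hC1 hMm hSf be i l hX _ (nu + ka) (-nu (T l)) ?_ (neg_ne_zero.mpr hl) ?_ ?_ ?_ ?_ rfl
        · intro x hx
          rw [AddMonoidHom.add_apply, hnu x hx, kill_US hVco be i k2 (by
            rw [v0, v1, v2]
            linear_combination -hXn) x hx, add_zero]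
        · rw [AddMonoidHom.add_apply, v0]
          ring
        · rw [AddMonoidHom.add_apply, v1]
          ring
        · rw [AddMonoidHom.add_apply, v2]
          ring
        · rw [AddMonoidHom.add_apply, v3]
          ring
      · -- case 1
        push Not at hX
        obtain ⟨ne, hne, hnX⟩ := hX
        set w := ne (S 0) + ne (S 1) + ne (S 2) with hw
        obtain ⟨ka, k1, k2⟩ := exists_fn be.bas (fun k => w - 3 * ne (S k)) 0
        have hv : ∀ k, ((3 : ℤ) * ne (S k)) + ka (S k) = w := by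
          intro k
          rw [k1]
          ring
        obtain ⟨ch, hch⟩ := comb ne ka 3 (-1)
        have hck : ∀ k, ch (S k) = w := by
          intro k
          rw [hch, ← hv k]
          ring
        refine case_one hRes hFact hC0 hE1 hMV hM1 hC4 hE2 hThin hWWf hVco hFD hSm hI hG0 hU hMin
          hC1 hMm hSf be i _ ch ?_ ?_ ?_ rfl
        · intro x hx
          rw [hch, hne x hx, kill_US hVco be i k2 (by
            rw [k1, k1, k1, hw]
            ring) x hx]
          ring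
        · intro k
          rw [hck, hck]
        · rw [hck]
          exact hnX
    · intro x hx
      obtain ⟨c, hc⟩ := be.bas.2 x
      have hF : ∀ sv : Fin 3 → ℤ, sv 0 + sv 1 + sv 2 = 0 →
          c.1 0 * sv 0 + c.1 1 * sv 1 + c.1 2 * sv 2 = 0 := by
        intro sv hsv
        obtain ⟨F, f1, f2⟩ := exists_fn be.bas sv 0
        have h3 := kill_US hVco be i (nu := F) f2 (by rw [f1, f1, f1]; exact hsv) x hx
        rw [← hc] at h3
        change F (∑ i, c.1 i • S i + ∑ i, c.2 i • T i) = 0 at h3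
        rw [map_add, map_sum, map_sum, Fin.sum_univ_three, map_zsmul, map_zsmul, map_zsmul, f1, f1,
          f1, Finset.sum_eq_zero (fun l _ => by rw [map_zsmul, f2, Pi.zero_apply, smul_zero]),
          add_zero, smul_eq_mul, smul_eq_mul, smul_eq_mul] at h3
        exact h3
      have e1 := hF ![1, -1, 0] (by simp)
      have e2 := hF ![0, 1, -1] (by simp)
      simp only [Matrix.cons_val_zero, Matrix.cons_val_one, Matrix.cons_val, mul_one, mul_neg,
        mul_zero, add_zero, zero_add] at e1 e2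
      refine ⟨(c.1 0, c.2), ?_⟩
      rw [hg, ← hc]
      change _ = ∑ i, c.1 i • S i + ∑ i, c.2 i • T i
      congr 1
      rw [Fin.sum_univ_three, Fin.sum_univ_three]
      have h4 : c.1 1 = c.1 0 := by linarith
      have h5 : c.1 2 = c.1 0 := by linarith
      rw [h4, h5]
  have hfr : Module.finrank ℤ (US (lam i) (T i) D) = 1 + s := by
    rw [← hrange, LinearMap.finrank_range_of_inj hinj, Module.finrank_prod, Module.finrank_self,
      Module.finrank_fin_fun]
  have := be.s2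
  omega

end Pool.Agent.B5.BeZ
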