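import Pool.Agent.Lib.MP_b5021c_nt.KO.H07.R7n
import Pool.Agent.Lib.MP_b5021c_nt.KO.H12.R7t
import Pool.Agent.Lib.MP_b5021c_nt.KV.H31.Ext
import Pool.Agent.Lib.MP_b5021c_nt.IfaceS1

/-!
# MP_b5021c_nt, all `θ`, K ODD, (O4), l = 3, ALPHA, row R7 (helper7): a closing of class `V(N)` of
full rank which contains a mutual pair of rays with coefficients of order above the order of the
value has ONE factor (helper12's Lemma T: the pair lies in a factor of class `V(m)`, `m ≥ 3`).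
-/

set_option linter.unusedSectionVars false

namespace Pool.Agent.B5.R7

open scoped LaurentPolynomial
open Polynomial Pool.Agent.B5 Pool.Agent.B5.Clo
open Pool.Agent.B5.KV31 (classV_nat sum_le_prod fac_rank phO_inj)

section

variable {P L : Type} [Fintype P] [DecidableEq P] [AddCommGroup L] [Module.Free ℤ L]
  [Module.Finite ℤ L]

/-- THE MAIN LEMMA. -/
theorem one_fac (hFcm : FcmS) (hE2 : E2S) (hEv : EvRS) (hFD : FDS) (hG0 : G0S) (hC0 : Coeff0S)
    (hE1 : E1S) (hMV : MVS) (hMm : MmulS)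
    (hRk : RkS) (hW : WWfS) (hRF : RayFacS) (hLs : LsmS)
    (hG1 : G1pS) (hEvz : EvzS) (hEv1 : BdV ℤ 1 1) (hFcl : FclS) (hR : ResWDS) (hRS : ResStS)
    (phi : L →+ (P → ℤ)) (D : AO ℤ L) (S : L) (i0 : P)
    (h : co phi i0 S = 1) (eta : (RO ℤ)ˣ) (N : ℕ) (hD : DD phi D)
    (hr : Module.finrank ℤ L = 2 * N) (hN : 2 ≤ N) (hRy : Ray D S) (hI : ImS phi S)
    (hVD : ClassV ((N + 1 : ℕ) : ℝ) (D.coeff 0))
    (hV : ClassV (N : ℝ) (D.coeff 0 + (eta : RO ℤ) * D.coeff S))
    (hrk : Module.finrank ℤ L = rk (supp (cl (co phi i0) S h eta D)) + 1)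
    (hsn : ∀ (c : RO ℤ) (n : ℕ) (G : Fin n → AO ℤ (Ker (co phi i0))),
      FD phi D S i0 eta h c n G → M c = 1 → ¬ (snp phi S i0 G).Nonempty)
    {r0 r1 : Ker (co phi i0)}
    (y0 : Ray (cl (co phi i0) S h eta D) r0) (y1 : Ray (cl (co phi i0) S h eta D) r1)
    (hdis : ∀ p, phO phi S i0 r0 p = 0 ∨ phO phi S i0 r1 p = 0) {e0 e1 : (RO ℤ)ˣ}
    (h1 : (e1 : RO ℤ) * (cl (co phi i0) S h eta D).coeff r1 =
      (e0 : RO ℤ) * (cl (co phi i0) S h eta D).coeff r0)
    (h01 : (e0 : RO ℤ) * (e1 : RO ℤ) * (cl (co phi i0) S h eta D).coeff (r0 + r1) =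
      -((e0 : RO ℤ) * (cl (co phi i0) S h eta D).coeff r0))
    {s t : ℤ} {p g : ℤ[X]}
    (hp : (cl (co phi i0) S h eta D).coeff 0 = LaurentPolynomial.T s * toLaurent p)
    (hp0 : p.coeff 0 ≠ 0)
    (hg : (e0 : RO ℤ) * (cl (co phi i0) S h eta D).coeff r0 =
      LaurentPolynomial.T t * toLaurent g)
    (hg0 : g.coeff 0 ≠ 0) (hst : s < t) :
    ∃ (c : RO ℤ) (H : AO ℤ (Ker (co phi i0))), ClassV 1 c ∧
      cl (co phi i0) S h eta D = cst c * H ∧ DD (phO phi S i0) H ∧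
      ClassV (N : ℝ) (H.coeff 0) := by
  classical
  obtain ⟨mv1, -⟩ := hMV ℤ
  have hV0 := mv1 _ _ hV
  have cc : CC phi D S i0 eta := ⟨hD, by omega, hRy, h, hV0.1⟩
  obtain ⟨c, n, G, fd⟩ := hFD ℤ P L phi D S i0 eta h cc
  obtain ⟨l, m, hm3, hmV, -, -⟩ := KO12.fd_three hFcm hE2 hEv hG0 hC0 hE1 hW hRF hR hRS hI fd hV
    y0 y1 hdis h1 h01 hp hp0 hg hg0 hst
  -- the kernel meets the line of `S` trivially
  have key : ∀ a : Ker (co phi i0), (∀ j, phi S j = 0 → phi (a : L) j = 0) → a = 0 := by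
    intro a ha
    obtain ⟨k, hk⟩ := hI (a : L) ha
    have h1 : co phi i0 (a : L) = 0 := a.2
    rw [hk, map_zsmul, h, smul_eq_mul, mul_one] at h1
    apply Subtype.ext
    rw [hk, h1, zero_smul]
    rfl
  have nopure : ∀ l, ¬ Pure phi S i0 (G l) := by
    intro l hl
    obtain ⟨a, ha, b, hb, hab⟩ := fd.wd l
    apply hab
    have h1 : a = 0 := key a fun j hj => hl a ha j (by
      unfold OO
      exact Finset.mem_filter.mpr ⟨Finset.mem_univ _, hj⟩)
    have h2 : b = 0 := key b fun j hj => hl b hb j (by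
      unfold OO
      exact Finset.mem_filter.mpr ⟨Finset.mem_univ _, hj⟩)
    rw [h1, h2]
  have inj : Function.Injective (phO phi S i0) := phO_inj h hI
  have hbin : ∀ a : Ker (co phi i0), WW (phK phi (co phi i0)) (II phi S i0) (OO phi S) a →
      Bin (phO phi S i0) a := by
    intro a ha j
    change (if phi S j = 0 then phi (a : L) j else 0) = 0 ∨
      (if phi S j = 0 then phi (a : L) j else 0) = 1
    by_cases hj : phi S j = 0
    · rw [if_pos hj]
      exact ha.1 j (by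
        unfold OO
        exact Finset.mem_filter.mpr ⟨Finset.mem_univ _, hj⟩)
    · left
      rw [if_neg hj]
  -- measures
  have hcls := hV
  rw [fd.v00] at hcls
  obtain ⟨Nc, -, hcV, -, -⟩ := (hE1 ℤ).1 _ _ _ hcls
  obtain ⟨c0, hc0, rfl⟩ := classV_nat hcV
  have hgV : ∀ i, ∃ m : ℕ, 1 ≤ m ∧ ClassV (m : ℝ) ((G i).coeff 0) := by
    intro i
    have h3 : c * ∏ i, (G i).coeff 0 =
        (G i).coeff 0 * (c * ∏ k ∈ Finset.univ.erase i, (G k).coeff 0) := by
      rw [← Finset.mul_prod_erase Finset.univ (fun i => (G i).coeff 0) (Finset.mem_univ i)]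
      ring
    rw [h3] at hcls
    obtain ⟨N1, -, h4, -, -⟩ := (hE1 ℤ).1 _ _ _ hcls
    obtain ⟨m, hm, rfl⟩ := classV_nat h4
    exact ⟨m, hm, h4⟩
  choose Ni hNi1 hNiV using hgV
  have hMc : M c = c0 := (mv1 _ _ hcV).2
  have hMi : ∀ i, M ((G i).coeff 0) = Ni i := fun i => (mv1 _ _ (hNiV i)).2
  have hMp : ∀ s : Finset (Fin n), M (∏ i ∈ s, (G i).coeff 0) = ∏ i ∈ s, (Ni i : ℝ) := by
    intro s
    induction s using Finset.induction_on with
    | empty =>
      rw [Finset.prod_empty, Finset.prod_empty]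
      exact (hMm ℤ).2.2 1 isUnit_one
    | insert i s hi ih =>
      rw [Finset.prod_insert hi, Finset.prod_insert hi,
        (hMm ℤ).1 _ _ (fd.st i).1 (Finset.prod_ne_zero_iff.mpr fun k _ => (fd.st k).1), ih, hMi]
  have hprod : N = c0 * ∏ i, Ni i := by
    have h3 := (mv1 _ _ hcls).2
    rw [(hMm ℤ).1 _ _ fd.c0 (Finset.prod_ne_zero_iff.mpr fun k _ => (fd.st k).1), hMc, hMp] at h3
    have h4 : ((c0 * ∏ i, Ni i : ℕ) : ℝ) = N := by
      rw [← h3]
      push_cast
      rfl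
    exact_mod_cast h4.symm
  have hG00 : ∀ i, (G i).coeff 0 ≠ 0 := fun i => (fd.st i).1
  have hG0s := hG0 ℤ P L phi D S i0 eta h cc
  obtain ⟨V, hVdef⟩ : ∃ V : AO ℤ (Ker (co phi i0)), V = cl (co phi i0) S h eta D := ⟨_, rfl⟩
  rw [← hVdef]
  have hNm : Ni l = m := by
    have h3 := (mv1 _ _ hmV).2
    rw [hMi] at h3
    exact_mod_cast h3
  have hNl : 2 ≤ Ni l := by omega
  have hG00 : ∀ i, (G i).coeff 0 ≠ 0 := fun i => (fd.st i).1
  have hbig : ∀ i, i ∈ big G ↔ 2 ≤ Ni i := by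
    intro i
    unfold big
    rw [Finset.mem_filter, hMi]
    constructor
    · rintro ⟨-, h3⟩
      have h4 : 1 < Ni i := by exact_mod_cast h3
      omega
    · intro h3
      refine ⟨Finset.mem_univ i, ?_⟩
      exact_mod_cast (by omega : 1 < Ni i)
  have hlb : l ∈ big G := (hbig l).mpr hNl
  -- numbers
  obtain ⟨P', hP'⟩ : ∃ P' : ℕ, P' = ∏ i ∈ (big G).erase l, Ni i := ⟨_, rfl⟩
  obtain ⟨S', hS'⟩ : ∃ S' : ℕ, S' = ∑ i ∈ (big G).erase l, Ni i := ⟨_, rfl⟩
  have hPb : ∏ i ∈ big G, Ni i = Ni l * P' := by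
    rw [hP', Finset.mul_prod_erase (big G) Ni hlb]
  have hPu : ∏ i, Ni i = ∏ i ∈ big G, Ni i := by
    symm
    apply Finset.prod_subset (Finset.subset_univ _)
    intro i _ hi
    rw [hbig] at hi
    have := hNi1 i
    omega
  have hNn : N = c0 * (Ni l * P') := by rw [hprod, hPu, hPb]
  have hSP : (S' = 0 ∧ P' = 1) ∨ (S' ≤ P' ∧ 2 ≤ P') := by
    rcases ((big G).erase l).eq_empty_or_nonempty with h3 | h3
    · left
      rw [hS', hP', h3]
      simp
    · right
      rw [hS', hP']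
      exact sum_le_prod _ _ (fun i hi => (hbig i).mp (Finset.mem_of_mem_erase hi)) h3
  have hsmall : c0 = 1 → (snp phi S i0 G).card = 0 := by
    intro h3
    rw [Finset.card_eq_zero]
    exact Finset.not_nonempty_iff_eq_empty.mp (hsn c n G fd (by rw [hMc, h3]; norm_num))
  have hLL : (snp phi S i0 G).card * (Ni l * P') * N ≤ (N + 1) ^ 2 := by
    have h3 := hLs ℤ P L phi D S i0 eta h c n G fd
    have h4 : ∏ i ∈ big G, M ((G i).coeff 0) = ((Ni l * P' : ℕ) : ℝ) := by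
      rw [← hPb]
      push_cast
      exact Finset.prod_congr rfl fun i _ => hMi i
    rw [h4, hV0.2, (mv1 _ _ hVD).2] at h3
    exact_mod_cast h3
  -- the ranks
  have hrkl : rk (supp (G l)) ≤ 2 * Ni l :=
    (fac_rank hEvz hEv1 hFcl hR hRS hI fd l hNl (hNiV l)).1
  have hrko : ∀ i ∈ (big G).erase l, rk (supp (G i)) ≤ 2 * Ni i := fun i hi =>
    (fac_rank hEvz hEv1 hFcl hR hRS hI fd i ((hbig i).mp (Finset.mem_of_mem_erase hi))
      (hNiV i)).1
  have hrks : ∑ i ∈ (big G).erase l, rk (supp (G i)) ≤ 2 * S' := by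
    rw [hS', Finset.mul_sum]
    exact Finset.sum_le_sum hrko
  have hrkV := hG1 ℤ P L phi D S i0 eta h c n G fd (fun i b _ hpu _ => absurd hpu (nopure i))
  rw [← Finset.add_sum_erase (big G) (fun i => rk (supp (G i))) hlb] at hrkV
  obtain ⟨h1, h2, h4, h5⟩ := cnt7 hc0 (by omega) hNn hSP hsmall hLL (by omega)
  subst h1
  have hcV1 : ClassV 1 c := by
    have h4 := hcV
    rw [Nat.cast_one] at h4
    exact h4
  have hallbig : ∀ i, i ∈ big G := by
    intro i
    by_contra hi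
    have h4 : i ∈ snp phi S i0 G := by
      unfold snp
      unfold big at hi
      rw [Finset.mem_filter] at hi
      push Not at hi
      exact Finset.mem_filter.mpr ⟨Finset.mem_univ _, not_lt.mpr (hi (Finset.mem_univ _)),
        nopure i⟩
    rw [Finset.card_eq_zero] at h2
    rw [h2] at h4
    exact absurd h4 (Finset.notMem_empty i)
  have hie : ∀ i, i = l := by
    intro i
    by_contra hi
    have h6 : i ∈ (big G).erase l := Finset.mem_erase.mpr ⟨hi, hallbig i⟩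
    have h7 : Ni i ∣ P' := by
      rw [hP']
      exact Finset.dvd_prod_of_mem Ni h6
    rw [h4, Nat.dvd_one] at h7
    have := (hbig i).mp (hallbig i)
    omega
  have hn1 : n = 1 := by
    have h1 : Fintype.card (Fin n) ≤ 1 := Fintype.card_le_one_iff_subsingleton.mpr
      ⟨fun a b => (hie a).trans (hie b).symm⟩
    rw [Fintype.card_fin] at h1
    have h2 := l.isLt
    omega
  subst hn1
  have hl0' : l = 0 := Subsingleton.elim _ _
  subst hl0'
  have hVp : V = cst c * G 0 := by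
    rw [hVdef, fd.eq, Fin.prod_univ_one]
  have h7 : supp V = supp (G 0) := by
    rw [hVp, H56.supp_cst_mul fd.c0]
  have hk0 : co phi i0 ≠ 0 := by
    intro h0
    rw [h0] at h
    exact absurd h (by simp)
  have hcod := (hRk L L).1 (co phi i0) hk0
  refine ⟨c, G 0, hcV1, hVp, ⟨inj, ?_, fd.st 0, fd.un 0, fd.irr 0, ?_⟩, ?_⟩
  · intro a ha
    exact hbin a (fd.ww 0 a ha)
  · rw [← h7, hVdef]
    omega
  · rw [h5]
    exact hNiV 0

end

end Pool.Agent.B5.R7
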