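import Pool.Agent.Lib.MP_b5021c_nt.KO.H07.R7a
import Pool.Agent.Lib.MP_b5021c_nt.KO.H29.Dbl
import Pool.Agent.Lib.MP_b5021c_nt.KO.H40.Alm

/-!
# MP_b5021c_nt, all `θ`, K ODD, (O4), l = 3, ALPHA, row R7 (helper7): `V''` is one factor, if the
other cycle has coefficients of order two in `V''`

* `second7` : the second closing `(-1/z, z)` has one factor of class `V(j)`, if it contains a mutual
  pair of rays with coefficients of order at least two.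
* `dbl7` : the same for `V''` of a mutual pair at the B-loads.
* `alp_one` : two neutral cycles without common ports, `alG` of order at least two: `V''` of the
  first one is one factor.
-/

set_option linter.unusedSectionVars false

namespace Pool.Agent.B5.R7

open scoped LaurentPolynomial
open Polynomial
open Pool.Agent.B5.KE
open Pool.Agent.B5.Nr.Sch
open Pool.Agent.B5.Nr (TrezS)
open Pool.Agent.B5.H61 (CuspS)
open Pool.Agent.B5.H40 (uT)
open Pool.Agent.B5.KV67 (TT1 tA_val)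
open Pool.Agent.B5.H66 (div_nf classV_of abs_of_mul nz_of_mul)
open Pool.Agent.B5.KO67 (aeval_emb aeval_int upper ko_num psd psd_eq uT1_val first)
open Pool.Agent.B5.KO.H96 (Alp)
open Pool.Agent.B5.O4X (lds_AC)

/-- SECOND CLOSING: one factor of class `V(j)`. -/
theorem second7 (hFcm : FcmS) (hEv : EvRS) (hFD : FDS) (hG0 : G0S) (hC0 : Coeff0S) (hE1 : E1S)
    (hE2 : E2S) (hMV : MVS) (hMm : MmulS) (hRk : RkS) (hWW : WWfS) (hRF : RayFacS) (hLs : LsmS)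
    (hG1 : G1pS) (hEvz : EvzS) (hEv1 : BdV ℤ 1 1) (hFcl : FclS) (hRw : ResWDS) (hRs : ResStS)
    (hO5 : H67.O5aS)
    {Q K : Type} [Fintype Q] [DecidableEq Q] [AddCommGroup K] [Module.Free ℤ K]
    [Module.Finite ℤ K] {psi : K →+ (Q → ℤ)} {G : AO ℤ K} {T : K} {i1 : Q}
    (h1 : co psi i1 T = 1) {q f E : ℤ[X]} {a : ℝ} {j : ℕ} {c : RO ℤ} {e' : (RO ℤ)ˣ}
    (hloc : Loc q f a) (hu : f.coeff 0 = 1) (hj : 2 ≤ j) (ha2 : a ≤ 1 / 2)
    (hja : 1 < ((j : ℝ) + 1) * a) (hD : DD psi G) (hfr : Module.finrank ℤ K = 2 * j)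
    (hV : ClassV ((j + 1 : ℕ) : ℝ) (G.coeff 0)) (hc : ClassV 1 c) (hT : Ray G T)
    (hI : ImS psi T) (hE : f - q = X * E) (hE0 : E.coeff 0 = j + 1)
    (hEz : ∀ z : ℂ, ‖z‖ < 1 → aeval z E ≠ 0) (hc0 : c * G.coeff 0 = toLaurent (q - f))
    (hcT : c * ((e' : RO ℤ) * G.coeff T) = toLaurent (X * ((1 + X) * f)))
    (hEm : (aeval (-1 : ℂ) E : ℂ) ≠ 0)
    (hrk : Module.finrank ℤ K = rk (supp (cl (co psi i1) T h1 e' G)) + 1)
    {r0 r1 : Ker (co psi i1)} (y0 : Ray (cl (co psi i1) T h1 e' G) r0)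
    (y1 : Ray (cl (co psi i1) T h1 e' G) r1)
    (hdis : ∀ p, phO psi T i1 r0 p = 0 ∨ phO psi T i1 r1 p = 0) {e0 e1 : (RO ℤ)ˣ}
    (h11 : (e1 : RO ℤ) * (cl (co psi i1) T h1 e' G).coeff r1 =
      (e0 : RO ℤ) * (cl (co psi i1) T h1 e' G).coeff r0)
    (h01 : (e0 : RO ℤ) * (e1 : RO ℤ) * (cl (co psi i1) T h1 e' G).coeff (r0 + r1) =
      -((e0 : RO ℤ) * (cl (co psi i1) T h1 e' G).coeff r0)) {t : ℤ} {g : ℤ[X]}
    (hxg : c * ((e0 : RO ℤ) * (cl (co psi i1) T h1 e' G).coeff r0) =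
      LaurentPolynomial.T t * toLaurent g) (hg : g.coeff 0 ≠ 0) (ht : 1 < t) :
    ∃ (c' : RO ℤ) (H : AO ℤ (Ker (co psi i1))), ClassV 1 c' ∧
      cl (co psi i1) T h1 e' G = cst c' * H ∧ DD (phO psi T i1) H ∧
      ClassV (j : ℝ) (H.coeff 0) := by
  obtain ⟨k, p, hcp, hp1, hp0, hpz⟩ := H78.classV_nf hc
  have hpu : p.coeff 0 = 1 ∨ p.coeff 0 = -1 := by
    have h2 : |p.coeff 0| = 1 := by exact_mod_cast hp1
    exact (abs_eq (by norm_num)).1 h2
  have hpC : ∀ z : ℂ, ‖z‖ < 1 → (aeval z p : ℂ) ≠ 0 := by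
    intro z hz
    rw [← aeval_emb]
    exact hpz z hz
  have hG0' : c * G.coeff 0 = LaurentPolynomial.T 1 * toLaurent (-E) := by
    rw [hc0]
    have h3 : q - f = X * -E := by rw [mul_neg, ← hE]; ring
    rw [h3, map_mul, toLaurent_X]
  have hGT' : c * ((e' : RO ℤ) * G.coeff T) =
      LaurentPolynomial.T 1 * toLaurent ((1 + X) * f) := by
    rw [hcT, map_mul, toLaurent_X]
  obtain ⟨q', hq', hpq⟩ := div_nf hp0 hcp hG0'
  obtain ⟨b', hb', hpb⟩ := div_nf hp0 hcp hGT'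
  have hqe : ∀ z : ℂ, (aeval z p : ℂ) * aeval z q' = -aeval z E := by
    intro z
    rw [← map_mul, hpq, map_neg]
  have hbe : ∀ z : ℂ, (aeval z p : ℂ) * aeval z b' = (1 + z) * aeval z f := by
    intro z
    rw [← map_mul, hpb, map_mul, map_add, map_one, aeval_X]
  have hq'0 : |(q'.coeff 0 : ℝ)| = j + 1 := by
    rw [abs_of_mul hpu hpq, coeff_neg, hE0]
    push_cast
    rw [abs_neg, abs_of_nonneg (by positivity)]
  have hb'0 : |(b'.coeff 0 : ℝ)| = 1 := by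
    rw [abs_of_mul hpu hpb, mul_coeff_zero, hu]
    simp
  have hs0 : |((q' + b').coeff 0 : ℝ)| = j := by
    have h2 : p * (q' + b') = -E + (1 + X) * f := by rw [mul_add, hpq, hpb]
    rw [abs_of_mul hpu h2, coeff_add, coeff_neg, hE0, mul_coeff_zero, hu]
    simp
  have hV' : G.coeff 0 + (e' : RO ℤ) * G.coeff T =
      LaurentPolynomial.T (1 - k) * toLaurent (q' + b') := by
    rw [hq', hb', map_add]
    ring
  -- zeros
  obtain ⟨ez, -, -, -, -, eray⟩ := hE2 ℤ Q K psi G hD (by omega)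
  have hq'c : ∀ z : ℂ, ‖z‖ ≤ 1 → (aeval z q' : ℂ) ≠ 0 := by
    intro z hz h0
    rcases lt_or_eq_of_le hz with h2 | h2
    · apply hEz z h2
      have h3 := hqe z
      rw [h0, mul_zero] at h3
      exact neg_eq_zero.mp h3.symm
    · obtain ⟨zc, rfl⟩ := circle_of z h2
      apply ez zc
      rw [hq', map_mul, evR_poly, h0, mul_zero]
  have hbq : ∀ z : ℂ, ‖z‖ = 1 → ‖(aeval z b' : ℂ)‖ ≤ ‖(aeval z q' : ℂ)‖ := by
    intro z hz
    obtain ⟨zc, rfl⟩ := circle_of z hz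
    have h2 := (eray T hT).1 zc
    have h3 : ‖evR zc (G.coeff T)‖ = ‖(aeval (zc : ℂ) b' : ℂ)‖ := by
      have h4 : ‖evR zc ((e' : RO ℤ) * G.coeff T)‖ = ‖(aeval (zc : ℂ) b' : ℂ)‖ := by
        rw [hb', norm_evR']
      rw [← h4, map_mul, norm_mul]
      have h5 : ‖evR zc (e' : RO ℤ)‖ = 1 := C4C.norm_evR_unit zc e'.isUnit
      rw [h5, one_mul]
    rw [h3, hq', norm_evR'] at h2
    exact h2
  have hsp : SP (-(b'.map (Int.castRingHom ℝ))) (q'.map (Int.castRingHom ℝ)) := by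
    apply SP.of_circle
    · intro z hz
      rw [aeval_map_real]
      exact hq'c z hz
    · intro z hz
      rw [map_neg, norm_neg, aeval_map_real, aeval_map_real]
      exact hbq z hz
  have hsz : ∀ z : ℂ, ‖z‖ < 1 → (aeval z (q' + b') : ℂ) ≠ 0 := by
    intro z hz h0
    have h2 : (aeval z (-(b'.map (Int.castRingHom ℝ))) : ℂ) =
        aeval z (q'.map (Int.castRingHom ℝ)) := by
      rw [map_neg, aeval_map_real, aeval_map_real]
      rw [map_add] at h0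
      linear_combination -h0
    have h3 := sp_eq hsp hz h2
    have h4 := congrArg (fun r : ℝ[X] => |r.coeff 0|) h3
    simp only [coeff_neg, coeff_map, abs_neg] at h4
    change |((b'.coeff 0 : ℤ) : ℝ)| = |((q'.coeff 0 : ℤ) : ℝ)| at h4
    rw [hb'0, hq'0] at h4
    have hj' : (2 : ℝ) ≤ j := by exact_mod_cast hj
    linarith
  have hVV : ClassV (j : ℝ) (G.coeff 0 + (e' : RO ℤ) * G.coeff T) := by
    refine classV_of (by exact_mod_cast (by omega : 1 ≤ j)) hV' hs0 ?_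
    intro z hz
    rw [aeval_emb]
    exact hsz z hz
  have hv0 : (cl (co psi i1) T h1 e' G).coeff 0 = LaurentPolynomial.T (1 - k) *
      toLaurent (q' + b') := by
    rw [H47.cl_coeff_bin (co psi i1) T h1 e' G (fun b hb => hD.bin b hb i1) 0, ← hV']
    have h5 : ((0 : Ker (co psi i1)) : K) = 0 := rfl
    rw [h5, zero_add]
  obtain ⟨g', hg', hpg⟩ := div_nf hp0 hcp hxg
  have hg0 : g'.coeff 0 ≠ 0 := by
    intro h3
    apply hg
    rw [← hpg, mul_coeff_zero, h3, mul_zero]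
  have hsn0 : (q' + b').coeff 0 ≠ 0 := by
    intro h3
    rw [h3] at hs0
    simp only [Int.cast_zero, abs_zero] at hs0
    have : (2 : ℝ) ≤ j := by exact_mod_cast hj
    linarith
  refine one_fac hFcm hE2 hEv hFD hG0 hC0 hE1 hMV hMm hRk hWW hRF hLs hG1 hEvz hEv1 hFcl hRw hRs
    psi G T i1 h1 e' j hD hfr hj hT hI hV hVV hrk ?_ y0 y1 hdis h11 h01 hv0 hsn0 hg' hg0
    (by omega)
  -- no small factors
  intro c' n G' fd hMc
  have hbm : b'.eval (-1) = 0 := by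
    have h2 := hqe (-1)
    have h3 := hbe (-1)
    rw [add_neg_cancel, zero_mul] at h3
    have h4 : (aeval (-1 : ℂ) p : ℂ) ≠ 0 := by
      intro h5
      rw [h5, zero_mul] at h2
      exact hEm (neg_eq_zero.mp h2.symm)
    have h5 := (mul_eq_zero.mp h3).resolve_left h4
    have h6 := aeval_int b' (-1)
    rw [Int.cast_neg, Int.cast_one, h5] at h6
    exact_mod_cast h6.symm
  refine hO5 Q K psi G T i1 e' h1 c' n G' fd hMc (1 - k) q' b' j a hj hfr hq' hb' ?_ ?_ ?_ ?_ ?_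
    hbm ha2 hja ?_
  · intro z hz
    rw [ev_map]
    exact hq'c z hz.le
  · intro z hz
    rw [ev_map]
    exact hsz z hz
  · exact_mod_cast hb'0
  · exact_mod_cast hq'0
  · exact_mod_cast hs0
  · -- the value at `a`
    have ha0 := hloc.a0
    rw [ev_map, ev_map]
    have hqa : (aeval (a : ℂ) q : ℂ) = 0 := by
      obtain ⟨s, hs, -⟩ := hloc.s
      rw [← aeval_map_real, hs, map_mul]
      simp
    have haC : (a : ℂ) ≠ 0 := by exact_mod_cast ha0.ne'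
    have ha1C : (1 + (a : ℂ)) ≠ 0 := by
      have : (1 + a : ℝ) ≠ 0 := by linarith
      exact_mod_cast this
    have hnorm : ‖(a : ℂ)‖ < 1 := by
      rw [Complex.norm_real, Real.norm_eq_abs, abs_of_pos ha0]
      linarith
    have hF : (aeval (a : ℂ) f : ℂ) = a * aeval (a : ℂ) E := by
      have h5 := congrArg (fun p : ℤ[X] => (aeval (a : ℂ) p : ℂ)) hE
      simp only [map_sub, map_mul, aeval_X, hqa, sub_zero] at h5
      exact h5
    have hEa := hEz _ hnorm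
    have hpa := hpC _ hnorm
    have h2 := hqe (a : ℂ)
    have h3 := hbe (a : ℂ)
    rw [hF] at h3
    have hB : (aeval (a : ℂ) b' : ℂ) ≠ 0 := by
      intro h4
      rw [h4, mul_zero] at h3
      exact mul_ne_zero ha1C (mul_ne_zero haC hEa) h3.symm
    have h4 : (aeval (a : ℂ) q' : ℂ) / aeval (a : ℂ) b' = ((-(1 / (a * (1 + a))) : ℝ) : ℂ) := by
      rw [div_eq_iff hB]
      apply mul_left_cancel₀ hpa
      rw [h2]
      have h5 : (aeval (a : ℂ) p : ℂ) * (((-(1 / (a * (1 + a))) : ℝ) : ℂ) * aeval (a : ℂ) b') =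
          ((-(1 / (a * (1 + a))) : ℝ) : ℂ) * ((1 + (a : ℂ)) * (a * aeval (a : ℂ) E)) := by
        rw [← h3]
        ring
      rw [h5]
      push_cast
      field_simp
    rw [h4, Complex.ofReal_re]
    have h5 : 0 < a * (1 + a) := by positivity
    rw [neg_neg, one_div, inv_mul_cancel₀ h5.ne']


/-- The double closing `(-1/z, z)` of a mutual pair of loads B with `n = j + 1`, of full rank, with
a mutual pair of rays with coefficients of order at least two: one factor of class `V(j)`. -/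
theorem dbl7' (hFcm : FcmS) (hEv : EvRS) (hFD : FDS) (hG0 : G0S) (hC0 : Coeff0S) (hE1 : E1S)
    (hE2 : E2S) (hMV : MVS) (hMm : MmulS) (hRk : RkS) (hWW : WWfS) (hRF : RayFacS) (hLs : LsmS)
    (hG1 : G1pS) (hEvz : EvzS) (hEv1 : BdV ℤ 1 1) (hFcl : FclS) (hRw : ResWDS) (hRs : ResStS)
    (hClp : ClpS) (hI1 : Inj1S) (hMug : MugS) (hMco : McoS) (hTr : TrezS) (hTsa : TsaS)
    (hO5 : H67.O5aS) {P L : Type} [Fintype P] [DecidableEq P] [AddCommGroup L]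
    [Module.Free ℤ L] [Module.Finite ℤ L] {phi : L →+ (P → ℤ)} {D : AO ℤ L} {q f : ℤ[X]} {a : ℝ}
    {j g : ℕ} {eta : L → (RO ℤ)ˣ} {C : Set L} (W : KcB phi D q f a j eta g C)
    (hu : f.coeff 0 = 1) (hn : f.coeff 1 - q.coeff 1 = j + 1) {S S1 : L} (hS : S ∈ C)
    {e e1 : (RO ℤ)ˣ} (he : eta S = ld e 1) (hR : RN D S q f e a)
    (hM : Mut D S S1 (ld e 1) e1) {E : ℤ[X]} (hE : f - q = X * E)
    (hEz : ∀ z : ℂ, ‖z‖ < 1 → aeval z E ≠ 0) (hEm : (aeval (-1 : ℂ) E : ℂ) ≠ 0)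
    (Y : Dp phi S S1)
    (hfull : rk (supp (dc Y (ld e 1 * kap) (e1 * uT (1 : ℤˣ) 1) D)) + 2 = Module.finrank ℤ L)
    {r0 r1 : Ker Y.k1} (y0 : Ray (dc Y (ld e 1 * kap) (e1 * uT (1 : ℤˣ) 1) D) r0)
    (y1 : Ray (dc Y (ld e 1 * kap) (e1 * uT (1 : ℤˣ) 1) D) r1)
    (hdis : ∀ p, psd Y r0 p = 0 ∨ psd Y r1 p = 0) {t0 t1 : (RO ℤ)ˣ}
    (h11 : (t1 : RO ℤ) * (dc Y (ld e 1 * kap) (e1 * uT (1 : ℤˣ) 1) D).coeff r1 =
      (t0 : RO ℤ) * (dc Y (ld e 1 * kap) (e1 * uT (1 : ℤˣ) 1) D).coeff r0)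
    (h01 : (t0 : RO ℤ) * (t1 : RO ℤ) *
      (dc Y (ld e 1 * kap) (e1 * uT (1 : ℤˣ) 1) D).coeff (r0 + r1) =
      -((t0 : RO ℤ) * (dc Y (ld e 1 * kap) (e1 * uT (1 : ℤˣ) 1) D).coeff r0)) {t : ℤ} {g' : ℤ[X]}
    (hxp : (t0 : RO ℤ) * (dc Y (ld e 1 * kap) (e1 * uT (1 : ℤˣ) 1) D).coeff r0 =
      LaurentPolynomial.T t * toLaurent g') (hg : g'.coeff 0 ≠ 0) (ht : 1 < t) :
    ∃ (c : RO ℤ) (H : AO ℤ (Ker Y.k1)), ClassV 1 c ∧
      dc Y (ld e 1 * kap) (e1 * uT (1 : ℤˣ) 1) D = cst c * H ∧ DD (psd Y) H ∧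
      ClassV (j : ℝ) (H.coeff 0) ∧
      c * H.coeff 0 = -toLaurent (X * (E - (1 + X) * f)) ∧
      Module.finrank ℤ (Ker Y.k1) + 1 = 2 * j := by
  have fp := W.ko.min.fp
  have hD := fp.dd
  have hrk := W.ko.rk
  have hj := W.ko.j2
  obtain ⟨ha0, ha2, hθ2, hθ⟩ := ko_num W.ko
  obtain ⟨i0, h0, T, eT, i1, k1, hk, h1⟩ := Y
  have hfst : ∃ nu : ℕ, 2 ≤ nu ∧ (nu : ℤ) = f.coeff 1 - q.coeff 1 ∧
      ∃ (c : RO ℤ) (G : AO ℤ (Ker (co phi i0))), ClassV 1 c ∧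
        cl (co phi i0) S h0 (-e) D = cst c * G ∧ DD (phO phi S i0) G ∧
        ClassV nu (G.coeff 0) ∧ Ray G T ∧ c * G.coeff 0 = toLaurent (q - f) ∧
        (∃ w : (RO ℤ)ˣ, (w : RO ℤ) * (c * G.coeff T) = toLaurent ((1 + X) * f)) ∧
        ImS (phO phi S i0) T ∧ co (phO phi S i0) i1 = k1 := first hMm hMV
    hE1 hClp hC0 hG0 hI1 hRk hFD hWW hRF hMug hMco hTr hTsa W hu hS he hR hM
    ⟨i0, h0, T, eT, i1, k1, hk, h1⟩
  obtain ⟨nu, hnu2, hnu, c, G, hc, hcl, hDG, hVG, hrayG, hco0, ⟨w, hw⟩, hIm, hi1⟩ := hfst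
  have hnuj : nu = j + 1 := by omega
  rw [hnuj] at hVG
  subst hi1
  have hE0 : E.coeff 0 = j + 1 := by
    have h3 := congrArg (fun r : ℤ[X] => r.coeff 1) hE
    simp only [coeff_sub, coeff_X_mul] at h3
    rw [← h3, hn]
  -- the double closing
  have hload : ld e 1 * kap = -e := by rw [mul_comm]; exact kap_ld e
  have hdc : dc (⟨i0, h0, T, eT, i1, co (phO phi S i0) i1, hk, h1⟩ : Dp phi S S1)
      (ld e 1 * kap) (e1 * uT (1 : ℤˣ) 1) D =
      cst c * cl (co (phO phi S i0) i1) T h1 (e1 * uT (1 : ℤˣ) 1) G := by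
    unfold dc
    dsimp only
    rw [hload, hcl, map_mul, H71.cl_cst]
  have hpsi : psd (⟨i0, h0, T, eT, i1, co (phO phi S i0) i1, hk, h1⟩ : Dp phi S S1) =
      phO (phO phi S i0) T i1 := psd_eq phi i0 h0 T eT i1 hk h1
  rw [hpsi] at hdis
  rw [hdc] at hfull y0 y1 h11 h01 hxp
  have hcne : c ≠ 0 := ((hMV ℤ).1 _ _ hc).1
  have hsup : supp (cst c * cl (co (phO phi S i0) i1) T h1 (e1 * uT (1 : ℤˣ) 1) G) =
      supp (cl (co (phO phi S i0) i1) T h1 (e1 * uT (1 : ℤˣ) 1) G) := H56.supp_cst_mul hcne _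
  rw [hsup] at hfull
  have y0' := ray_congr hsup y0
  have y1' := ray_congr hsup y1
  have hker := finrank_ker hRk h0
  have hker1 := finrank_ker hRk h1
  rw [H71.cst_mul_coeff] at hxp h11 h01
  rw [H71.cst_mul_coeff] at h11 h01
  -- the coefficient of `T`
  have hcT : c * (((e1 * uT (1 : ℤˣ) 1 : (RO ℤ)ˣ) : RO ℤ) * G.coeff T) =
      toLaurent (X * ((1 + X) * f)) := by
    obtain ⟨-, hA1, hA2, -⟩ := hMco ℤ P L phi D S S1 (ld e 1) e1 hD.inj hD.bin hM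
    have hX : ((ld e 1 : (RO ℤ)ˣ) : RO ℤ) * D.coeff S = toLaurent (X * f) := by
      have h3 := ld_S hR 1
      rw [pow_one] at h3
      exact h3
    have hcoT : (e1 : RO ℤ) * (c * G.coeff T) = toLaurent ((1 + X) * f) := by
      have hcl' : cl (co phi i0) S h0 (kap * ld e 1) D = cst c * G := by
        rw [kap_ld]
        exact hcl
      have hVne : D.coeff 0 + ((kap * ld e 1 : (RO ℤ)ˣ) : RO ℤ) * D.coeff S ≠ 0 := by
        rw [kap_ld]
        exact V0_ne_A hR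
      obtain ⟨-, -, hco1, -, -, -, -⟩ := hMug ℤ P L phi D S S1 (ld e 1) e1 kap i0 h0 T c
        G fp hM.r0 hM.r1 hM.m0 hM.m1 eT kap_ne hVne hcl'
      rw [hco1, hX, kap_val, sub_neg_eq_add, map_mul, map_mul, map_add, map_one, toLaurent_X]
      have h2 : (LaurentPolynomial.T (-1) : RO ℤ) * LaurentPolynomial.T 1 = 1 := by
        rw [← LaurentPolynomial.T_add, neg_add_cancel, LaurentPolynomial.T_zero]
      linear_combination (toLaurent f : RO ℤ) * h2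
    rw [Units.val_mul, uT1_val, map_mul, toLaurent_X]
    linear_combination (LaurentPolynomial.T 1 : RO ℤ) * hcoT
  obtain ⟨c', H, hc', hclH, hDH, hVH⟩ := second7 hFcm hEv hFD hG0 hC0 hE1 hE2 hMV hMm hRk hWW hRF
    hLs hG1 hEvz hEv1 hFcl hRw hRs hO5 h1 hR.loc hu hj ha2.le W.ko.lt hDG (by omega) hVG hc hrayG
    hIm hE hE0 hEz hco0 hcT hEm (by omega) y0' y1' hdis (e0 := t0) (e1 := t1)
    (mul_left_cancel₀ hcne (by linear_combination h11))
    (mul_left_cancel₀ hcne (by linear_combination h01)) (t := t) (g := g')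
    (by rw [← hxp]; ring) hg ht
  have hcc : ClassV 1 (c * c') := by
    obtain ⟨k, r, hcp, hp1, -, hpz⟩ := H78.classV_nf hc
    obtain ⟨k', r', hcp', hp1', -, hpz'⟩ := H78.classV_nf hc'
    refine H66.classV_of (a := k + k') (x' := r * r') le_rfl ?_ ?_ ?_
    · rw [hcp, hcp', LaurentPolynomial.T_add, map_mul]
      ring
    · rw [mul_coeff_zero, Int.cast_mul, abs_mul, hp1, hp1', mul_one]
    · intro z hz
      rw [Polynomial.map_mul, eval_mul]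
      exact mul_ne_zero (hpz z hz) (hpz' z hz)
  have hc'ne : c' ≠ 0 := ((hMV ℤ).1 _ _ hc').1
  have hV0 : c * c' * H.coeff 0 = -toLaurent (X * (E - (1 + X) * f)) := by
    have h3 : (cl (co (phO phi S i0) i1) T h1 (e1 * uT (1 : ℤˣ) 1) G).coeff 0 =
        G.coeff 0 + ((e1 * uT (1 : ℤˣ) 1 : (RO ℤ)ˣ) : RO ℤ) * G.coeff T := by
      have h4 := H47.cl_coeff_bin (co (phO phi S i0) i1) T h1 (e1 * uT (1 : ℤˣ) 1) G
        (fun b hb => hDG.bin b hb i1) 0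
      rw [h4]
      have h5 : ((0 : Ker (co (phO phi S i0) i1)) : Ker (co phi i0)) = 0 := rfl
      rw [h5, zero_add]
    rw [hclH, H71.cst_mul_coeff] at h3
    have h4 : c * c' * H.coeff 0 = c * G.coeff 0 +
        c * (((e1 * uT (1 : ℤˣ) 1 : (RO ℤ)ˣ) : RO ℤ) * G.coeff T) := by
      rw [mul_assoc, h3]
      ring
    rw [h4, hco0, hcT, ← map_add, ← map_neg]
    congr 1
    have h5 : q = f - X * E := by rw [← hE]; ring
    rw [h5]
    ring
  refine ⟨c * c', H, hcc, ?_, ?_, hVH, hV0, ?_⟩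
  · rw [hdc, hclH, H71.cst_mul, mul_assoc]
  · rw [hpsi]
    exact hDH
  · change Module.finrank ℤ (Ker (co (phO phi S i0) i1)) + 1 = 2 * j
    omega

section

variable {P L : Type} [Fintype P] [DecidableEq P] [AddCommGroup L] [Module.Free ℤ L]
  [Module.Finite ℤ L] {phi : L →+ (P → ℤ)} {D : AO ℤ L}

/-- `V''` is one factor, if it is drop free and has a mutual pair of rays with coefficients of order
at least two. -/
theorem dbl7 (hFcm : FcmS) (hEv : EvRS) (hLs : LsmS)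
    (hG1 : G1pS) (hEvz : EvzS) (hEv1 : BdV ℤ 1 1) (hFcl : FclS) (hRw : ResWDS) (hRs : ResStS)
    (hMV : MVS) (hMm : MmulS) (hE1 : E1S) (hE2 : E2S) (hPc : PCZS)
    (hClp : ClpS) (hC0 : Coeff0S) (hG0 : G0S) (hI1 : Inj1S) (hRk : RkS) (hFD : FDS)
    (hWW : WWfS) (hRF : RayFacS) (hMug : MugS) (hMco : McoS) (hCu : CuspS) (hSf : SfzS)
    (hTr : TrezS) (hTsa : TsaS) (hI3 : Io3S) (hMfc : MfcS) (hCa : Ca5S) (hGlc : GlcS)
    (hFou : FouS) (hDti : DtiS) (hRn : RnkS) (hO5 : H67.O5aS) {q f : ℤ[X]} {a : ℝ} {j : ℕ}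
    {eta : L → (RO ℤ)ˣ} {C : Set L} (W : KcB phi D q f a j eta 1 C) (hu : f.coeff 0 = 1)
    (hn : f.coeff 1 - q.coeff 1 = j + 1) {S S1 : L} (hS : S ∈ C)
    (hM : Mut D S S1 (eta S) (eta S1)) (Y : Dp phi S S1)
    (hdf : ∀ nu, Kil phi D S S1 (eta S * tA) (eta S1 * tC) nu → nu = 0) {r0 r1 : Ker Y.k1}
    (y0 : Ray (dc Y (eta S * tA) (eta S1 * tC) D) r0)
    (y1 : Ray (dc Y (eta S * tA) (eta S1 * tC) D) r1)
    (hdis : ∀ p, psd Y r0 p = 0 ∨ psd Y r1 p = 0) {t0 t1 : (RO ℤ)ˣ}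
    (h11 : (t1 : RO ℤ) * (dc Y (eta S * tA) (eta S1 * tC) D).coeff r1 =
      (t0 : RO ℤ) * (dc Y (eta S * tA) (eta S1 * tC) D).coeff r0)
    (h01 : (t0 : RO ℤ) * (t1 : RO ℤ) *
      (dc Y (eta S * tA) (eta S1 * tC) D).coeff (r0 + r1) =
      -((t0 : RO ℤ) * (dc Y (eta S * tA) (eta S1 * tC) D).coeff r0)) {t : ℤ} {g : ℤ[X]}
    (hxp : (t0 : RO ℤ) * (dc Y (eta S * tA) (eta S1 * tC) D).coeff r0 =
      LaurentPolynomial.T t * toLaurent g) (hg : g.coeff 0 ≠ 0) (ht : 1 < t) :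
    ∃ (c : RO ℤ) (H : AO ℤ (Ker Y.k1)) (E : ℤ[X]), f - q = X * E ∧ E.coeff 0 = j + 1 ∧
      ClassV 1 c ∧ dc Y (eta S * tA) (eta S1 * tC) D = cst c * H ∧ DD (psd Y) H ∧
      ClassV (j : ℝ) (H.coeff 0) ∧
      c * H.coeff 0 = -toLaurent (X * (E - (1 + X) * f)) ∧
      Module.finrank ℤ (Ker Y.k1) + 1 = 2 * j := by
  have fp := W.ko.min.fp
  have hD := fp.dd
  have hj := W.ko.j2
  have hrk := W.ko.rk
  have h2 : 2 ≤ Module.finrank ℤ L := by omega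
  obtain ⟨e, he, hRN⟩ := W.rn S hS
  have hM' : Mut D S S1 (ld e 1) (eta S1) := by
    rw [← he]
    exact hM
  obtain ⟨-, hzero, -⟩ := upper hMV hMm hE1 hPc hClp hFD hSf hI3 hMfc hCa hGlc hFou hDti W hu
    hS he hRN
  have hcusp : ∀ z : ℂ, ‖z‖ = 1 → (aeval z (q + X * f) : ℂ) ≠ 0 := fun z hz =>
    cusp_m1 hCu hD h2 hRN hM' hzero hz
  obtain ⟨E, hE, hE0, hEpos, hEz⟩ := typa hRN.loc hu hRN.ne
  rw [hn] at hE0
  have hEm : (aeval (-1 : ℂ) E : ℂ) ≠ 0 := by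
    intro h3
    apply hcusp (-1) (by simp)
    have h5 := congrArg (fun p : ℤ[X] => (aeval (-1 : ℂ) p : ℂ)) hE
    simp only [map_sub, map_mul, aeval_X, h3, mul_zero] at h5
    rw [map_add, map_mul, aeval_X]
    linear_combination -h5
  have hld : dc Y (ld e 1 * kap) (eta S1 * uT (1 : ℤˣ) 1) D =
      dc Y (eta S * tA) (eta S1 * tC) D := by
    rw [he]
    rfl
  have hfull : rk (supp (dc Y (ld e 1 * kap) (eta S1 * uT (1 : ℤˣ) 1) D)) + 2 =
      Module.finrank ℤ L := by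
    rw [hld]
    exact (hRn ℤ P L phi D _ _ _ _ hD.inj hD.bin hM Y _ _).mpr hdf
  rw [← hld] at y0 y1 h11 h01 hxp ⊢
  obtain ⟨c, H, hc, hdc, hDH, hVH, hH0, hfr⟩ := dbl7' hFcm hEv hFD hG0 hC0 hE1 hE2 hMV hMm hRk hWW
    hRF hLs hG1 hEvz hEv1 hFcl hRw hRs hClp hI1 hMug hMco hTr hTsa hO5 W hu hn hS he hRN hM' hE hEz
    hEm Y hfull y0 y1 hdis h11 h01 hxp hg ht
  exact ⟨c, H, E, hE, hE0, hc, hdc, hDH, hVH, hH0, hfr⟩

end

section

variable {P L : Type} [Fintype P] [DecidableEq P] [AddCommGroup L] [Module.Free ℤ L]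
  [Module.Finite ℤ L] {phi : L →+ (P → ℤ)} {D : AO ℤ L} {q f f' : ℤ[X]} {a : ℝ} {j : ℕ}
  {eta : L → (RO ℤ)ˣ} {k k' : ℕ} {Z : ZMod (k + 3) → L} {mu : ZMod (k + 3) → L →+ ℤ}
  {Z' : ZMod (k' + 3) → L} {mu' : ZMod (k' + 3) → L →+ ℤ}

/-- The pair relation of two neighbours of the other cycle in a double closing. -/
theorem pair_dc (hF1 : F1S) (A : Alp phi D q f f' a j eta k k' Z mu Z' mu')
    (hdis : ∀ i l p, phi (Z i) p = 0 ∨ phi (Z' l) p = 0) (i : ZMod (k + 3))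
    (l : ZMod (k' + 3)) {u0 u1 : (RO ℤ)ˣ} (Y : Dp phi (Z i) (Z (i + 1))) {x0 x1 : Ker Y.k1}
    (hx0 : ((x0 : Ker (co phi Y.i0)) : L) = Z' l)
    (hx1 : ((x1 : Ker (co phi Y.i0)) : L) = Z' (l + 1)) :
    (eta (Z' l) : RO ℤ) * (dc Y u0 u1 D).coeff (x0 + x1) = -(dc Y u0 u1 D).coeff x1 := by
  have hD := A.w.ko.min.fp.dd
  have hl := hF1 ℤ P L phi D (Z' l) (eta (Z' l)) hD.inj hD.bin
    (hD.bin _ (A.c'.mtl l).r0.1) (A.c'.mtl l).r0.2.1
  have key : ∀ b : L, mu' l b = 0 → (∀ p, phi b p = 0 ∨ phi (Z' l) p = 0) →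
      (eta (Z' l) : RO ℤ) * D.coeff (Z' l + Z' (l + 1) + b) = -D.coeff (Z' (l + 1) + b) := by
    intro b hb hbp
    have h1 := (hl (Z' (l + 1) + b) (by
      intro hU
      have h2 := (A.c'.ker l _).1 hU
      rw [map_add, A.c'.nxt l, hb] at h2
      omega)).2 (fun p => by
        rcases hbp p with h2 | h2
        · rcases A.c'.dis l (l + 1) (KO.H40.idx k' l).1 p with h3 | h3
          · exact Or.inr h3
          · left
            rw [map_add, Pi.add_apply, h2, h3, add_zero]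
        · exact Or.inr h2)
    rw [show Z' l + Z' (l + 1) + b = Z' (l + 1) + b + Z' l by abel]
    linear_combination h1
  have k0 := key 0 (map_zero _) (fun p => Or.inl (by rw [map_zero]; rfl))
  have k1 := key (Z i) (A.z' i l) (fun p => hdis i l p)
  have k2 := key (Z (i + 1)) (A.z' (i + 1) l) (fun p => hdis (i + 1) l p)
  have k3 := key (Z i + Z (i + 1)) (by rw [map_add, A.z', A.z', add_zero]) (fun p => by
    rcases hdis i l p with h2 | h2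
    · rcases hdis (i + 1) l p with h3 | h3
      · left
        rw [map_add, Pi.add_apply, h2, h3, add_zero]
      · exact Or.inr h3
    · exact Or.inr h2)
  have dis := A.c.dis i (i + 1) (KO.H40.idx k i).1
  rw [KO.H40.dc_csm hD.bin dis, KO.H40.dc_csm hD.bin dis]
  have hs : (((x0 + x1 : Ker Y.k1) : Ker (co phi Y.i0)) : L) = Z' l + Z' (l + 1) := by
    rw [← hx0, ← hx1]
    rfl
  rw [hs, hx1]
  unfold csm
  rw [add_zero, add_zero] at k0
  rw [← add_assoc, ← add_assoc] at k3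
  linear_combination k0 + (u0 : RO ℤ) * k1 + (u1 : RO ℤ) * k2 + ((u0 : RO ℤ) * (u1 : RO ℤ)) * k3

/-- (R7) two neutral cycles without common ports, `V''` of the first one drop free, the coefficient
of the other cycle in `V''` of order at least two: `V''` is one factor. -/
theorem alp_one (hFcm : FcmS) (hEv : EvRS) (hLs : LsmS)
    (hG1 : G1pS) (hEvz : EvzS) (hEv1 : BdV ℤ 1 1) (hFcl : FclS) (hRw : ResWDS) (hRs : ResStS)
    (hMV : MVS) (hMm : MmulS) (hE1 : E1S) (hE2 : E2S) (hPc : PCZS)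
    (hClp : ClpS) (hC0 : Coeff0S) (hG0 : G0S) (hI1 : Inj1S) (hRk : RkS) (hFD : FDS)
    (hWW : WWfS) (hRF : RayFacS) (hMug : MugS) (hMco : McoS) (hCu : CuspS) (hSf : SfzS)
    (hTr : TrezS) (hTsa : TsaS) (hI3 : Io3S) (hMfc : MfcS) (hCa : Ca5S) (hGlc : GlcS)
    (hFou : FouS) (hDti : DtiS) (hRn : RnkS) (hO5 : H67.O5aS) (hF1 : F1S) (hRy : RaySpanS)
    (A : Alp phi D q f f' a j eta k k' Z mu Z' mu')
    (hdis : ∀ i l p, phi (Z i) p = 0 ∨ phi (Z' l) p = 0) (i : ZMod (k + 3)) (l : ZMod (k' + 3))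
    (hdf : ∀ nu, Kil phi D (Z i) (Z (i + 1)) (eta (Z i) * tA) (eta (Z (i + 1)) * tC) nu →
      nu = 0) {t : ℤ} {g : ℤ[X]}
    (hU : KO.H40.alU f' (KO.H40.alH D eta (Z i) (Z' l)) = LaurentPolynomial.T t * toLaurent g)
    (hg : g.coeff 0 ≠ 0) (ht : 1 < t) (Y : Dp phi (Z i) (Z (i + 1))) :
    ∃ (c : RO ℤ) (H : AO ℤ (Ker Y.k1)) (E : ℤ[X]), f - q = X * E ∧ E.coeff 0 = j + 1 ∧
      ClassV 1 c ∧ dc Y (eta (Z i) * tA) (eta (Z (i + 1)) * tC) D = cst c * H ∧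
      DD (psd Y) H ∧ ClassV (j : ℝ) (H.coeff 0) ∧
      c * H.coeff 0 = -toLaurent (X * (E - (1 + X) * f)) ∧
      Module.finrank ℤ (Ker Y.k1) + 1 = 2 * j := by
  have hD := A.w.ko.min.fp.dd
  have hj := A.w.ko.j2
  have hrk := A.w.ko.rk
  have h2 : 2 ≤ Module.finrank ℤ L := by omega
  have p0 : phi (Z i) Y.i0 = 1 := Y.h0
  have p1 : phi (Z (i + 1)) Y.i1 = 1 := by
    have h1 := Y.hk Y.T
    rw [Y.h1, Y.eT] at h1
    exact h1.symm
  have hex : ∀ l, ∃ x : Ker Y.k1, ((x : Ker (co phi Y.i0)) : L) = Z' l := by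
    intro l
    have r0 : phi (Z' l) Y.i0 = 0 := (hdis i l Y.i0).resolve_left (by omega)
    have r1 : phi (Z' l) Y.i1 = 0 := (hdis (i + 1) l Y.i1).resolve_left (by omega)
    exact ⟨⟨⟨Z' l, r0⟩, by
      change Y.k1 ⟨Z' l, r0⟩ = 0
      rw [Y.hk]
      exact r1⟩, rfl⟩
  obtain ⟨x0, hx0⟩ := hex l
  obtain ⟨x1, hx1⟩ := hex (l + 1)
  have c0 := KO.H40.alp_dc hF1 A hdis i i l l lds_AC Y hx0
  have c1 := KO.H40.alp_dc hF1 A hdis i i (l + 1) l lds_AC Y hx1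
  have hUne : KO.H40.alU f' (KO.H40.alH D eta (Z i) (Z' l)) ≠ 0 := by
    rw [hU]
    intro h3
    have h4 := (mul_eq_zero.mp h3).resolve_left (LaurentPolynomial.isUnit_T t).ne_zero
    have h5 : g = 0 := (map_eq_zero_iff _ Polynomial.toLaurent_injective).mp h4
    rw [h5, coeff_zero] at hg
    exact hg rfl
  have ne0 : (dc Y (eta (Z i) * tA) (eta (Z (i + 1)) * tC) D).coeff x0 ≠ 0 := by
    intro h3
    rw [h3, mul_zero] at c0
    exact hUne c0.symm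
  have ne1 : (dc Y (eta (Z i) * tA) (eta (Z (i + 1)) * tC) D).coeff x1 ≠ 0 := by
    intro h3
    rw [h3, mul_zero] at c1
    exact hUne c1.symm
  obtain ⟨-, hthin, -⟩ := hE2 ℤ P L phi D hD h2
  obtain ⟨lam0, hlam0, -⟩ := hD.st.2
  have y0 := KO29.ray4 hRy hD.inj hD.bin ⟨lam0, hlam0⟩ hthin A.c i Y _ _ (A.c'.mtl l).r0
    (fun n => A.ne n l) x0 hx0 ne0
  have y1 := KO29.ray4 hRy hD.inj hD.bin ⟨lam0, hlam0⟩ hthin A.c i Y _ _ (A.c'.mtl l).r1
    (fun n => A.ne n (l + 1)) x1 hx1 ne1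
  have hps : ∀ p, psd Y x0 p = 0 ∨ psd Y x1 p = 0 := by
    intro p
    rw [KO67.psd_apply, KO67.psd_apply, hx0, hx1]
    split_ifs with h3
    · exact A.c'.dis l (l + 1) (KO.H40.idx k' l).1 p
    · exact Or.inl rfl
  have hpr := pair_dc hF1 A hdis i l (u0 := eta (Z i) * tA) (u1 := eta (Z (i + 1)) * tC) Y hx0 hx1
  exact dbl7 hFcm hEv hLs hG1 hEvz hEv1 hFcl hRw hRs hMV hMm hE1 hE2 hPc hClp hC0 hG0 hI1 hRk hFD
    hWW hRF hMug hMco hCu hSf hTr hTsa hI3 hMfc hCa hGlc hFou hDti hRn hO5 A.w A.u A.n ⟨i, rfl⟩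
    (A.c.mtl i) Y hdf y0 y1 hps (t0 := eta (Z' l)) (t1 := eta (Z' (l + 1))) (c1.trans c0.symm)
    (by rw [c0, ← c1]; linear_combination (eta (Z' (l + 1)) : RO ℤ) * hpr)
    (c0.trans hU) hg ht

end

end Pool.Agent.B5.R7
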