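import Pool.Agent.Lib.MP_b5021c_nt.E.H67.Rfc

/-!
# MP_b5021c_nt, all `θ`, K ODD, (O4), l = 3, ALPHA, row R7 (helper7): products with disjoint ports,
z-free factors, the numbers
-/

namespace Pool.Agent.B5.R7

open scoped LaurentPolynomial
open Polynomial Pool.Agent.B5 Pool.Agent.B5.Clo

/-- The integers of the count. -/
theorem cnt7 {N c0 m S' P' s : ℕ} (hc0 : 1 ≤ c0) (hm : 3 ≤ m) (hN : N = c0 * (m * P'))
    (hS : (S' = 0 ∧ P' = 1) ∨ (S' ≤ P' ∧ 2 ≤ P')) (hs1 : c0 = 1 → s = 0)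
    (hL : s * (m * P') * N ≤ (N + 1) ^ 2) (hR : 2 * N ≤ 2 * m + 2 * S' + s + 1) :
    c0 = 1 ∧ s = 0 ∧ P' = 1 ∧ N = m := by
  have hQ : ∃ Q, Q = m * P' := ⟨_, rfl⟩
  obtain ⟨Q, hQ⟩ := hQ
  rw [← hQ] at hN hL
  have hmS : m + S' ≤ Q ∧ 3 ≤ Q := by
    rcases hS with ⟨h1, h2⟩ | ⟨h1, h2⟩
    · rw [hQ, h1, h2]
      omega
    · have h3 : m + P' ≤ m * P' := by
        obtain ⟨x, rfl⟩ : ∃ x, m = 2 + x := ⟨m - 2, by omega⟩
        obtain ⟨y, rfl⟩ : ∃ y, P' = 2 + y := ⟨P' - 2, by omega⟩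
        nlinarith [Nat.zero_le (x * y)]
      omega
  obtain ⟨hmS, hQ3⟩ := hmS
  rcases Nat.lt_or_ge c0 2 with h1 | h1
  · have h2 : c0 = 1 := by omega
    have h3 := hs1 h2
    subst h2 h3
    refine ⟨rfl, rfl, ?_⟩
    rw [one_mul] at hN
    rcases hS with ⟨h4, h5⟩ | ⟨h4, h5⟩
    · exact ⟨h5, by rw [hN, hQ, h5, mul_one]⟩
    · exfalso
      have h6 : m * P' ≤ m + P' := by
        rw [← hQ]
        omega
      obtain ⟨x, rfl⟩ : ∃ x, m = 3 + x := ⟨m - 3, by omega⟩
      obtain ⟨y, rfl⟩ : ∃ y, P' = 2 + y := ⟨P' - 2, by omega⟩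
      nlinarith [Nat.zero_le (x * y)]
  · exfalso
    obtain ⟨x, rfl⟩ : ∃ x, c0 = 2 + x := ⟨c0 - 2, by omega⟩
    have h2 : 2 * (1 + x) * Q ≤ s + 1 := by
      have h3 : 2 * N = 2 * Q + 2 * (1 + x) * Q := by rw [hN]; ring
      omega
    have h4 : (2 + x) * Q ≤ 2 * (1 + x) * Q := Nat.mul_le_mul_right Q (by omega)
    have h5 : N ≤ s + 1 := by
      rw [hN]
      exact h4.trans h2
    have h6 : 6 ≤ N := by
      rw [hN]
      exact (by norm_num : 6 = 2 * 3) ▸ Nat.mul_le_mul (by omega) hQ3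
    have h7 : s * 3 * N ≤ (N + 1) ^ 2 :=
      (Nat.mul_le_mul_right N (Nat.mul_le_mul_left s hQ3)).trans hL
    obtain ⟨t, rfl⟩ : ∃ t, s = (N - 1) + t := ⟨s - (N - 1), by omega⟩
    obtain ⟨n, rfl⟩ : ∃ n, N = n + 1 := ⟨N - 1, by omega⟩
    have h8 : n + 1 - 1 = n := by omega
    rw [h8] at h7
    nlinarith [Nat.zero_le (t * n)]

section

variable {O : Type} [CommRing O] [IsDomain O] [IsPrincipalIdealRing O]
    [Coef O] {P L : Type} [Fintype P] [DecidableEq P] [AddCommGroup L] [Module.Free ℤ L]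
    [Module.Finite ℤ L]

theorem ports_disj (hW : WWfS) (phi : L →+ (P → ℤ)) (G H : AO O L)
    (bin : ∀ a ∈ supp (G * H), Bin phi a) (hG : G.coeff 0 ≠ 0) (hH : H.coeff 0 ≠ 0) (j : P) :
    (∀ a ∈ supp G, phi a j = 0) ∨ (∀ a ∈ supp H, phi a j = 0) := by
  have hw : ∀ a ∈ supp (G * H), WW phi ∅ Finset.univ a := by
    intro a ha
    refine ⟨fun j _ => bin a ha j, Or.inl fun i hi => absurd hi (Finset.notMem_empty i),
      fun j _ hj => absurd (Finset.mem_univ j) hj⟩
  exact (hW O P L phi ∅ Finset.univ G H hw hG hH).2 j (Finset.mem_univ j)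

/-- The coefficient of a product at a sum of exponents of the factors. -/
theorem coeff_pair (hW : WWfS) (phi : L →+ (P → ℤ)) (inj : Function.Injective phi) (G H : AO O L)
    (bin : ∀ a ∈ supp (G * H), Bin phi a) (hG : G.coeff 0 ≠ 0) (hH : H.coeff 0 ≠ 0) {u v : L}
    (hu : u ∈ supp G) (hv : v ∈ supp H) : (G * H).coeff (u + v) = G.coeff u * H.coeff v := by
  classical
  have hj := ports_disj hW phi G H bin hG hH
  have hun : UniqueAdd G.coeff.support H.coeff.support u v := by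
    intro a b ha hb hab
    have ha' : a ∈ supp G := by simpa [supp] using ha
    have hb' : b ∈ supp H := by simpa [supp] using hb
    have hau : a = u := by
      apply inj
      funext j
      rcases hj j with h | h
      · rw [h a ha', h u hu]
      · have h2 := congrArg (fun x => phi x j) hab
        simp only [map_add, Pi.add_apply, h b hb', h v hv, add_zero] at h2
        exact h2
    exact ⟨hau, by rw [hau] at hab; exact add_left_cancel hab⟩
  exact AddMonoidAlgebra.coeff_mul_add_of_uniqueAdd hun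

/-- A sum of exponents of one factor which is an exponent of the product. -/
theorem mem_sum (hW : WWfS) (phi : L →+ (P → ℤ)) (inj : Function.Injective phi) (G H : AO O L)
    (bin : ∀ a ∈ supp (G * H), Bin phi a) (hG : G.coeff 0 ≠ 0) (hH : H.coeff 0 ≠ 0) {u v : L}
    (hu : u ∈ supp G) (hv : v ∈ supp G) (huv : u + v ∈ supp (G * H)) : u + v ∈ supp G := by
  classical
  have hj := ports_disj hW phi G H bin hG hH
  obtain ⟨a, ha, b, hb, hab⟩ : ∃ a ∈ supp G, ∃ b ∈ supp H, a + b = u + v := by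
    have h : u + v ∈ (G * H).coeff.support := Finsupp.mem_support_iff.mpr huv
    obtain ⟨x, hx, y, hy, hxy⟩ :=
      Finset.mem_add.mp (AddMonoidAlgebra.support_coeff_mul_subset _ _ h)
    exact ⟨x, Finsupp.mem_support_iff.mp hx, y, Finsupp.mem_support_iff.mp hy, hxy⟩
  have hb0 : b = 0 := by
    apply inj
    rw [map_zero]
    funext j
    rcases hj j with h | h
    · have h2 := congrArg (fun x => phi x j) hab
      simp only [map_add, Pi.add_apply, h a ha, h u hu, h v hv, zero_add] at h2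
      rw [h2, Pi.zero_apply]
    · rw [h b hb, Pi.zero_apply]
  rw [hb0, add_zero] at hab
  rwa [← hab]

end

end Pool.Agent.B5.R7
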