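import Pool.Agent.Lib.MP_b5021c_nt.KO.H13.Ubx

/-!
# MP_b5021c_nt, all `θ`, K ODD, (O4), two overlapping components: the content `(1 + X^2)^d`

`f` and `f' = c g` are the coefficients of the rays of the two components, `p = c P` and `p'` the
constant coefficients of the two closings, `c = (1 + X^2)^d`, `d ≥ 1`: impossible (proof of
helper13, with small changes).
-/

namespace Pool.Agent.B5.O4C

open Polynomial
open Pool.Agent.B5
open Pool.Agent.B5.O4U (tail_one up_neg lo_one coeff_cases abs_aeval_le)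
open Pool.Agent.B5.O4X (Tp aC)

/-! ## The content -/

/-- The first coefficients of `(1 + X^2)^d E`. -/
theorem cf (E : ℤ[X]) (d : ℕ) :
    ((1 + X ^ 2) ^ d * E).coeff 0 = E.coeff 0 ∧ ((1 + X ^ 2) ^ d * E).coeff 1 = E.coeff 1 ∧
    ((1 + X ^ 2) ^ d * E).coeff 2 = E.coeff 2 + d * E.coeff 0 ∧
    ((1 + X ^ 2) ^ d * E).coeff 3 = E.coeff 3 + d * E.coeff 1 := by
  induction d with
  | zero => simp
  | succ d ih =>
    obtain ⟨h0, h1, h2, h3⟩ := ih
    have e : (1 + X ^ 2 : ℤ[X]) ^ (d + 1) * E =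
        (1 + X ^ 2) ^ d * E + X ^ 2 * ((1 + X ^ 2) ^ d * E) := by ring
    refine ⟨?_, ?_, ?_, ?_⟩
    · rw [e, coeff_add, h0, coeff_X_pow_mul', if_neg (by norm_num), add_zero]
    · rw [e, coeff_add, h1, coeff_X_pow_mul', if_neg (by norm_num), add_zero]
    · rw [e, coeff_add, h2, coeff_X_pow_mul', if_pos (by norm_num), h0]
      push_cast
      ring
    · rw [e, coeff_add, h3, coeff_X_pow_mul', if_pos (by norm_num), h1]
      push_cast
      ring

/-- `(1 + t^2)^d ≥ 1 + d t^2`. -/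
theorem bern (t : ℝ) (d : ℕ) : 1 + d * t ^ 2 ≤ (1 + t ^ 2) ^ d :=
  one_add_mul_le_pow (by nlinarith [sq_nonneg t]) d

theorem c_ge {t : ℝ} {d : ℕ} (hd : 1 ≤ d) : 1 + t ^ 2 ≤ (1 + t ^ 2) ^ d := by
  have h1 := bern t d
  have h2 : (1 : ℝ) ≤ d := by exact_mod_cast hd
  nlinarith [sq_nonneg t]

/-! ## The types -/

/-- The pairs `(P, g)`: two binomials, or the form of LEMMA UF (also with `g = 1`). -/
def Ty (N : ℕ) (P g : ℤ[X]) : Prop :=
  (∃ (k : ℕ) (t r : ℤ), 1 ≤ k ∧ P = C (N : ℤ) + C t * X ^ k ∧ g = 1 + C r * X ^ k ∧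
    |t| + 1 ≤ N ∧ |1 + r| ≤ N + t ∧ |1 - r| ≤ N - t) ∨
  ∃ (s : ℕ) (F : ℤ[X]), 1 ≤ s ∧ s + 2 ≤ N ∧ F.coeff 0 = 0 ∧ (∀ k, |F.coeff k| ≤ 1) ∧
    P = C (N : ℤ) + C (s : ℤ) * F ∧ (g = 1 + F ∨ g = 1)

/-- All the conditions, in real numbers. -/
structure Dat (N d : ℕ) (P g P' g' : ℤ[X]) (x y : ℝ) : Prop where
  d1 : 1 ≤ d
  n2 : 2 ≤ N
  hx : x * ((N : ℝ) + 1) = 1
  hy : y * (N : ℝ) = 1
  x0 : 0 < x
  y0 : 0 < y
  hE : (1 + X ^ 2) ^ d * ((1 - X - X ^ 2) * g + X * P) = (1 - X - X ^ 2) * g' + X * P'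
  A1 : (1 + x ^ 2) ^ d * (x * aeval x P) < (1 - x - x ^ 2) * (aeval x g' : ℝ)
  A2 : x * aeval x P' < (1 + x ^ 2) ^ d * ((1 - x - x ^ 2) * (aeval x g : ℝ))
  B1 : (1 - y ^ 2) * (aeval y g' : ℝ) ≤ (1 + y ^ 2) ^ d * (y * aeval y P)
  B2 : (1 + y ^ 2) ^ d * ((1 - y ^ 2) * (aeval y g : ℝ)) ≤ y * aeval y P'

variable {N d : ℕ} {P g P' g' : ℤ[X]} {x y : ℝ}

/-- Coefficients of `(1 - X - X^2) g + X P`. -/
theorem ecf (g P : ℤ[X]) :
    ((1 - X - X ^ 2) * g + X * P).coeff 0 = g.coeff 0 ∧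
    ((1 - X - X ^ 2) * g + X * P).coeff 1 = g.coeff 1 - g.coeff 0 + P.coeff 0 ∧
    ((1 - X - X ^ 2) * g + X * P).coeff 2 = g.coeff 2 - g.coeff 1 - g.coeff 0 + P.coeff 1 ∧
    ((1 - X - X ^ 2) * g + X * P).coeff 3 = g.coeff 3 - g.coeff 2 - g.coeff 1 + P.coeff 2 := by
  have e : (1 - X - X ^ 2) * g + X * P = g - X * g - X ^ 2 * g + X * P := by ring
  rw [e]
  refine ⟨?_, ?_, ?_, ?_⟩ <;>
    simp [coeff_X_pow_mul', coeff_X_mul]

/-- The relations between the coefficients. -/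
theorem rels (h : Dat N d P g P' g' x y) (hg : g.coeff 0 = 1) (hg' : g'.coeff 0 = 1)
    (hP : P.coeff 0 = N) (hP' : P'.coeff 0 = N) :
    g.coeff 1 = g'.coeff 1 ∧ g.coeff 2 + P.coeff 1 + d = g'.coeff 2 + P'.coeff 1 ∧
    g.coeff 3 - g.coeff 2 + P.coeff 2 + d * (g.coeff 1 + N - 1) =
      g'.coeff 3 - g'.coeff 2 + P'.coeff 2 := by
  obtain ⟨-, a1, a2, a3⟩ := cf ((1 - X - X ^ 2) * g + X * P) d
  obtain ⟨b0, b1, b2, b3⟩ := ecf g P
  obtain ⟨b0', b1', b2', b3'⟩ := ecf g' P'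
  rw [h.hE] at a1 a2 a3
  rw [b1, b1', hg, hg', hP, hP'] at a1
  rw [b2, b2', b0, hg, hg'] at a2
  rw [b3, b3', b1, hg, hP] at a3
  have e1 : g.coeff 1 = g'.coeff 1 := by omega
  refine ⟨e1, by omega, ?_⟩
  rw [e1] at a3 ⊢
  linear_combination -a3

theorem not_a (h : Dat N d P g P' g' x y) (h1 : (1 - x - x ^ 2) * (aeval x g : ℝ) ≤ x * aeval x P)
    (h2 : (1 - x - x ^ 2) * (aeval x g' : ℝ) ≤ x * aeval x P') : False := by
  have hc : 0 ≤ (1 + x ^ 2) ^ d := by positivity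
  have h3 := mul_le_mul_of_nonneg_left h1 hc
  have h4 := h.A1
  have h5 := h.A2
  linarith

theorem not_b (h : Dat N d P g P' g' x y) (h1 : y * aeval y P < (1 - y ^ 2) * (aeval y g : ℝ))
    (h2 : y * aeval y P' < (1 - y ^ 2) * (aeval y g' : ℝ)) : False := by
  have hc : 0 < (1 + y ^ 2) ^ d := by positivity
  have h3 := mul_lt_mul_of_pos_left h1 hc
  have h4 := h.B1
  have h5 := h.B2
  linarith

/-- Binomials: `β g ≤ x P` at `x = 1/(N+1)`. -/
theorem aB {N k : ℕ} {t r : ℤ} {x : ℝ} (hx : x * ((N : ℝ) + 1) = 1) (x0 : 0 < x) (hN : 2 ≤ N)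
    (ht : |t| + 1 ≤ N) (h1 : |1 + r| ≤ N + t) (h2 : |1 - r| ≤ N - t)
    (hc : (k = 1 ∧ r ≤ -1) ∨ (k = 1 ∧ r = 0 ∧ -1 ≤ t) ∨ (k = 2 ∧ r ≤ 0) ∨ 3 ≤ k) :
    (1 - x - x ^ 2) * (1 + r * x ^ k) ≤ x * (N + t * x ^ k) := by
  have hN' : (2 : ℝ) ≤ N := by exact_mod_cast hN
  have hx3 : x ≤ 1 / 3 := by nlinarith
  have hb : 0 ≤ 1 - x - x ^ 2 := by nlinarith
  have ht' := abs_le.mp (by omega : |t| ≤ N - 1)
  have t1 : -((N : ℝ) - 1) ≤ t := by exact_mod_cast ht'.1
  have t2 : (t : ℝ) ≤ N - 1 := by exact_mod_cast ht'.2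
  rcases hc with ⟨rfl, hr⟩ | ⟨rfl, hr, ht1⟩ | ⟨rfl, hr⟩ | hk
  · -- `k = 1`, `r ≤ -1`
    have h3 := (abs_le.mp h1).1
    have h4 : -((N : ℝ) + t) ≤ 1 + r := by exact_mod_cast h3
    have h5 : (r : ℝ) ≤ -1 := by exact_mod_cast hr
    have h6 : 0 ≤ x + t * x - (1 - x - x ^ 2) * r := by
      have h7 : 0 ≤ (t + 1 + r + N) * x := mul_nonneg (by linarith) x0.le
      have h8 : 0 ≤ (-1 - r) * (1 - x ^ 2) := mul_nonneg (by linarith) (by nlinarith)
      nlinarith
    have h9 := mul_nonneg x0.le h6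
    nlinarith
  · -- `k = 1`, `r = 0`
    subst hr
    have h5 : (-1 : ℝ) ≤ t := by exact_mod_cast ht1
    have h6 : 0 ≤ x ^ 2 * (1 + t) := mul_nonneg (sq_nonneg x) (by linarith)
    push_cast
    nlinarith
  · -- `k = 2`
    have h5 : (r : ℝ) ≤ 0 := by exact_mod_cast hr
    have h6 : 0 ≤ 1 + t * x - (1 - x - x ^ 2) * r := by
      have h7 : 0 ≤ (1 - x - x ^ 2) * -r := mul_nonneg hb (by linarith)
      have h8 : 0 ≤ (t + (N - 1)) * x := mul_nonneg (by linarith) x0.le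
      nlinarith
    have h9 := mul_nonneg (sq_nonneg x) h6
    nlinarith
  · -- `3 ≤ k`
    have h3 : r ≤ N := by
      have e1 := (abs_le.mp h1).2
      have e2 := (abs_le.mp h2).1
      omega
    have h4 : (r : ℝ) ≤ N := by exact_mod_cast h3
    obtain ⟨m, rfl⟩ := Nat.exists_eq_add_of_le hk
    have hm0 : 0 ≤ x ^ m := pow_nonneg x0.le m
    have hm1 : x ^ m ≤ 1 := pow_le_one₀ x0.le (by linarith)
    -- `x ((1 - x - x^2) r - t x) ≤ 1`
    have h5 : x * ((1 - x - x ^ 2) * r - t * x) ≤ 1 := by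
      have h6 : 0 ≤ (1 - x - x ^ 2) * x * (N - r) := mul_nonneg (mul_nonneg hb x0.le) (by linarith)
      have h7 : 0 ≤ (t + (N - 1)) * x ^ 2 := mul_nonneg (by linarith) (sq_nonneg x)
      have h8 : (1 - x - x ^ 2) * x * N = (1 - x - x ^ 2) * (1 - x) := by
        have : x * N = 1 - x := by linarith
        rw [mul_assoc, this]
      have h9 : x ^ 2 * N = x * (1 - x) := by
        have : x * N = 1 - x := by linarith
        rw [sq, mul_assoc, this]
      nlinarith [mul_pos x0 x0]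
    have h6 : x ^ m * (x * ((1 - x - x ^ 2) * r - t * x)) ≤ 1 := by
      by_cases h7 : 0 ≤ x * ((1 - x - x ^ 2) * r - t * x)
      · calc x ^ m * (x * ((1 - x - x ^ 2) * r - t * x)) ≤ 1 * 1 :=
            mul_le_mul hm1 h5 h7 zero_le_one
          _ = 1 := one_mul 1
      · push Not at h7
        nlinarith [mul_nonneg hm0 (by linarith : (0 : ℝ) ≤ -(x * ((1 - x - x ^ 2) * r - t * x)))]
    have h7 := mul_nonneg (sq_nonneg x) (by linarith : (0 : ℝ) ≤
      1 - x ^ m * (x * ((1 - x - x ^ 2) * r - t * x)))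
    have e : x * (N + t * x ^ (3 + m)) - (1 - x - x ^ 2) * (1 + r * x ^ (3 + m)) =
        x ^ 2 * (1 - x ^ m * (x * ((1 - x - x ^ 2) * r - t * x))) + (x * (N + 1) - 1) := by
      rw [pow_add]
      ring
    linarith

/-- LEMMA UF, `F_1 ≤ 0`: `β g ≤ x P` at `x = 1/(N+1)`. -/
theorem aU {N s : ℕ} {F : ℤ[X]} {x : ℝ} (hx : x * ((N : ℝ) + 1) = 1) (x0 : 0 < x) (hs1 : 1 ≤ s)
    (hs : s + 2 ≤ N) (F0 : F.coeff 0 = 0) (Fk : ∀ k, |F.coeff k| ≤ 1) (hF : F.coeff 1 ≤ 0) :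
    (1 - x - x ^ 2) * (1 + (aeval x F : ℝ)) ≤ x * (N + s * aeval x F) := by
  have hN : (3 : ℝ) ≤ N := by exact_mod_cast (by omega : 3 ≤ N)
  have hs' : (s : ℝ) + 2 ≤ N := by exact_mod_cast hs
  have hs1' : (1 : ℝ) ≤ s := by exact_mod_cast hs1
  have hx4 : x ≤ 1 / 4 := by nlinarith
  have h1 := up_neg F0 Fk x0 (by linarith) hF
  have hsx : (s : ℝ) * x ≤ 1 - 3 * x := by nlinarith
  have hb : 0 ≤ 1 - x - x ^ 2 - s * x := by nlinarith
  have h2 := mul_le_mul_of_nonneg_left h1 hb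
  -- `(β - s x) F ≤ x^2`
  have h3 : (1 - x) * ((1 - x - x ^ 2 - s * x) * (aeval x F : ℝ)) ≤ (1 - x) * x ^ 2 := by
    have h4 : (1 - x - x ^ 2 - s * x) * x ^ 2 ≤ (1 - x) * x ^ 2 :=
      mul_le_mul_of_nonneg_right (by nlinarith) (sq_nonneg x)
    linarith
  have h5 := le_of_mul_le_mul_left h3 (by linarith : (0 : ℝ) < 1 - x)
  nlinarith

/-- LEMMA UF with `g = 1`, `F_1 ≥ 0`. -/
theorem aQ {N s : ℕ} {F : ℤ[X]} {x : ℝ} (hx : x * ((N : ℝ) + 1) = 1) (x0 : 0 < x) (hs1 : 1 ≤ s)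
    (hs : s + 2 ≤ N) (F0 : F.coeff 0 = 0) (Fk : ∀ k, |F.coeff k| ≤ 1) (hF : 0 ≤ F.coeff 1) :
    (1 - x - x ^ 2) * 1 ≤ x * (N + s * (aeval x F : ℝ)) := by
  have hN : (3 : ℝ) ≤ N := by exact_mod_cast (by omega : 3 ≤ N)
  have hs' : (s : ℝ) + 2 ≤ N := by exact_mod_cast hs
  have hs1' : (1 : ℝ) ≤ s := by exact_mod_cast hs1
  have hx4 : x ≤ 1 / 4 := by nlinarith
  have h1 := (abs_le.mp (tail_one F0 Fk x0 (by linarith))).1
  have h2 : (0 : ℝ) ≤ F.coeff 1 := by exact_mod_cast hF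
  have hsx : (s : ℝ) * x ≤ 1 - 3 * x := by nlinarith
  have h3 : -(x ^ 2) ≤ (1 - x) * (aeval x F : ℝ) := by
    nlinarith [mul_nonneg (mul_nonneg x0.le (by linarith : (0 : ℝ) ≤ 1 - x)) h2]
  have h4 : -(s * x * x ^ 2) ≤ (1 - x) * (s * x * (aeval x F : ℝ)) := by
    nlinarith [mul_le_mul_of_nonneg_left h3 (by positivity : (0 : ℝ) ≤ s * x)]
  have h5 : -((1 - x) * x ^ 2) ≤ (1 - x) * (s * x * (aeval x F : ℝ)) := by
    nlinarith [mul_nonneg (by linarith : (0 : ℝ) ≤ 1 - x - s * x) (sq_nonneg x)]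
  have h6 : -x ^ 2 ≤ s * x * (aeval x F : ℝ) := by
    have : (1 - x) * (-x ^ 2) ≤ (1 - x) * (s * x * (aeval x F : ℝ)) := by linarith
    exact le_of_mul_le_mul_left this (by linarith)
  nlinarith

/-! ## The value at `i` -/

theorem bin_i {N d k : ℕ} {t r : ℤ} {E : ℤ[X]} (hd : 1 ≤ d) (ht : |t| + 1 ≤ N)
    (hE : (1 + X ^ 2) ^ d * E =
      (1 - X - X ^ 2) * (1 + C r * X ^ k) + X * (C (N : ℤ) + C t * X ^ k)) :
    (k % 4 = 1 ∧ 2 * r = -(N - 1) ∧ t = r + 2) ∨ (k % 4 = 3 ∧ 2 * r = N - 1 ∧ t = r - 2) := by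
  have h1 := congrArg (fun Q => (aeval Complex.I Q : ℂ)) hE
  simp only [map_mul, map_add, map_sub, map_pow, map_one, aeval_X, Complex.I_sq,
    eq_intCast] at h1
  rw [add_neg_cancel, zero_pow (by omega), zero_mul] at h1
  have h2 : (Complex.I) ^ k = Complex.I ^ (k % 4) := by
    conv_lhs => rw [← Nat.div_add_mod k 4, pow_add, pow_mul, Complex.I_pow_four, one_pow, one_mul]
  rw [h2] at h1
  have h3 := congrArg Complex.re h1
  have h4 := congrArg Complex.im h1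
  have ht' := abs_le.mp (by omega : |t| ≤ (N : ℤ) - 1)
  have h5 : k % 4 = 0 ∨ k % 4 = 1 ∨ k % 4 = 2 ∨ k % 4 = 3 := by omega
  rcases h5 with h5 | h5 | h5 | h5
  · exfalso
    rw [h5] at h3 h4
    simp at h3 h4
    have e3 : 1 + r = 0 := by exact_mod_cast h3
    have e4 : (0 : ℤ) = -r + -1 + (N + t) := by exact_mod_cast h4
    omega
  · left
    rw [h5] at h3 h4
    simp at h3 h4
    have e3 : (0 : ℤ) = 1 + 1 + r + -t := by exact_mod_cast h3
    have e4 : (0 : ℤ) = (1 + 1) * r + -1 + N := by exact_mod_cast h4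
    omega
  · exfalso
    rw [h5] at h3 h4
    simp at h3 h4
    have e3 : 1 + -r = 0 := by exact_mod_cast h3
    have e4 : (0 : ℤ) = r + -1 + (N + -t) := by exact_mod_cast h4
    omega
  · right
    have e : (Complex.I) ^ 3 = -Complex.I := by
      rw [pow_succ, Complex.I_sq]
      ring
    rw [h5, e] at h3 h4
    simp at h3 h4
    have e3 : (0 : ℤ) = 1 + 1 + -r + t := by exact_mod_cast h3
    have e4 : (0 : ℤ) = -((1 + 1) * r) + -1 + N := by exact_mod_cast h4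
    omega

/-! ## Degrees -/

theorem monic_c (d : ℕ) : ((1 + X ^ 2 : ℤ[X]) ^ d).Monic := by
  apply Monic.pow
  have : (1 + X ^ 2 : ℤ[X]) = X ^ 2 + C 1 := by rw [map_one, add_comm]
  rw [this]
  exact monic_X_pow_add_C 1 (by norm_num)

theorem deg_c (d : ℕ) : ((1 + X ^ 2 : ℤ[X]) ^ d).natDegree = 2 * d := by
  have : (1 + X ^ 2 : ℤ[X]) = X ^ 2 + C 1 := by rw [map_one, add_comm]
  rw [this, natDegree_pow, natDegree_X_pow_add_C, mul_comm]

theorem lead_c (d : ℕ) (E : ℤ[X]) :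
    ((1 + X ^ 2) ^ d * E).leadingCoeff = E.leadingCoeff := by
  rw [leadingCoeff_mul, (monic_c d : _ = _), one_mul]

/-- The leading coefficient of `β (1 + F) + X (N + s F)`. -/
theorem lead_u {N s : ℕ} {F : ℤ[X]} (F0 : F.coeff 0 = 0) (hF : F ≠ 0) :
    ((1 - X - X ^ 2) * (1 + F) + X * (C (N : ℤ) + C (s : ℤ) * F)).leadingCoeff =
      -F.leadingCoeff := by
  have hm : 1 ≤ F.natDegree := by
    by_contra hcon
    apply hF
    rw [eq_C_of_natDegree_eq_zero (by omega : F.natDegree = 0), F0, map_zero]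
  have e : (1 - X - X ^ 2) * (1 + F) + X * (C (N : ℤ) + C (s : ℤ) * F) =
      (C (-1) * X ^ 2 + C ((N : ℤ) - 1) * X + C 1) +
      (C (-1) * X ^ 2 + C ((s : ℤ) - 1) * X + C 1) * F := by
    simp only [map_sub, map_neg, map_one]
    ring
  have h1 : (C (-1) * X ^ 2 + C ((s : ℤ) - 1) * X + C 1 : ℤ[X]).natDegree = 2 :=
    natDegree_quadratic (by norm_num)
  have h2 : (C (-1) * X ^ 2 + C ((s : ℤ) - 1) * X + C 1 : ℤ[X]).leadingCoeff = -1 :=
    leadingCoeff_quadratic (by norm_num)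
  have h3 : (C (-1) * X ^ 2 + C ((N : ℤ) - 1) * X + C 1 : ℤ[X]).natDegree = 2 :=
    natDegree_quadratic (by norm_num)
  have h4 : (C (-1) * X ^ 2 + C ((s : ℤ) - 1) * X + C 1 : ℤ[X]) ≠ 0 := by
    intro h
    rw [h, natDegree_zero] at h1
    omega
  rw [e, leadingCoeff_add_of_degree_lt, leadingCoeff_mul, h2, neg_one_mul]
  apply degree_lt_degree
  rw [natDegree_mul h4 hF, h1, h3]
  omega

/-- The leading coefficient of `β + X (N + s F)`, `F = -X + ..`. -/
theorem lead_q {N s : ℕ} {F : ℤ[X]} (hs : 1 ≤ s) (F0 : F.coeff 0 = 0) (F1 : F.coeff 1 = -1) :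
    ((1 - X - X ^ 2) * 1 + X * (C (N : ℤ) + C (s : ℤ) * F)).leadingCoeff =
      -(1 + (s : ℤ)) ∨
    ((1 - X - X ^ 2) * 1 + X * (C (N : ℤ) + C (s : ℤ) * F)).leadingCoeff =
      s * F.leadingCoeff := by
  have hF : F ≠ 0 := by
    rintro rfl
    simp at F1
  have hm : 1 ≤ F.natDegree := by
    by_contra hcon
    apply hF
    rw [eq_C_of_natDegree_eq_zero (by omega : F.natDegree = 0), F0, map_zero]
  rcases Nat.lt_or_ge 1 F.natDegree with h1 | h1
  · right
    have e : (1 - X - X ^ 2) * 1 + X * (C (N : ℤ) + C (s : ℤ) * F) =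
        (C (-1) * X ^ 2 + C ((N : ℤ) - 1) * X + C 1) + C (s : ℤ) * (X * F) := by
      simp only [map_sub, map_neg, map_one]
      ring
    have h3 : (C (-1) * X ^ 2 + C ((N : ℤ) - 1) * X + C 1 : ℤ[X]).natDegree = 2 :=
      natDegree_quadratic (by norm_num)
    have hs0 : (s : ℤ) ≠ 0 := by exact_mod_cast (by omega : s ≠ 0)
    rw [e, leadingCoeff_add_of_degree_lt, leadingCoeff_mul, leadingCoeff_C, leadingCoeff_mul,
      leadingCoeff_X, one_mul]
    apply degree_lt_degree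
    rw [natDegree_C_mul hs0, natDegree_X_mul hF, h3]
    omega
  · left
    have e1 : F = C (-1) * X := by
      rw [eq_X_add_C_of_natDegree_le_one (by omega : F.natDegree ≤ 1), F0, F1, map_zero, add_zero]
    have e : (1 - X - X ^ 2) * 1 + X * (C (N : ℤ) + C (s : ℤ) * F) =
        C (-(1 + (s : ℤ))) * X ^ 2 + C ((N : ℤ) - 1) * X + C 1 := by
      rw [e1]
      simp only [map_sub, map_neg, map_one, map_add]
      ring
    rw [e]
    exact leadingCoeff_quadratic (by omega)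

/-! ## Special cases -/

/-- The tail of second order. -/
theorem tail_two {F : ℤ[X]} (F0 : F.coeff 0 = 0) (Fk : ∀ k, |F.coeff k| ≤ 1) {x : ℝ}
    (hx0 : 0 < x) (hx1 : x < 1) :
    |(1 - x) * ((aeval x F : ℝ) - F.coeff 1 * x - F.coeff 2 * x ^ 2)| ≤ x ^ 3 := by
  have e1 : F = X * F.divX := by
    conv_lhs => rw [(X_mul_divX_add F).symm, F0, map_zero, add_zero]
  have e2 : F.divX = X * F.divX.divX + C (F.coeff 1) := by
    conv_lhs => rw [(X_mul_divX_add F.divX).symm, coeff_divX]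
  have e3 : F.divX.divX = X * F.divX.divX.divX + C (F.coeff 2) := by
    conv_lhs => rw [(X_mul_divX_add F.divX.divX).symm, coeff_divX, coeff_divX]
  have e4 : (aeval x F : ℝ) - F.coeff 1 * x - F.coeff 2 * x ^ 2 =
      x ^ 3 * aeval x F.divX.divX.divX := by
    conv_lhs => rw [e1, e2, e3]
    simp only [map_mul, map_add, aeval_X, aC]
    rw [← e3, ← e2, ← e1]
    ring
  have h1 := abs_aeval_le (G := F.divX.divX.divX)
    (fun k => by rw [coeff_divX, coeff_divX, coeff_divX]; exact Fk _) hx0.le hx1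
  have h2 : 0 < 1 - x := by linarith
  rw [e4, abs_mul, abs_mul, abs_of_pos h2, abs_of_pos (pow_pos hx0 3)]
  calc (1 - x) * (x ^ 3 * |(aeval x F.divX.divX.divX : ℝ)|) ≤ (1 - x) * (x ^ 3 * (1 - x)⁻¹) := by
        apply mul_le_mul_of_nonneg_left _ h2.le
        exact mul_le_mul_of_nonneg_left h1 (pow_pos hx0 3).le
    _ = x ^ 3 := by
      field_simp

variable {s s' : ℕ} {F F' : ℤ[X]}

/-- `g = 1`, `g' = 1 + F'`, `F'_1 = 0`, `F_1 = -1`. -/
theorem s1 (h : Dat N d (C (N : ℤ) + C (s : ℤ) * F) 1 (C (N : ℤ) + C (s' : ℤ) * F') (1 + F') x y)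
    (hs1 : 1 ≤ s) (hs : s + 2 ≤ N) (F0 : F.coeff 0 = 0) (Fk : ∀ k, |F.coeff k| ≤ 1)
    (F0' : F'.coeff 0 = 0) (Fk' : ∀ k, |F'.coeff k| ≤ 1) (hF : F.coeff 1 = -1)
    (hF' : F'.coeff 1 = 0) : False := by
  have hx := h.hx
  have x0 := h.x0
  obtain ⟨-, r2, r3⟩ := rels h (by simp) (by simp [F0']) (by simp [F0]) (by simp [F0'])
  simp only [coeff_one, coeff_add, coeff_C_mul, coeff_C, hF, hF'] at r2 r3
  norm_num at r2 r3
  have k2 := abs_le.mp (Fk 2)
  have k2' := abs_le.mp (Fk' 2)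
  have hd := h.d1
  have hF'0 : F' ≠ 0 := by
    rintro rfl
    simp at r2 r3
    have e1 : (s : ℤ) = d := by omega
    have e2 : (d : ℤ) * (F.coeff 2 + (N - 1)) = 0 := by
      rw [← e1] at r3 ⊢
      linear_combination r3
    rcases mul_eq_zero.mp e2 with e3 | e3 <;> omega
  have l1 := lead_u (N := N) (s := s') F0' hF'0
  have l2 := lead_c d ((1 - X - X ^ 2) * 1 + X * (C (N : ℤ) + C (s : ℤ) * F))
  rw [h.hE, l1] at l2
  have hl' : F'.leadingCoeff ≠ 0 := leadingCoeff_ne_zero.mpr hF'0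
  have k' := abs_le.mp (Fk' F'.natDegree)
  have k := abs_le.mp (Fk F.natDegree)
  rw [coeff_natDegree] at k k'
  have hs' : s = 1 := by
    rcases lead_q (N := N) hs1 F0 hF with h1 | h1
    · rw [h1] at l2
      omega
    · rw [h1] at l2
      have h2 : |(s : ℤ) * F.leadingCoeff| ≤ 1 := by
        rw [← l2, abs_neg]
        exact abs_le.mpr k'
      have h3 : F.leadingCoeff ≠ 0 := by
        intro h4
        rw [h4, mul_zero] at l2
        omega
      rw [abs_mul] at h2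
      have h4 : 1 ≤ |F.leadingCoeff| := Int.one_le_abs h3
      have h5 : (s : ℤ) ≤ 1 := by
        have : |(s : ℤ)| = s := abs_of_nonneg (by positivity)
        rw [this] at h2
        nlinarith
      omega
  subst hs'
  have hN : (3 : ℝ) ≤ N := by exact_mod_cast (by omega : 3 ≤ N)
  have hx4 : x ≤ 1 / 4 := by nlinarith
  have h1 := h.A1
  rw [map_add, map_mul, aC, aC, map_add, map_one] at h1
  push_cast at h1
  have t1 := (abs_le.mp (tail_one F0 Fk x0 (by linarith))).1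
  rw [hF] at t1
  push_cast at t1
  have t2 := (abs_le.mp (tail_two F0' Fk' x0 (by linarith))).2
  rw [hF'] at t2
  have hc := bern x d
  have h2 : 1 - 2 * x ≤ (1 - x) * (x * (N + 1 * (aeval x F : ℝ))) := by
    have e1 : x * (N : ℝ) = 1 - x := by linarith
    nlinarith [mul_le_mul_of_nonneg_left t1 x0.le]
  have hd2 : (d = 1 ∧ F'.coeff 2 = 0) ∨ (d = 2 ∧ F'.coeff 2 = 1) := by omega
  have hb : 0 < 1 - x - x ^ 2 := by nlinarith
  have h3 : (1 + d * x ^ 2) * (1 - 2 * x) <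
      (1 - x - x ^ 2) * ((1 - x) * (1 + (aeval x F' : ℝ))) := by
    have h4 : (1 + d * x ^ 2) * (1 - 2 * x) ≤
        (1 + x ^ 2) ^ d * ((1 - x) * (x * (N + 1 * (aeval x F : ℝ)))) :=
      mul_le_mul hc h2 (by linarith) (by positivity)
    have h5 := mul_lt_mul_of_pos_left h1 (by linarith : (0 : ℝ) < 1 - x)
    nlinarith
  rcases hd2 with ⟨rfl, h4⟩ | ⟨rfl, h4⟩
  · rw [h4] at t2
    push_cast at t2 h3
    have h5 : (1 - x) * (1 + (aeval x F' : ℝ)) ≤ 1 - x + x ^ 3 := by linarith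
    have h6 := mul_le_mul_of_nonneg_left h5 hb.le
    have h7 : 0 ≤ x ^ 2 * ((1 - 4 * x) + x ^ 2 + x ^ 3) := by
      have : 0 ≤ 1 - 4 * x := by linarith
      positivity
    nlinarith
  · rw [h4] at t2
    push_cast at t2 h3
    have h5 : (1 - x) * (1 + (aeval x F' : ℝ)) ≤ 1 - x + x ^ 2 := by nlinarith
    have h6 := mul_le_mul_of_nonneg_left h5 hb.le
    have h7 : 0 ≤ x ^ 2 * ((1 - 4 * x) + x ^ 2) := by
      have : 0 ≤ 1 - 4 * x := by linarith
      positivity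
    nlinarith

/-- `g = 1`, `P = N + t X`, `g' = 1 + F'`, `F'_1 = 0`. -/
theorem s2 {t : ℤ} (h : Dat N d (C (N : ℤ) + C t * X ^ 1) 1 (C (N : ℤ) + C (s' : ℤ) * F') (1 + F') x y)
    (ht : t ≤ -2) (F0' : F'.coeff 0 = 0) (Fk' : ∀ k, |F'.coeff k| ≤ 1)
    (hF' : F'.coeff 1 = 0) : False := by
  obtain ⟨-, r2, r3⟩ := rels h (by simp) (by simp [F0']) (by simp) (by simp [F0'])
  simp only [coeff_one, coeff_add, coeff_C_mul, coeff_C, coeff_X_pow, hF'] at r2 r3
  norm_num at r2 r3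
  have hd := h.d1
  have hn := h.n2
  have hF'0 : F' ≠ 0 := by
    rintro rfl
    simp at r3
    rcases r3 with r3 | r3 <;> omega
  have l1 := lead_u (N := N) (s := s') F0' hF'0
  have l2 := lead_c d ((1 - X - X ^ 2) * 1 + X * (C (N : ℤ) + C t * X ^ 1))
  have e : (1 - X - X ^ 2) * 1 + X * (C (N : ℤ) + C t * X ^ 1) =
      C (t - 1) * X ^ 2 + C ((N : ℤ) - 1) * X + C 1 := by
    simp only [map_sub, map_one]
    ring
  have l3 := leadingCoeff_quadratic (R := ℤ) (a := t - 1) (b := (N : ℤ) - 1) (c := 1) (by omega)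
  rw [h.hE, l1, e, l3] at l2
  have k' := abs_le.mp (Fk' F'.natDegree)
  rw [coeff_natDegree] at k'
  omega

/-- `g' = 1` and `β ≤ x P`. -/
theorem s3a (h : Dat N d P g P' 1 x y) (h1 : (1 - x - x ^ 2) * 1 ≤ x * (aeval x P : ℝ)) :
    False := by
  have h2 := h.A1
  rw [map_one] at h2
  have h3 := c_ge (t := x) h.d1
  have x0 := h.x0
  have hN : (2 : ℝ) ≤ N := by exact_mod_cast h.n2
  have hx := h.hx
  have hx3 : x ≤ 1 / 3 := by nlinarith
  have h4 : 0 < 1 - x - x ^ 2 := by nlinarith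
  have h5 : 0 ≤ x * (aeval x P : ℝ) := by linarith
  nlinarith [mul_le_mul_of_nonneg_right h3 h5, mul_nonneg (sq_nonneg x) h5]

/-- `g = 1`, `P = N + t X`, `g' = 1`, `P' = N + s' F'`. -/
theorem s3 {t : ℤ} (h : Dat N d (C (N : ℤ) + C t * X ^ 1) 1 (C (N : ℤ) + C (s' : ℤ) * F') 1 x y)
    (hs' : s' + 2 ≤ N) (F0' : F'.coeff 0 = 0) (Fk' : ∀ k, |F'.coeff k| ≤ 1) : False := by
  obtain ⟨-, r2, r3⟩ := rels h (by simp) (by simp) (by simp) (by simp [F0'])
  simp only [coeff_one, coeff_add, coeff_C_mul, coeff_C, coeff_X_pow] at r2 r3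
  norm_num at r2 r3
  have hd := h.d1
  have k' := abs_le.mp (Fk' 2)
  have h1 : (1 : ℤ) * (N - 1) ≤ d * (N - 1) :=
    mul_le_mul_of_nonneg_right (by exact_mod_cast hd) (by omega)
  have h2 : (s' : ℤ) * F'.coeff 2 ≤ s' * 1 := mul_le_mul_of_nonneg_left k'.2 (by positivity)
  omega

/-- `g = g' = 1`, both of UF type, `F_1 = -1`. -/
theorem s4 (h : Dat N d (C (N : ℤ) + C (s : ℤ) * F) 1 (C (N : ℤ) + C (s' : ℤ) * F') 1 x y)
    (hs1 : 1 ≤ s) (hs : s + 2 ≤ N) (F0 : F.coeff 0 = 0) (Fk : ∀ k, |F.coeff k| ≤ 1)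
    (hs' : s' + 2 ≤ N) (F0' : F'.coeff 0 = 0) (Fk' : ∀ k, |F'.coeff k| ≤ 1)
    (hF : F.coeff 1 = -1) : False := by
  obtain ⟨-, r2, r3⟩ := rels h (by simp) (by simp) (by simp [F0]) (by simp [F0'])
  simp only [coeff_one, coeff_add, coeff_C_mul, coeff_C, hF] at r2 r3
  norm_num at r2 r3
  have hd := h.d1
  have k' := abs_le.mp (Fk' 2)
  have k := abs_le.mp (Fk 2)
  have h2 : (s' : ℤ) * F'.coeff 2 ≤ s' * 1 := mul_le_mul_of_nonneg_left k'.2 (by positivity)
  have h3 : (s : ℤ) * (-1) ≤ s * F.coeff 2 := mul_le_mul_of_nonneg_left k.1 (by positivity)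
  have hd1 : d = 1 := by
    by_contra hne
    have h1 : (2 : ℤ) * (N - 1) ≤ d * (N - 1) :=
      mul_le_mul_of_nonneg_right (by exact_mod_cast (by omega : 2 ≤ d)) (by omega)
    omega
  subst hd1
  have hF2 : F.coeff 2 = -1 := by
    by_contra hne
    have h4 : (0 : ℤ) ≤ s * F.coeff 2 := mul_nonneg (by positivity) (by omega)
    push_cast at r3
    omega
  have x0 := h.x0
  have y0 := h.y0
  have hx := h.hx
  have hy := h.hy
  have hN : (3 : ℝ) ≤ N := by exact_mod_cast (by omega : 3 ≤ N)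
  have hx4 : x ≤ 1 / 4 := by nlinarith
  rcases Nat.lt_or_ge s 2 with h4 | h4
  · have h5 : s = 1 := by omega
    subst h5
    have h1 := h.A1
    rw [map_add, map_mul, aC, aC, map_one, pow_one] at h1
    push_cast at h1
    have t1 := (abs_le.mp (tail_one F0 Fk x0 (by linarith))).1
    rw [hF] at t1
    push_cast at t1
    have h2 : 1 - 2 * x ≤ (1 - x) * (x * (N + 1 * (aeval x F : ℝ))) := by
      have e1 : x * (N : ℝ) = 1 - x := by linarith
      nlinarith [mul_le_mul_of_nonneg_left t1 x0.le]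
    have h6 := mul_lt_mul_of_pos_left h1 (by linarith : (0 : ℝ) < 1 - x)
    have h7 := mul_le_mul_of_nonneg_left h2 (by positivity : (0 : ℝ) ≤ 1 + x ^ 2)
    have h8 : 0 ≤ x ^ 2 * (1 - 3 * x) := mul_nonneg (sq_nonneg x) (by linarith)
    nlinarith
  · have hN4 : (4 : ℝ) ≤ N := by exact_mod_cast (by omega : 4 ≤ N)
    have hy4 : y ≤ 1 / 4 := by nlinarith
    have hs2 : (2 : ℝ) ≤ s := by exact_mod_cast h4
    have h1 := h.B1
    rw [map_add, map_mul, aC, aC, map_one, pow_one] at h1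
    push_cast at h1
    have t1 := (abs_le.mp (tail_two F0 Fk y0 (by linarith))).2
    rw [hF, hF2] at t1
    push_cast at t1
    have h5 : (1 - y) * (aeval y F : ℝ) ≤ -y + 2 * y ^ 3 := by nlinarith
    have h6 : -y + 2 * y ^ 3 ≤ 0 := by nlinarith [mul_pos y0 y0]
    have h7 : (1 - y) * (y * (N + s * (aeval y F : ℝ))) ≤ 1 - y - 2 * y ^ 2 + 4 * y ^ 4 := by
      have e1 : y * (N : ℝ) = 1 := hy
      have h8 : (s : ℝ) * ((1 - y) * (aeval y F : ℝ)) ≤ 2 * (-y + 2 * y ^ 3) := by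
        have h9 := mul_le_mul_of_nonneg_left h5 (by linarith : (0 : ℝ) ≤ s)
        nlinarith [mul_nonneg (by linarith : (0 : ℝ) ≤ s - 2)
          (by linarith : (0 : ℝ) ≤ -(-y + 2 * y ^ 3))]
      have h9 := mul_le_mul_of_nonneg_left h8 y0.le
      nlinarith
    have h8 := mul_le_mul_of_nonneg_left h1 (by linarith : (0 : ℝ) ≤ 1 - y)
    have h9 := mul_le_mul_of_nonneg_left h7 (by positivity : (0 : ℝ) ≤ 1 + y ^ 2)
    have h10 : 0 < y ^ 3 * (2 - 2 * y - 4 * y ^ 3) := by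
      apply mul_pos (pow_pos y0 3)
      have : y ^ 3 ≤ (1 / 4) ^ 3 := pow_le_pow_left₀ y0.le hy4 3
      nlinarith
    nlinarith

/-- `g = 1`, `P = N + t X`, `g' = 1 + r' X^k'`, `k' ≥ 3` odd. -/
theorem s5 {t t' r' : ℤ} {k' : ℕ}
    (h : Dat N d (C (N : ℤ) + C t * X ^ 1) 1 (C (N : ℤ) + C t' * X ^ k') (1 + C r' * X ^ k') x y)
    (ht : t ≤ -1) (hk : 3 ≤ k') (hodd : k' % 2 = 1) (hr : r' ≠ 0) : False := by
  have e : (1 - X - X ^ 2) * 1 + X * (C (N : ℤ) + C t * X ^ 1) =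
      C (t - 1) * X ^ 2 + C ((N : ℤ) - 1) * X + C 1 := by
    simp only [map_sub, map_one]
    ring
  have e1 : (C (t - 1) * X ^ 2 + C ((N : ℤ) - 1) * X + C 1 : ℤ[X]).natDegree = 2 :=
    natDegree_quadratic (by omega)
  have e2 : (C (t - 1) * X ^ 2 + C ((N : ℤ) - 1) * X + C 1 : ℤ[X]) ≠ 0 := by
    intro h0
    rw [h0, natDegree_zero] at e1
    omega
  have h1 := congrArg natDegree h.hE
  rw [e, natDegree_mul (monic_c d).ne_zero e2, deg_c, e1] at h1
  have e3 : (1 - X - X ^ 2) * (1 + C r' * X ^ k') + X * (C (N : ℤ) + C t' * X ^ k') =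
      (C (-1) * X ^ 2 + C ((N : ℤ) - 1) * X + C 1) +
      (C (-r') * X ^ 2 + C (t' - r') * X + C r') * X ^ k' := by
    simp only [map_sub, map_neg, map_one]
    ring
  have e4 : (C (-1) * X ^ 2 + C ((N : ℤ) - 1) * X + C 1 : ℤ[X]).natDegree = 2 :=
    natDegree_quadratic (by norm_num)
  have e5 : (C (-r') * X ^ 2 + C (t' - r') * X + C r' : ℤ[X]).natDegree = 2 :=
    natDegree_quadratic (by omega)
  have e6 : (C (-r') * X ^ 2 + C (t' - r') * X + C r' : ℤ[X]) ≠ 0 := by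
    intro h0
    rw [h0, natDegree_zero] at e5
    omega
  have e7 : ((C (-r') * X ^ 2 + C (t' - r') * X + C r') * X ^ k' : ℤ[X]).natDegree = 2 + k' := by
    rw [natDegree_mul_X_pow k' e6, e5]
  rw [e3, natDegree_add_eq_right_of_natDegree_lt (by rw [e4, e7]; omega), e7] at h1
  omega

/-- `g = 1`, `P = N + s F`, `g' = 1 + r' X^k'`, `k' ≥ 3`. -/
theorem s6 {t' r' : ℤ} {k' : ℕ}
    (h : Dat N d (C (N : ℤ) + C (s : ℤ) * F) 1 (C (N : ℤ) + C t' * X ^ k') (1 + C r' * X ^ k') x y)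
    (hs1 : 1 ≤ s) (hs : s + 2 ≤ N) (F0 : F.coeff 0 = 0) (Fk : ∀ k, |F.coeff k| ≤ 1)
    (hk : 3 ≤ k')
    (hi : (k' % 4 = 1 ∧ 2 * r' = -(N - 1) ∧ t' = r' + 2) ∨
      (k' % 4 = 3 ∧ 2 * r' = N - 1 ∧ t' = r' - 2)) : False := by
  have n0 : ¬ (0 : ℕ) = k' := by omega
  have n1 : ¬ (1 : ℕ) = k' := by omega
  have n2 : ¬ (2 : ℕ) = k' := by omega
  obtain ⟨-, r2, r3⟩ := rels h (by simp) (by simp [coeff_X_pow, n0]) (by simp [F0])
    (by simp [coeff_X_pow, n0])
  simp only [coeff_one, coeff_add, coeff_C_mul, coeff_C, coeff_X_pow, if_neg n1, if_neg n2]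
    at r2 r3
  norm_num at r2 r3
  have hd := h.d1
  have k1 := abs_le.mp (Fk 1)
  have k2 := abs_le.mp (Fk 2)
  have hF1 : F.coeff 1 = -1 := by
    by_contra hne
    have h4 : (0 : ℤ) ≤ s * F.coeff 1 := mul_nonneg (by positivity) (by omega)
    omega
  rw [hF1] at r2
  have hsd : s = d := by omega
  subst hsd
  have h5 : (s : ℤ) * (F.coeff 2 + (N - 1)) = if 3 = k' then r' else 0 := by
    rw [← r3]
    ring
  by_cases h3 : 3 = k'
  · subst h3
    rw [if_pos rfl] at h5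
    have hr' : 2 * r' = N - 1 := by
      rcases hi with ⟨h6, -⟩ | ⟨-, h6, -⟩
      · norm_num at h6
      · exact h6
    have h6 : (1 : ℤ) * (F.coeff 2 + (N - 1)) ≤ s * (F.coeff 2 + (N - 1)) :=
      mul_le_mul_of_nonneg_right (by exact_mod_cast hs1) (by omega)
    have hN3 : N = 3 := by omega
    have hs11 : s = 1 := by omega
    subst hN3 hs11
    have hr1 : r' = 1 := by omega
    subst hr1
    have hx := h.hx
    have hx4 : x = 1 / 4 := by
      push_cast at hx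
      linarith
    have h1 := h.A1
    rw [map_add, map_mul, aC, aC, map_add, map_mul, map_pow, aeval_X, aC, map_one, pow_one] at h1
    push_cast at h1
    have t1 := (abs_le.mp (tail_one F0 Fk h.x0 (by rw [hx4]; norm_num))).1
    rw [hF1] at t1
    push_cast at t1
    rw [hx4] at h1 t1
    nlinarith
  · rw [if_neg h3] at h5
    rcases mul_eq_zero.mp h5 with h6 | h6
    · omega
    · omega

/-- both of UF type, `F_1 = F'_1 = 1`. -/
theorem s7 (h : Dat N d (C (N : ℤ) + C (s : ℤ) * F) (1 + F) (C (N : ℤ) + C (s' : ℤ) * F')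
      (1 + F') x y)
    (hs1 : 1 ≤ s) (hs : s + 2 ≤ N) (F0 : F.coeff 0 = 0) (Fk : ∀ k, |F.coeff k| ≤ 1)
    (hs1' : 1 ≤ s') (hs' : s' + 2 ≤ N) (F0' : F'.coeff 0 = 0) (Fk' : ∀ k, |F'.coeff k| ≤ 1)
    (hF : F.coeff 1 = 1) (hF' : F'.coeff 1 = 1) : False := by
  have y0 := h.y0
  have hy := h.hy
  rcases Nat.lt_or_ge N 4 with h4 | h4
  · have hN : N = 3 := by omega
    have h5 : s = 1 := by omega
    have h6 : s' = 1 := by omega
    subst hN h5 h6
    have h7 := congrArg (fun Q => eval (1 : ℤ) Q) h.hE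
    simp only [eval_mul, eval_add, eval_sub, eval_pow, eval_one, eval_X, eval_C] at h7
    have h8 : (2 : ℤ) ^ d * 2 = 2 := by
      push_cast at h7
      norm_num at h7
      linear_combination h7
    have h9 : (2 : ℤ) ^ d = 1 := by omega
    have h10 : (2 : ℤ) ^ 1 ≤ 2 ^ d := pow_le_pow_right₀ (by norm_num) h.d1
    omega
  · have hN4 : (4 : ℝ) ≤ N := by exact_mod_cast h4
    have hy4 : y ≤ 1 / 4 := by nlinarith
    have key : ∀ (s : ℕ) (F : ℤ[X]), 1 ≤ s → s + 2 ≤ N → F.coeff 0 = 0 → (∀ k, |F.coeff k| ≤ 1) →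
        F.coeff 1 = 1 →
        y * aeval y (C (N : ℤ) + C (s : ℤ) * F) < (1 - y ^ 2) * (aeval y (1 + F) : ℝ) := by
      intro s F hs1 hs F0 Fk hF
      have h1 := lo_one F0 Fk y0 (by linarith) hF
      have hs2 : (s : ℝ) + 2 ≤ N := by exact_mod_cast hs
      have hsy : (s : ℝ) * y ≤ 1 - 2 * y := by nlinarith
      rw [map_add, map_mul, aC, aC, map_add, map_one]
      push_cast
      have h2 : 0 ≤ (aeval y F : ℝ) := by
        have h3 : 0 ≤ y * (1 - 2 * y) := mul_nonneg y0.le (by linarith)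
        by_contra hcon
        push Not at hcon
        nlinarith [mul_pos (by linarith : (0 : ℝ) < 1 - y) (by linarith : 0 < -(aeval y F : ℝ))]
      have h3 : (2 * y - y ^ 2) * (aeval y F : ℝ) ≤ (1 - y ^ 2 - s * y) * (aeval y F : ℝ) :=
        mul_le_mul_of_nonneg_right (by linarith) h2
      have h5 : y ^ 2 * (1 - y) < (1 - y) * ((2 * y - y ^ 2) * (aeval y F : ℝ)) := by
        have h6 := mul_le_mul_of_nonneg_left h1 (by nlinarith : (0 : ℝ) ≤ 2 * y - y ^ 2)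
        have h7 : 0 < y ^ 2 * ((1 - 4 * y) + 2 * y ^ 2) := by
          have : 0 ≤ 1 - 4 * y := by linarith
          positivity
        nlinarith
      have h6 : y ^ 2 < (2 * y - y ^ 2) * (aeval y F : ℝ) := by
        have : (1 - y) * y ^ 2 < (1 - y) * ((2 * y - y ^ 2) * (aeval y F : ℝ)) := by linarith
        exact lt_of_mul_lt_mul_left this (by linarith)
      nlinarith
    exact not_b h (key s F hs1 hs F0 Fk hF) (key s' F' hs1' hs' F0' Fk' hF')

/-- `g = 1 + X`, `P = N + t X`, `g' = 1 + F'`, `F'_1 = 1`. -/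
theorem s8 {P : ℤ[X]} (h : Dat N d P (1 + C 1 * X ^ 1) (C (N : ℤ) + C (s' : ℤ) * F') (1 + F') x y)
    (hs1' : 1 ≤ s') (hs' : s' + 2 ≤ N) (F0' : F'.coeff 0 = 0) (Fk' : ∀ k, |F'.coeff k| ≤ 1)
    (hF' : F'.coeff 1 = 1) : False := by
  have y0 := h.y0
  have hy := h.hy
  have hN : (3 : ℝ) ≤ N := by exact_mod_cast (by omega : 3 ≤ N)
  have hy3 : y ≤ 1 / 3 := by nlinarith
  have h1 := h.B2
  rw [map_add, map_mul, map_pow, aeval_X, aC, map_one, map_add, map_mul, aC, aC] at h1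
  push_cast at h1
  have t1 := (abs_le.mp (tail_one F0' Fk' y0 (by linarith))).2
  rw [hF'] at t1
  push_cast at t1
  have hs2 : (s' : ℝ) + 2 ≤ N := by exact_mod_cast hs'
  have hsy : (s' : ℝ) * y ≤ 1 - 2 * y := by nlinarith
  have h2 : (1 - y) * (s' * y * (aeval y F' : ℝ)) ≤ y * (1 - 2 * y) := by
    have h3 : (1 - y) * (aeval y F' : ℝ) ≤ y := by nlinarith
    have h4 := mul_le_mul_of_nonneg_left h3 (by positivity : (0 : ℝ) ≤ s' * y)
    nlinarith
  have hc := c_ge (t := y) h.d1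
  have h3 : (1 + y ^ 2) * ((1 - y ^ 2) * (1 + 1 * y ^ 1)) ≤
      (1 + y ^ 2) ^ d * ((1 - y ^ 2) * (1 + 1 * y ^ 1)) := by
    apply mul_le_mul_of_nonneg_right hc
    have : 0 ≤ 1 - y ^ 2 := by nlinarith
    positivity
  have h4 := mul_le_mul_of_nonneg_left (h3.trans h1) (by linarith : (0 : ℝ) ≤ 1 - y)
  have h5 : 0 < y ^ 2 * (1 - y ^ 2 + y ^ 4) := by
    have : 0 < 1 - y ^ 2 := by nlinarith
    positivity
  nlinarith

/-! ## The theorem -/

theorem co (a b : ℤ) (k n : ℕ) :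
    (C a + C b * X ^ k : ℤ[X]).coeff n = (if n = 0 then a else 0) + if n = k then b else 0 := by
  rw [coeff_add, coeff_C, coeff_C_mul, coeff_X_pow]
  congr 1
  split_ifs <;> simp

theorem co1 (b : ℤ) (k n : ℕ) :
    (1 + C b * X ^ k : ℤ[X]).coeff n = (if n = 0 then 1 else 0) + if n = k then b else 0 := by
  rw [← co 1 b k n, map_one]

theorem ev (t : ℝ) (a b : ℤ) (k : ℕ) : (aeval t (C a + C b * X ^ k) : ℝ) = a + b * t ^ k := by
  rw [map_add, map_mul, map_pow, aeval_X, aC, aC]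

theorem ev1 (t : ℝ) (b : ℤ) (k : ℕ) : (aeval t (1 + C b * X ^ k) : ℝ) = 1 + b * t ^ k := by
  rw [map_add, map_mul, map_pow, aeval_X, aC, map_one]

theorem evF (t : ℝ) (a b : ℤ) (F : ℤ[X]) :
    (aeval t (C a + C b * F) : ℝ) = a + b * aeval t F := by
  rw [map_add, map_mul, aC, aC]

theorem main (h : Dat N d P g P' g' x y) (hB : Ty N P g) (hB' : Ty N P' g') : False := by
  have hx := h.hx
  have x0 := h.x0
  have n2 := h.n2
  have hd := h.d1
  -- the first point for the three types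
  have aP : ∀ {k : ℕ} {t r : ℤ}, |t| + 1 ≤ N → |1 + r| ≤ N + t → |1 - r| ≤ N - t →
      ((k = 1 ∧ r ≤ -1) ∨ (k = 1 ∧ r = 0 ∧ -1 ≤ t) ∨ (k = 2 ∧ r ≤ 0) ∨ 3 ≤ k) →
      (1 - x - x ^ 2) * (aeval x (1 + C r * X ^ k) : ℝ) ≤
        x * aeval x (C (N : ℤ) + C t * X ^ k) := by
    intro k t r e1 e2 e3 e4
    rw [ev, ev1]
    exact_mod_cast aB hx x0 n2 e1 e2 e3 e4
  have aF : ∀ {s : ℕ} {F : ℤ[X]}, 1 ≤ s → s + 2 ≤ N → F.coeff 0 = 0 → (∀ k, |F.coeff k| ≤ 1) →
      F.coeff 1 ≤ 0 → (1 - x - x ^ 2) * (aeval x (1 + F) : ℝ) ≤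
        x * aeval x (C (N : ℤ) + C (s : ℤ) * F) := by
    intro s F e1 e2 e3 e4 e5
    rw [evF, map_add, map_one]
    exact_mod_cast aU hx x0 e1 e2 e3 e4 e5
  have aG : ∀ {s : ℕ} {F : ℤ[X]}, 1 ≤ s → s + 2 ≤ N → F.coeff 0 = 0 → (∀ k, |F.coeff k| ≤ 1) →
      0 ≤ F.coeff 1 → (1 - x - x ^ 2) * (aeval x (1 : ℤ[X]) : ℝ) ≤
        x * aeval x (C (N : ℤ) + C (s : ℤ) * F) := by
    intro s F e1 e2 e3 e4 e5
    rw [evF, map_one]
    exact_mod_cast aQ hx x0 e1 e2 e3 e4 e5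
  rcases hB' with ⟨k', t', r', hk', rfl, rfl, ht', h1', h2'⟩ | ⟨s', F', hs1', hs', F0', Fk', rfl, hg'⟩
  · -- `X'` binomials
    have n0' : ¬ (0 : ℕ) = k' := by omega
    have hi := bin_i hd ht' h.hE
    have ev' : (k' = 1 ∧ r' ≤ -1) ∨ 3 ≤ k' := by omega
    have a' := aP (k := k') ht' h1' h2' (by omega)
    rcases hB with ⟨k, t, r, hk, rfl, rfl, ht, h1, h2⟩ | ⟨s, F, hs1, hs, F0, Fk, rfl, hg⟩
    · have n0 : ¬ (0 : ℕ) = k := by omega
      obtain ⟨r1, r2, -⟩ := rels h (by simp [n0]) (by simp [n0']) (by simp [n0])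
        (by simp [n0'])
      simp only [co, co1] at r1 r2
      norm_num at r1 r2
      by_cases hc : (k = 1 ∧ r ≤ -1) ∨ (k = 1 ∧ r = 0 ∧ -1 ≤ t) ∨ (k = 2 ∧ r ≤ 0) ∨ 3 ≤ k
      · exact not_a h (aP ht h1 h2 hc) a'
      · rcases ev' with ⟨rfl, hr'⟩ | hk3
        · rw [if_pos rfl] at r1
          split_ifs at r1 <;> omega
        · rw [if_neg (by omega : ¬ 1 = k')] at r1 r2
          rw [if_neg (by omega : ¬ 2 = k')] at r2
          have hk12 : k = 1 ∨ k = 2 := by omega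
          rcases hk12 with rfl | rfl
          · rw [if_pos rfl] at r1 r2
            rw [if_neg (by omega : ¬ 2 = 1)] at r2
            subst r1
            rw [map_zero, zero_mul, add_zero] at h
            exact s5 h (by omega) hk3 (by omega) (by omega)
          · rw [if_pos rfl, if_neg (by omega : ¬ 1 = 2)] at r2
            omega
    · rcases hg with rfl | rfl
      · obtain ⟨r1, -, -⟩ := rels h (by simp [F0]) (by simp [n0']) (by simp [F0])
          (by simp [n0'])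
        rw [coeff_add, coeff_one, co1] at r1
        norm_num at r1
        have hF1 : F.coeff 1 ≤ 0 := by
          rw [r1]
          split_ifs <;> omega
        exact not_a h (aF hs1 hs F0 Fk hF1) a'
      · rcases ev' with ⟨rfl, hr'⟩ | hk3
        · obtain ⟨r1, -, -⟩ := rels h (by simp) (by simp) (by simp [F0])
            (by simp)
          rw [coeff_one, co1] at r1
          norm_num at r1
          omega
        · exact s6 h hs1 hs F0 Fk hk3 hi
  · rcases hg' with rfl | rfl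
    · -- `X'` UF, `g' = 1 + F'`
      rcases coeff_cases Fk' with hF1' | hF1'
      · -- `F'_1 = 1`
        rcases hB with ⟨k, t, r, hk, rfl, rfl, ht, h1, h2⟩ | ⟨s, F, hs1, hs, F0, Fk, rfl, hg⟩
        · have n0 : ¬ (0 : ℕ) = k := by omega
          obtain ⟨r1, -, -⟩ := rels h (by simp [n0]) (by simp [F0']) (by simp [n0])
            (by simp [F0'])
          rw [co1, coeff_add, coeff_one, hF1'] at r1
          norm_num at r1
          by_cases hk1 : 1 = k
          · subst hk1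
            rw [if_pos rfl] at r1
            subst r1
            exact s8 h hs1' hs' F0' Fk' hF1'
          · rw [if_neg hk1] at r1
            omega
        · rcases hg with rfl | rfl
          · obtain ⟨r1, -, -⟩ := rels h (by simp [F0]) (by simp [F0']) (by simp [F0])
              (by simp [F0'])
            rw [coeff_add, coeff_add, hF1'] at r1
            exact s7 h hs1 hs F0 Fk hs1' hs' F0' Fk' (by linarith) hF1'
          · obtain ⟨r1, -, -⟩ := rels h (by simp) (by simp [F0']) (by simp [F0])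
              (by simp [F0'])
            rw [coeff_add, coeff_one, hF1'] at r1
            norm_num at r1
      · -- `F'_1 ≤ 0`
        have a' := aF hs1' hs' F0' Fk' hF1'
        rcases hB with ⟨k, t, r, hk, rfl, rfl, ht, h1, h2⟩ | ⟨s, F, hs1, hs, F0, Fk, rfl, hg⟩
        · by_cases hc : (k = 1 ∧ r ≤ -1) ∨ (k = 1 ∧ r = 0 ∧ -1 ≤ t) ∨ (k = 2 ∧ r ≤ 0) ∨ 3 ≤ k
          · exact not_a h (aP ht h1 h2 hc) a'
          · have n0 : ¬ (0 : ℕ) = k := by omega
            obtain ⟨r1, r2, -⟩ := rels h (by simp [n0]) (by simp [F0']) (by simp [n0])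
              (by simp [F0'])
            simp only [coeff_add, coeff_one, coeff_C_mul, coeff_C] at r1 r2
            norm_num at r1 r2
            have hk12 : k = 1 ∨ k = 2 := by omega
            rcases hk12 with rfl | rfl
            · rw [if_pos rfl] at r1
              have hr0 : r = 0 := by omega
              subst hr0
              rw [map_zero, zero_mul, add_zero] at h
              exact s2 h (by omega) F0' Fk' r1.symm
            · rw [if_neg (by omega : ¬ 1 = 2)] at r1 r2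
              rw [if_pos rfl, ← r1, mul_zero] at r2
              have := abs_le.mp (Fk' 2)
              omega
        · rcases hg with rfl | rfl
          · obtain ⟨r1, -, -⟩ := rels h (by simp [F0]) (by simp [F0']) (by simp [F0])
              (by simp [F0'])
            rw [coeff_add, coeff_add] at r1
            exact not_a h (aF hs1 hs F0 Fk (by linarith)) a'
          · obtain ⟨r1, -, -⟩ := rels h (by simp) (by simp [F0']) (by simp [F0])
              (by simp [F0'])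
            rw [coeff_add, coeff_one] at r1
            norm_num at r1
            by_cases hF1 : 0 ≤ F.coeff 1
            · exact not_a h (aG hs1 hs F0 Fk hF1) a'
            · have := abs_le.mp (Fk 1)
              exact s1 h hs1 hs F0 Fk F0' Fk' (by omega) r1.symm
    · -- `X'` UF, `g' = 1`
      rcases hB with ⟨k, t, r, hk, rfl, rfl, ht, h1, h2⟩ | ⟨s, F, hs1, hs, F0, Fk, rfl, hg⟩
      · have n0 : ¬ (0 : ℕ) = k := by omega
        have hq : -1 ≤ t ∨ 2 ≤ k → False := by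
          intro hq
          apply s3a h
          rw [ev]
          have hN' : (2 : ℝ) ≤ N := by exact_mod_cast n2
          have hx3 : x ≤ 1 / 3 := by nlinarith
          have t1 : -((N : ℝ) - 1) ≤ t := by
            have := (abs_le.mp (by omega : |t| ≤ (N : ℤ) - 1)).1
            exact_mod_cast this
          obtain ⟨m, rfl⟩ := Nat.exists_eq_add_of_le hk
          have h3 : -1 ≤ (t : ℝ) * x ^ m := by
            have h4 : x ^ m ≤ 1 := pow_le_one₀ x0.le (by linarith)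
            have h5 : 0 ≤ x ^ m := pow_nonneg x0.le m
            by_cases h6 : -1 ≤ t
            · have h7 : (-1 : ℝ) ≤ t := by exact_mod_cast h6
              nlinarith [mul_nonneg (by linarith : (0 : ℝ) ≤ t + 1) h5]
            · have h8 : 2 ≤ 1 + m := by omega
              obtain ⟨m', rfl⟩ := Nat.exists_eq_add_of_le (by omega : 1 ≤ m)
              have h9 : x ^ m' ≤ 1 := pow_le_one₀ x0.le (by linarith)
              have h10 : 0 ≤ x ^ m' := pow_nonneg x0.le m'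
              have h11 : x ^ (1 + m') = x * x ^ m' := by rw [pow_add, pow_one]
              rw [h11]
              have h12 : x * x ^ m' ≤ x * 1 := mul_le_mul_of_nonneg_left h9 x0.le
              have h13 : 0 ≤ x * x ^ m' := mul_nonneg x0.le h10
              nlinarith [mul_nonneg (by linarith : (0 : ℝ) ≤ t + (N - 1)) h13]
          have h14 := mul_nonneg (mul_nonneg x0.le x0.le)
            (by linarith : (0 : ℝ) ≤ t * x ^ m + 1)
          rw [pow_add, pow_one]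
          push_cast
          nlinarith
        by_cases hq1 : -1 ≤ t ∨ 2 ≤ k
        · exact hq hq1
        · have hk1 : k = 1 := by omega
          subst hk1
          obtain ⟨r1, -, -⟩ := rels h (by simp) (by simp) (by simp) (by simp [F0'])
          rw [coeff_one, co1] at r1
          norm_num at r1
          subst r1
          rw [map_zero, zero_mul, add_zero] at h
          exact s3 h hs' F0' Fk'
      · by_cases hF1 : 0 ≤ F.coeff 1
        · have h1 := aG hs1 hs F0 Fk hF1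
          rw [map_one] at h1
          exact s3a h h1
        · rcases hg with rfl | rfl
          · obtain ⟨r1, -, -⟩ := rels h (by simp [F0]) (by simp) (by simp [F0]) (by simp [F0'])
            rw [coeff_add, coeff_one] at r1
            norm_num at r1
            omega
          · have := abs_le.mp (Fk 1)
            exact s4 h hs1 hs F0 Fk hs' F0' Fk' (by omega)

/-- (UBC) THE CONTENT: `p = c P`, `f' = c g`, `c = (1 + X^2)^d`, `d ≥ 1`, is impossible. -/
theorem ubc {q f f' p p' : ℤ[X]} (hd : 1 ≤ d) (h : Tp N q f x y) (h' : Tp N q f' x y)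
    (hX : X * p = (1 - X - X ^ 2) * f - q) (hX' : X * p' = (1 - X - X ^ 2) * f' - q)
    (hp : p = (1 + X ^ 2) ^ d * P) (hf : f' = (1 + X ^ 2) ^ d * g) (hB : Ty N P g)
    (hB' : Ty N p' f) : False := by
  have e1 : ∀ t : ℝ, (aeval t q : ℝ) = (1 - t - t ^ 2) * aeval t f -
      (1 + t ^ 2) ^ d * (t * aeval t P) := by
    intro t
    have : q = (1 - X - X ^ 2) * f - X * p := by rw [hX]; ring
    rw [this, hp]
    simp only [map_sub, map_mul, map_add, map_one, aeval_X, map_pow]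
    ring
  have e2 : ∀ t : ℝ, (aeval t q : ℝ) = (1 + t ^ 2) ^ d * ((1 - t - t ^ 2) * aeval t g) -
      t * aeval t p' := by
    intro t
    have : q = (1 - X - X ^ 2) * f' - X * p' := by rw [hX']; ring
    rw [this, hf]
    simp only [map_sub, map_mul, map_add, map_one, aeval_X, map_pow]
    ring
  have e3 : ∀ t : ℝ, (aeval t f' : ℝ) = (1 + t ^ 2) ^ d * aeval t g := by
    intro t
    rw [hf]
    simp only [map_mul, map_add, map_one, aeval_X, map_pow]
  apply main (N := N) (d := d) (P := P) (g := g) (P' := p') (g' := f) (x := x) (y := y) _ hB hB'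
  have hI := h.I
  have hII := h.II
  have hII' := h'.II
  refine ⟨hd, h.j2, h.hx, h.hy, h.x0, h.y0, ?_, ?_, ?_, ?_, ?_⟩
  · have : (1 + X ^ 2) ^ d * ((1 - X - X ^ 2) * g + X * P) = (1 - X - X ^ 2) * f' + X * p := by
      rw [hp, hf]
      ring
    rw [this]
    linear_combination hX - hX'
  · rw [e1] at hI
    linarith
  · rw [e2] at hI
    linarith
  · rw [e1] at hII
    linarith
  · rw [e2, e3] at hII'
    linarith

/-- From the strong form of THEOREM B'; the conditions on the binomials come from the stability. -/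
theorem ty_of_bpx (hB : (g ≠ 1 → Bpx N P g) ∧ (g = 1 → Bqx N P))
    (hc : ∀ (k : ℕ) (t r : ℤ), 1 ≤ k → P = C (N : ℤ) + C t * X ^ k → g = 1 + C r * X ^ k →
      |t| + 1 ≤ N ∧ |1 + r| ≤ N + t ∧ |1 - r| ≤ N - t) : Ty N P g := by
  by_cases hg : g = 1
  · rcases hB.2 hg with ⟨k, t, hk, hP⟩ | ⟨s, M, F, hs, ⟨hM, F0, Fk, -⟩, hP⟩
    · exact Or.inl ⟨k, t, 0, hk, hP, by rw [hg]; simp, hc k t 0 hk hP (by rw [hg]; simp)⟩
    · exact Or.inr ⟨s + 1, F, by omega, by omega, F0, Fk, by push_cast; exact hP, Or.inr hg⟩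
  · rcases hB.1 hg with ⟨k, t, r, hk, hP, hg'⟩ | ⟨s, M, F, hs, ⟨hM, F0, Fk, -⟩, hP, hg'⟩
    · exact Or.inl ⟨k, t, r, hk, hP, hg', hc k t r hk hP hg'⟩
    · exact Or.inr ⟨s + 1, F, by omega, by omega, F0, Fk, by push_cast; exact hP, Or.inl hg'⟩

end Pool.Agent.B5.O4C
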